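import Pool.Agent.H42.D2.Nqa
import Pool.Agent.H31.W.H5.PN.Jfq
import Pool.Agent.H3.W.Bas

/-!
# The chain of the near path theorem at the windows of a record

`chj_of`, `RecG.chj`: `ChJ` for the windows `t + vv q < t`. `RecG.fwx`: the context of the chain at the
window `t + vv q` given the near jets at the window `t`.
-/

set_option autoImplicit false

namespace Pool.W.NPZ

open Pool.NPZ

open Finset Real MvPolynomial
open Pool.Agent.H49.Ent Pool.Agent.H32.Dense Pool.STK Pool.KA Pool.KSAT Pool.K2S Pool.PB Pool.GEN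
open Pool.S6C Pool.RCD Pool.LA91 Pool.OWN68 Pool.CHT Pool.AJW
open Pool.AJX (LbX FwX)


end Pool.W.NPZ

namespace Pool.W.PKG

open Pool.PKG

open Finset Real
open Pool.Agent.H49.Ent Pool.Agent.H32.Dense Pool.STK Pool.KA Pool.KSAT Pool.K2S Pool.PB
open Pool.GEN Pool.S6C Pool.STAT Pool.CHT Pool.GRW Pool.ONE Pool.STA
open Pool.LA91 Pool.AJW Pool.NPZ
open Pool.RCD (vg)
open Pool.AJX (LbX FwX)

section

variable {m : ℕ} {S : Pool.PB.PCl m} {al : ℝ} {g₀ : ℝ → ℝ} {P : List (Fin m) × Fin m → ℝ → ℝ → ℝ}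
  {θ : ℝ} {P₂ : ℕ → List (Fin m) × Fin m → ℝ → ℝ → ℝ} {θ₂ Eb e₂ : ℕ → ℝ}
  {c : ℕ → Fin m} {Pt : ℝ → ℝ → ℝ} {rt : ℝ → ℝ} {h K₀ g : ℝ} {L T : ℕ → ℝ → ℝ → ℝ}
  {Sl : ℕ → ℝ} {κ : ℕ → Pool.PKG.Kg} {G : Set ℝ} {S₀ N : ℕ} {A V : ℕ → ℝ} {S₂ N' : ℕ} {V' : ℕ → ℝ}
  {K' ε q t : ℝ} {S₁ : Pool.PB.PCl m} {r K : ℕ} {vv X φ lam kf : ℝ}


/-- **The chain of the near path theorem** at the windows `t + vv q < t` of a record. -/
theorem RecG.chj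
    (R : Pool.W.PKG.RecG S al g₀ P θ P₂ θ₂ Eb e₂ c Pt rt h K₀ g L T Sl κ G S₀ N A V S₂ N' V' K' ε q t)
    (hκ : ∀ l < r, κ l = .one) (hr : 1 ≤ r) (hrm : r < m)
    (hch : Pool.LA91.ChG S₁ c (r + 1) (fun l x => L l x x) G)
    (U : Pool.AJW.JfU r K vv X φ lam kf) (hGt : t ∈ G)
    (hG : ∀ k ≤ r, t + Pool.AJW.jfV r vv X k * q ∈ G) (hK : -vv + 3 ^ r * X ≤ K') (hlam : lam ≤ K')
    (hε : 2 * ε ≤ φ) {m₁ ρ g₁ : ℝ} {E rd : ℕ → ℝ} (hg : 0 < g₁) (hm : 3 ^ r * X * q + g₁ ≤ m₁)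
    (hρ : ρ + g₁ ≤ 1)
    (hE : ∀ i < r, 0 ≤ E i ∧ L i (t + vv * q) (t + vv * q) + E i + m₁ ≤ 1 ∧
      0 ≤ rd i ∧ rd i ≤ ρ) {qv : ℝ} (hqv : 0 < qv) (hqX : qv - vv + 3 * φ ≤ X) :
    Pool.NPZ.ChJ S₁ c 0 r (t + vv * q) t (lam * q) (qv * q) (φ * q) g₁ E
      (fun i => L i (t + vv * q) (t + vv * q)) (fun i => L i t t)
      (Pool.AJW.nX r (fun l x => L l x x) (t + vv * q) (X * q))
      (fun l => Pool.AJW.aX r (X * q) l - (t - (t + vv * q)) - 2 * (φ * q)) rd := by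
  have hq := R.q0
  refine Pool.NPZ.chj_of hch (R.jf hκ hrm.le U hGt hG hK hlam hε) hr (m₁ := m₁) hg (by linarith)
    (fun i hi => ⟨(hE i hi).1, (hE i hi).2.1⟩) (fun i hi => ⟨(hE i hi).2.2.1, by
      linarith [(hE i hi).2.2.2]⟩) (mul_pos hqv hq) ?_
  have h1 := mul_le_mul_of_nonneg_right hqX hq.le
  linarith

/-- **The context of the chain** at the window `t + vv q` given the near jets at the window `t`. -/
theorem RecG.fwx {C₀ : ℝ} (htm : Pool.GEN.TmC S₁ C₀)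
    (R : Pool.W.PKG.RecG S al g₀ P θ P₂ θ₂ Eb e₂ c Pt rt h K₀ g L T Sl κ G S₀ N A V S₂ N' V' K' ε q t)
    (hκ : ∀ l < r, κ l = .one) (hrm : r ≤ m)
    (hch : Pool.LA91.ChG S₁ c (r + 1) (fun l x => L l x x) G)
    (U : Pool.AJW.JfU r K vv X φ lam kf) (hGt : t ∈ G)
    (hG : ∀ k ≤ r, t + Pool.AJW.jfV r vv X k * q ∈ G) (hK : -vv + 3 ^ r * X ≤ K') (hlam : lam ≤ K')
    (hε : 2 * ε ≤ φ) {pf : ℕ → ℝ} (hpf : ∀ l < r, L l t t - φ * q ≤ pf l) {E rd : ℕ → ℝ}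
    (hE : ∀ i < r, E i ≤ 1) (hrd : ∀ i < r, 0 ≤ rd i) {Kc : ℕ} {e δ : ℝ} (hδ : 0 < δ)
    (he : 0 < e) (hle : e ≤ φ * q / 8) {Nf : ℕ → ℕ → ℝ}
    (hNf : ∀ l < r, ∀ j ≤ 1, Nf l j = L l t t + kf * q - (j : ℕ) * t) :
    Pool.AJX.FwX S₁ (fun J F => Pool.PB.ptr F J) (Pool.RCD.vg t) (fun _ F => F.T)
      (Pool.LA91.qJets m c 0 r 1 (fun _ _ => t) (fun l _ => pf l) Nf) c 0 r Kc E (t + vv * q) rd
      (fun i => L i (t + vv * q) (t + vv * q))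
      (Pool.AJW.ctx c 0 r Kc (t + vv * q) (lam * q) (Pool.AJW.nX r (fun l x => L l x x) (t + vv * q) (X * q)))
      e δ := by
  have HF := (R.farV hκ hrm hch U hGt hG hK hlam hε hpf).nf hNf
  have ht1 : t ≤ 1 := by
    have h1 := HF.wl
    have h2 := HF.l1
    linarith
  exact Pool.AJW.far_ctxX htm HF le_rfl ht1 (fun J F => ⟨id, fun ω => rfl⟩) (fun J F => by
    refine ⟨fun t => (t, fun _ => 0, fun _ => 0), fun ω => ?_⟩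
    simp only [Finset.range_zero, Finset.image_empty, Finset.notMem_empty, if_false])
    (fun i _ hi => hE i hi) (fun i _ hi => hrd i hi) hδ le_rfl he hle

end

end Pool.W.PKG
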