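import Pool.Agent.H42.D2.Nqb
import Pool.Agent.H31.W.H92.V0F.Vsd
import Pool.Agent.H3.W.Bas
import Pool.Agent.H31.W1.H2.GEN.ChT

/-!
# Labels of the chain windows with a margin for the radii

`recG_lbf`: as `recG_lbe` of helper92, the radii stay below one by the margin, too.
-/

set_option autoImplicit false

namespace Pool.W.V0F

open Pool.V0F

open Finset Real MvPolynomial
open Pool.Agent.H49.Ent Pool.Agent.H32.Dense Pool.STK Pool.KA Pool.KSAT Pool.K2S Pool.PB Pool.GEN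
open Pool.S6C Pool.RCD Pool.LA91 Pool.OWN68 Pool.PKG
open Pool.D2R (BalD)
open Pool.CHT (chsys TmH)
open Pool.ISO (lvN)
open Pool.TOP (TopS)
open Pool.ONE (lst)

/-- **Labels of a universal degree at the chain windows of a record**, in a subclass, with a margin, also for the radii:
the degree `D` depends only on `n` and `S₀`. -/
theorem recG_lbf (n S₀ : ℕ) (hn : 2 ≤ n) (hS₀ : 1 ≤ S₀) : ∃ D : ℕ, 1 ≤ D ∧
    ∀ {S : Pool.PB.PCl n} {al : ℝ} {g₀ : ℝ → ℝ} {P : List (Fin n) × Fin n → ℝ → ℝ → ℝ}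
    {θ : ℝ} {P₂ : ℕ → List (Fin n) × Fin n → ℝ → ℝ → ℝ} {θ₂ Eb e₂ : ℕ → ℝ}
    {c : ℕ → Fin n} {Pt : ℝ → ℝ → ℝ} {r : ℝ → ℝ} {h K₀ g : ℝ} {L T : ℕ → ℝ → ℝ → ℝ}
    {Sl : ℕ → ℝ} {κ : ℕ → Pool.PKG.Kg} {G : Set ℝ} {N : ℕ} {A V : ℕ → ℝ} {S₂ N' : ℕ} {V' : ℕ → ℝ}
    {K ε q t m₁ : ℝ},
    Pool.W.PKG.RecG S al g₀ P θ P₂ θ₂ Eb e₂ c Pt r h K₀ g L T Sl κ G S₀ N A V S₂ N' V' K ε q t →
    0 < K → (∀ k < N', |V' k| ≤ K) → m₁ ≤ 3 * K * q →
    (∀ k < N', ∃ rd : ℕ → ℝ, Pool.LA91.Chn S c 0 (n - 1) (t + V' k * q) (t + V' k * q)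
      (Pool.SWC.Lx L (n - 2) (t + V' k * q)) (fun l => L l (t + V' k * q) (t + V' k * q)) rd) →
    (∀ k < N', ∃ rk E : ℝ, 0 ≤ E ∧ E + L (n - 1) (t + V' k * q) (t + V' k * q) + m₁ ≤ 1 ∧
      Pool.V0F.AttR S ((range (n - 1)).image c) (c (n - 1)) (t + V' k * q)
        (L (n - 1) (t + V' k * q) (t + V' k * q)) rk E) →
    ∃ S' : Pool.PB.PCl n,
      (∀ (τ : ℝ) (J : ℕ) (F : Pool.KA.Fam n J) (A : F.Ω → Prop), S'.St τ J F A → S.St τ J F A) ∧
      Pool.W.PKG.RecG S' al g₀ P θ P₂ θ₂ Eb e₂ c Pt r h K₀ g L T Sl κ G S₀ N A V S₂ N' V' K ε q t ∧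
      ∀ k < N', ∃ (E rd : ℕ → ℝ),
        (∀ l ≤ n - 1, 0 ≤ E l ∧ L l (t + V' k * q) (t + V' k * q) + E l + m₁ ≤ 1 ∧
          0 ≤ rd l ∧ rd l + m₁ ≤ 1) ∧ ∀ e : ℝ, 0 < e →
        Pool.S6C.Bas S' (fun J F A => ∃ (V : Type) (z : Pool.GEN.PtT F → V) (z' : Pool.GEN.LnT F → V)
          (g : V → ℕ → MvPolynomial (Option (Fin n)) ℝ),
          Pool.V0F.LbE F c n D E e (t + V' k * q) rd
            (fun l => L l (t + V' k * q) (t + V' k * q)) A z z' g) := by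
  obtain ⟨D, hD, hext⟩ := Pool.W.V0F.lbc_ext n (n - 1) S₀ (by omega) hS₀
  refine ⟨D, hD, ?_⟩
  intro S al g₀ P θ P₂ θ₂ Eb e₂ c Pt r h K₀ g L T Sl κ G N A V S₂ N' V' K ε q t m₁ R hK hV hm₁
    hch hatt
  have hn1 : n - 1 + 1 = n := by omega
  have hq := R.q0
  choose! rd hch using hch
  choose! rk E hE0 hE1 hatt using hatt
  have hlv : ∀ k < N', ∀ i ≤ n - 1, 0 < Pool.ISO.lvN P c (n - 1) Pt i (t + V' k * q) (t + V' k * q) := by
    intro k hk i hi
    obtain ⟨ρ, vs, e, e₀, E, sg, Q, k1, -⟩ := (Pool.W.V0F.balD_rec R hn hK hk (hV k hk)).dw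
    exact k1.w0.trans_le (k1.low R.thr i)
  have hlvL : ∀ k : ℕ, ∀ i ≤ n - 1, Pool.ISO.lvN P c (n - 1) Pt i (t + V' k * q) (t + V' k * q) =
      L i (t + V' k * q) (t + V' k * q) := fun k i hi => by rw [R.lv i (by omega)]
  have hroom : ∀ k < N', ∀ i ≤ n - 1, L i (t + V' k * q) (t + V' k * q) + m₁ ≤ 1 := by
    intro k hk i hi
    have W := R.tg (n - 1) (by omega) (by omega)
    have h3 := W.room i hi (t + V' k * q) (by
      rw [add_sub_cancel_left, abs_mul, abs_of_pos hq]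
      exact mul_le_mul_of_nonneg_right (hV k hk) hq.le)
    have := W.Eb0
    linarith
  obtain ⟨u, hu⟩ : ∃ u : ℕ → ℝ, u = fun k => Pool.SWC.Lx L (n - 2) (t + V' k * q) := ⟨_, rfl⟩
  have hue : ∀ k, Pool.SWC.Lx L (n - 2) (t + V' k * q) = u k := fun k => by rw [hu]
  obtain ⟨E', hE'⟩ : ∃ E' : ℕ → ℝ, E' = fun k =>
      max (E k) (u k - L (n - 1) (t + V' k * q) (t + V' k * q)) := ⟨_, rfl⟩
  obtain ⟨S', hne, hsub, hlab⟩ := hext (ι := {k : ℕ // k < N'}) (w := fun k => t + V' k.1 * q)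
    (u := fun k _ => u k.1)
    (E := fun k i => if i < n - 1 then max 0 (u k.1 - L i (t + V' k.1 * q) (t + V' k.1 * q))
      else E' k.1) R.ne R.thr R.th0 R.tmh
    (by norm_num : (0 : ℝ) ≤ 6) R.tmc (by rw [hn1]; exact R.inj) R.law (fun k => by
      have h1 := hch k.1 k.2
      rw [hue] at h1
      refine Pool.W.V0F.LbD.of2 (Pool.W.V0F.balD_rec R hn hK k.2 (hV k.1 k.2)) h1 (fun i hi => (hlvL k.1 i hi.le).symm)
        (rk := rk k.1) ?_ ?_ ?_ (hlv k.1 k.2)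
      · rw [hlvL k.1 _ le_rfl]
        refine (hatt k.1 k.2).mono ?_
        rw [hE']
        exact le_max_left _ _
      · rw [hE']
        exact (hE0 k.1 k.2).trans (le_max_left _ _)
      · rw [hlvL k.1 _ le_rfl, hE']
        have := le_max_right (E k.1) (u k.1 - L (n - 1) (t + V' k.1 * q) (t + V' k.1 * q))
        linarith)
  have hu1 : ∀ k < N', u k + m₁ ≤ 1 := fun k hk => by
    rw [← hue]
    have h1 : Pool.SWC.Lx L (n - 2) (t + V' k * q) ≤ 1 - m₁ :=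
      Pool.SWC.lx_le L fun i hi => by linarith [hroom k hk i (by omega)]
    linarith
  refine ⟨S', hsub, R.sub hne hsub, fun k hk => ⟨fun i => if i < n - 1 then
    max 0 (u k - L i (t + V' k * q) (t + V' k * q)) else E' k, fun _ => u k,
    fun l hl => ⟨?_, ?_, ?_, hu1 k hk⟩, fun e he => ?_⟩⟩
  · by_cases h1 : l < n - 1
    · simp only [if_pos h1]
      exact le_max_left _ _
    · simp only [if_neg h1]
      rw [hE']
      exact (hE0 k hk).trans (le_max_left _ _)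
  · have hu1 := hu1 k hk
    by_cases h1 : l < n - 1
    · simp only [if_pos h1]
      have h2 := hroom k hk l hl
      rcases max_choice 0 (u k - L l (t + V' k * q) (t + V' k * q)) with h3 | h3
      · rw [h3]
        linarith
      · rw [h3]
        linarith
    · have h2 : l = n - 1 := by omega
      subst h2
      simp only [lt_irrefl, if_false]
      rw [hE']
      simp only
      rcases max_choice (E k) (u k - L (n - 1) (t + V' k * q) (t + V' k * q)) with h3 | h3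
      · rw [h3]
        linarith [hE1 k hk]
      · rw [h3]
        linarith
  · show 0 ≤ u k
    rw [← hue]
    exact (hch k hk).w0.trans (hch k hk).wu1
  · refine (hlab ⟨k, hk⟩ e he).mono 0 ?_
    rintro J - F A' ⟨V₁, z, z', g', h1⟩
    refine ⟨V₁, z, z', g', fun i hi => ?_⟩
    have h2 := h1 i (by omega)
    simp only [← R.lv i hi] at h2
    exact h2

end Pool.W.V0F
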