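import Pool.Agent.H42.D2.Nqd
import Pool.Agent.H31.W.H73.D2.Tnh
import Pool.Agent.H31.W1.H23.D2.Bln
import Pool.Agent.H31.W1.H80.GEN.Chn
import Pool.Agent.H57.W1.H91.D2.Tlc5

/-!
# The dead velocity of the target `N - P(p, u)` without the row label

`WNU.labw`, `vfnU_of`: as `WN.labw`, `vfn_of` of helper18 for the windows `WNU`. `VfNU.of_xi`,
`bxU_part`: as `VfN.of_xi`, `bx_part`.
-/

set_option autoImplicit false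

namespace Pool.W.V1E

open Pool.V1E

open Finset Real MvPolynomial
open Pool.KA Pool.KSAT Pool.PB Pool.GEN Pool.D2R Pool.D2G30 Pool.ISO Pool.CHT Pool.CHX
open Pool.PB.Trl (rt rt_mem t_rt)
open Pool.Agent.H49.Ent Pool.Agent.H32.Dense Pool.STK Pool.K2S Pool.LA91 Pool.OWN68
open Pool.UNJ (ceI)
open Pool.S6C Pool.RCD Pool.D2Con Pool.END18 Pool.VLF71
open Pool.GRD (LbP)
open Pool.PN18 (Fm2 Fw2)
open Pool.ALT (DpI wz wz_slam floorw)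

/-- **The labels of the window of the target.** -/
theorem WNU.labw {m : ℕ} {c : ℕ → Fin m} {r D Dw Dr N N₂ : ℕ} {R : ℕ → Prop}
    {C a Eb ε₀ η₀ χ mb : ℝ} {Pt : ℝ → ℝ → ℝ} {o : ℕ → ℝ} {lv be : ℕ → ℕ → ℝ} {J : ℕ} {F : Pool.KA.Fam m J}
    {b : ℕ → ℕ → ℝ} {κ : ℝ} {z : ℕ → ℕ → ℕ} {qe : Fin r → ℕ} {B : F.Ω → Prop} {gc gT g₀ : ℕ → ℕ → ℕ}
    {G : ℕ → Pool.GEN.PtT F → ℕ → MvPolynomial (Option (Fin m)) ℝ}
    {H : ℕ → Pool.GEN.LnT F → ℕ → MvPolynomial (Option (Fin m)) ℝ}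
    {T : ℕ → Pool.GEN.PtT F → ℕ → MvPolynomial (Option (Fin m)) ℝ}
    {TH : ℕ → Pool.GEN.LnT F → ℕ → MvPolynomial (Option (Fin m)) ℝ}
    {Gt : ℕ → Pool.GEN.PtT F → MvPolynomial (Option (Fin m)) ℝ}
    {Ht : ℕ → Pool.GEN.LnT F → MvPolynomial (Option (Fin m)) ℝ}
    {CL : Pool.GEN.LnT F → MvPolynomial (Option (Fin m)) ℝ}
    {Cp : Pool.GEN.PtT F → MvPolynomial (Option (Fin m)) ℝ}
    (W : Pool.W.V1E.WNU c r D Dw Dr N N₂ R C a Eb ε₀ η₀ χ mb Pt o lv be F b κ z qe B gc gT g₀ G H T TH Gt Ht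
      CL Cp) {ζ : ℝ} (ho : o 2 + η₀ ≤ o 0) (hη : 0 ≤ η₀)
    (hn : ∀ l < r, lv 0 l - o 0 ≤ lv 2 l - o 2 + ζ) (hζ : ζ + η₀ ≤ χ) (hC : C * η₀ ≤ χ)
    {x' : ℕ} (hx : 2 * ⌊χ * J⌋₊ + 8 ≤ x') :
    Pool.VLF71.LabW F c r Dw ⌊o 0 * J⌋₊ x' (g₀ 0) B (G 2) (G 0) (H 0) := by
  have Wd := W.nw
  have hN3 := W.n3
  have hJ0 : (0 : ℝ) ≤ J := Nat.cast_nonneg J
  have h2 : ⌊o 2 * J⌋₊ ≤ ⌊o 0 * J⌋₊ := Nat.floor_le_floor
    (mul_le_mul_of_nonneg_right (by linarith) hJ0)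
  have hzz := W.wg.zz 2 (by omega) 0 (by omega) ho
  refine ⟨Wd.hc.mono fun y hy => ?_, ?_, Wd.dG 0, Wd.pG 0, Wd.dG 1, Wd.pG 1, Wd.dH 1,
    fun ω hω l hl => (W.wg.wb.ev 0 (by omega)).cls ω hω l (by omega),
    fun ω hω l hl => (W.wg.wb.ev 0 (by omega)).ball.pos ω hω l (by omega),
    fun ω hω l hl τ hτ => (W.wg.own 0 (by omega) ω hω l (by omega) τ hτ).trans
      (div_le_div_of_nonneg_right (pow_le_pow_right₀ (by norm_num) ?_) (by positivity)),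
    fun ω hω l hl => ?_⟩
  · rw [Set.mem_Iio] at hy ⊢
    omega
  · have h1 : ⌊o 3 * J⌋₊ = ⌊o 0 * J⌋₊ + (⌊o 3 * J⌋₊ - ⌊o 0 * J⌋₊) := Wd.o2
    have h2 := Wd.o3
    have h3 := Wd.oJ
    have h4 : ⌊o 3 * J⌋₊ ≤ J := h2.trans h3
    omega
  · have h4 : ⌊C * (η₀ * J)⌋₊ ≤ ⌊χ * J⌋₊ := Nat.floor_le_floor (by
      rw [← mul_assoc]
      exact mul_le_mul_of_nonneg_right hC hJ0)
    omega
  · refine ⟨F.x ω (c l) - eval (Pool.GEN.bt F ω) (G 2 (Pool.PB.ptr F J ω) l), fun bb hb => ?_⟩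
    have h1 := Pool.W.V1E.shf_b (H := fun k => H (Pool.V1E.fr4 k)) Wd.bal (k := 0) (k' := 1) (q := 0) (Nat.zero_le 3)
      (show 1 ≤ 3 by norm_num) (Nat.zero_le _) h2 hzz Wd.ch1 hω (show l ≤ r + 1 by omega) hb
    refine h1.trans (Pool.V1E.p2_le' ?_)
    have hf1 : g₀ (Pool.V1E.fr4 1) l = g₀ 0 l := rfl
    have hf0 : b (Pool.V1E.fr4 0) l = b 2 l := rfl
    have ho0 : o (Pool.V1E.fr4 0) = o 2 := rfl
    have ho1 : o (Pool.V1E.fr4 1) = o 0 := rfl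
    rw [hf1, hf0, ho0, ho1]
    have g0 := (W.wg.wb.g_num (k := 0) (l := l) (by omega) (by omega)).2.2.2
    have g2 := (W.wg.wb.g_num (k := 2) (l := l) (by omega) (by omega)).1
    have ho00 : 0 ≤ o 0 := (W.wg.wb.ho 0 (by omega)).1
    have ho20 : 0 ≤ o 2 := (W.wg.wb.ho 2 (by omega)).1
    have f0 := Pool.V1E.flo (mul_nonneg ho00 hJ0)
    have f2 := Pool.V1E.flo (mul_nonneg ho20 hJ0)
    have hχ0 : 0 ≤ χ := by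
      have h5 : 0 ≤ C := by linarith [W.wg.wb.C1]
      exact (mul_nonneg h5 hη).trans hC
    have fχ := Pool.V1E.flo (mul_nonneg hχ0 hJ0)
    have h6 := mul_le_mul_of_nonneg_right (hn l hl) hJ0
    have h7 := mul_le_mul_of_nonneg_right hζ hJ0
    have h8 : (g₀ 0 l : ℝ) ≤ ((⌊b 2 l * J⌋₊ + (⌊o 0 * J⌋₊ - ⌊o 2 * J⌋₊) + (⌊χ * J⌋₊ + 4) : ℕ) : ℝ) := by
      rw [Nat.cast_add, Nat.cast_add, Nat.cast_sub h2]
      push_cast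
      linarith
    have h9 : g₀ 0 l ≤ ⌊b 2 l * J⌋₊ + (⌊o 0 * J⌋₊ - ⌊o 2 * J⌋₊) + (⌊χ * J⌋₊ + 4) := by
      exact_mod_cast h8
    rcases le_total (⌊b 2 l * J⌋₊ + (⌊o 0 * J⌋₊ - ⌊o 2 * J⌋₊)) (g₀ 0 l) with h | h
    · rw [min_eq_left h]
      omega
    · rw [min_eq_right h]
      omega

variable {m : ℕ}

/-- **The box hypothesis**: the chart of `N - P` with `u` on its chart is almost constant on the box
of the frame at the window of the target. -/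
def BxNU (S : Pool.PB.PCl m) (c : ℕ → Fin m) (r D Dw Dr N N₂ : ℕ) (R : ℕ → Prop)
    (C a Eb ε₀ η₀ χ mb : ℝ) (Pt : ℝ → ℝ → ℝ) (o : ℕ → ℝ) (lv be : ℕ → ℕ → ℝ) (κ : ℝ)
    (qf : ℕ → Fin r → ℕ) (m₁ : ℝ) (Ξ : Pool.V1E.XiN m) : Prop :=
  Pool.S6C.Bas S (fun J F B => ∀ (b : ℕ → ℕ → ℝ) (z : ℕ → ℕ → ℕ) (gc gT g₀ : ℕ → ℕ → ℕ)
    (G : ℕ → Pool.GEN.PtT F → ℕ → MvPolynomial (Option (Fin m)) ℝ)
    (H : ℕ → Pool.GEN.LnT F → ℕ → MvPolynomial (Option (Fin m)) ℝ)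
    (T : ℕ → Pool.GEN.PtT F → ℕ → MvPolynomial (Option (Fin m)) ℝ)
    (TH : ℕ → Pool.GEN.LnT F → ℕ → MvPolynomial (Option (Fin m)) ℝ)
    (Gt : ℕ → Pool.GEN.PtT F → MvPolynomial (Option (Fin m)) ℝ)
    (Ht : ℕ → Pool.GEN.LnT F → MvPolynomial (Option (Fin m)) ℝ)
    (CL : Pool.GEN.LnT F → MvPolynomial (Option (Fin m)) ℝ)
    (Cp : Pool.GEN.PtT F → MvPolynomial (Option (Fin m)) ℝ),
    Pool.W.V1E.WNU c r D Dw Dr N N₂ R C a Eb ε₀ η₀ χ mb Pt o lv be F b κ z (qf J) B gc gT g₀ G H T TH Gt Ht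
      CL Cp → Ξ J F B g₀ G H Ht CL Cp →
    ∀ ω, B ω → ∃ κ₀ : ℝ, ∀ b', Pool.GEN.NBx c (G 0 (Pool.PB.ptr F J ω)) (g₀ 0) ⌊o 0 * J⌋₊ (F.t ω) r b' →
      |eval b' (Pool.V1E.nW c r (G 0 (Pool.PB.ptr F J ω)) (Cp (Pool.PB.ptr F J ω))) + κ₀| ≤ (2 : ℝ) ^ (-(m₁ * J)))

/-- **The dead velocity of `N - P(p, u)`** from the first jet of `N = c (r + 1)` over the labels of the
family `Ψ` at the window `w`, given the positions and velocities of the places before. -/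
theorem vfnU_of (Dw r : ℕ) : ∃ C' : ℝ, 1 ≤ C' ∧ ∀ {m D Dr N N₂ : ℕ} {R : ℕ → Prop} {S : Pool.PB.PCl m}
    {c : ℕ → Fin m} {C a Eb ε₀ η₀ ζ χ mb kk : ℝ} {Pt : ℝ → ℝ → ℝ} {o : ℕ → ℝ}
    {lv be : ℕ → ℕ → ℝ} {κ : ℝ} {qf : ℕ → Fin r → ℕ} {δ kf m₁ N₁ e d w : ℝ} {pf : ℕ → ℝ}
    {Pq : Fin r → ℝ} {Ψ : Pool.PN18.Fm2 m} {Ξ : Pool.V1E.XiN m},
    (∀ (τ : ℝ) (J : ℕ) (F : Pool.KA.Fam m J) (A : F.Ω → Prop), S.St τ J F A → 0 < Pool.K2S.Pe F.p A) →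
    (∀ (J : ℕ) (F : Pool.KA.Fam m J) (B : F.Ω → Prop) (g₀ : ℕ → ℕ → ℕ)
      (G : ℕ → Pool.GEN.PtT F → ℕ → MvPolynomial (Option (Fin m)) ℝ)
      (H : ℕ → Pool.GEN.LnT F → ℕ → MvPolynomial (Option (Fin m)) ℝ)
      (Ht : ℕ → Pool.GEN.LnT F → MvPolynomial (Option (Fin m)) ℝ)
      (CL : Pool.GEN.LnT F → MvPolynomial (Option (Fin m)) ℝ)
      (Cp : Pool.GEN.PtT F → MvPolynomial (Option (Fin m)) ℝ), Ξ J F B g₀ G H Ht CL Cp →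
      ∃ (V C : Type) (zp : Pool.GEN.PtT F → V) (z' : Pool.GEN.LnT F → V)
        (G₁ G₂ : V → MvPolynomial (Option (Fin m)) ℝ) (cc : Pool.GEN.LnT F → C),
        Ψ J F B V C zp z' G₁ G₂ cc ∧
        ∀ ω, B ω → Cp (Pool.PB.ptr F J ω) = G₂ (z' (Pool.KSAT.slam F ⌊w * J⌋₊ ω))) →
    Pool.W.V1E.BxNU S c r D Dw Dr N N₂ R C a Eb ε₀ η₀ χ mb Pt o lv be κ qf m₁ Ξ →
    Pool.PN18.Fw2 S (fun J F => Pool.PB.ptr F J) (o 0) (fun _ F => F.T)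
      (Pool.LA91.qJets m c 0 r 1 (fun _ _ => o 0) (fun l _ => pf l)
        (fun l j => lv 0 l + kf - (j : ℕ) * o 0)) Ψ (τ := fun _ _ _ _ => ℤ)
      (fun J F _ _ z' _ G₂ _ ω => ⌊(2 : ℝ) ^ (N₁ * J) * Pool.LA91.ojet F (c (r + 1)) 1
        (G₂ (z' (Pool.KSAT.slam F ⌊w * J⌋₊ ω))) ω⌋) e d →
    Pool.V1E.VnN r C η₀ ζ χ mb kk δ C' o lv qf Pq kf pf m₁ N₁ e d →
    Pool.W.V1E.VfNU S c r D Dw Dr N N₂ R C a Eb ε₀ η₀ χ mb kk Pt o lv be κ qf δ 1 Ξ := by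
  classical
  obtain ⟨C₁, hvf⟩ := Pool.VLF71.velf_ev ((Dw + 1) * (Dw + 1)) r
  refine ⟨16 * C₁ + 16, by
    have : (0 : ℝ) ≤ C₁ := Nat.cast_nonneg _
    linarith, ?_⟩
  intro m D Dr N N₂ R S c C a Eb ε₀ η₀ ζ χ mb kk Pt o lv be κ qf δ kf m₁ N₁ e d w pf Pq Ψ Ξ hpos hΞ
    hbox hF Nn
  have Nsm := Nn.sm
  have hη := Nn.η0
  have hC₁ : (0 : ℝ) ≤ C₁ := Nat.cast_nonneg _
  -- the slack
  obtain ⟨k₂, hk₂⟩ : ∃ k₂ : ℝ, k₂ = (δ * (o 3 - o 0) - (d + (16 * C₁ + 16) * χ)) / 2 := ⟨_, rfl⟩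
  have hk₂0 : 0 < k₂ := by rw [hk₂]; linarith
  have Nsm2 : d + (16 * C₁ + 16) * χ + k₂ < δ * (o 3 - o 0) := by
    have : δ * (o 3 - o 0) = 2 * k₂ + (d + (16 * C₁ + 16) * χ) := by rw [hk₂]; ring
    linarith
  -- the complexity
  obtain ⟨K, hKD, hKN⟩ : ∃ K : ℕ, D ≤ K ∧
      (∀ i ≤ r, ∀ j ≤ 1, |lv 0 i + kf - (j : ℕ) * o 0| + 3 ≤ K) := by
    refine ⟨D + (∑ i ∈ range (r + 1), ⌈|lv 0 i|⌉₊) + ⌈|kf|⌉₊ + ⌈|o 0|⌉₊ + 3, by omega,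
      fun i hi j hj => ?_⟩
    have h1 : ⌈|lv 0 i|⌉₊ ≤ ∑ i ∈ range (r + 1), ⌈|lv 0 i|⌉₊ :=
      Finset.single_le_sum (f := fun i => ⌈|lv 0 i|⌉₊) (fun i _ => Nat.zero_le _)
        (Finset.mem_range.2 (by omega))
    have h2 : (⌈|lv 0 i|⌉₊ : ℝ) ≤ ((∑ i ∈ range (r + 1), ⌈|lv 0 i|⌉₊ : ℕ) : ℝ) := by
      exact_mod_cast h1
    have h3 := Nat.le_ceil |lv 0 i|
    have h4 := Nat.le_ceil |kf|
    have h5 := Nat.le_ceil |o 0|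
    have h6 : |lv 0 i + kf - (j : ℕ) * o 0| ≤ |lv 0 i| + |kf| + |o 0| := by
      refine (abs_sub _ _).trans (add_le_add (abs_add_le _ _) ?_)
      rw [abs_mul, abs_of_nonneg (Nat.cast_nonneg j : (0 : ℝ) ≤ (j : ℕ))]
      have h7 : ((j : ℕ) : ℝ) ≤ 1 := by exact_mod_cast hj
      have h8 := mul_le_mul_of_nonneg_right h7 (abs_nonneg (o 0))
      linarith
    have h8 : (0 : ℝ) ≤ (D : ℝ) := Nat.cast_nonneg _
    rw [Nat.cast_add, Nat.cast_add, Nat.cast_add, Nat.cast_add]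
    push_cast at h2 ⊢
    linarith
  obtain ⟨kc, hkc⟩ : ∃ kc : ℝ, kc = 32 * C₁ + 60 := ⟨_, rfl⟩
  obtain ⟨J₁, hJ₁⟩ := Pool.V1E.lin_lt Nsm2 (kc + δ)
  obtain ⟨J₂, hJ₂⟩ := Pool.V1E.lin_lt Nn.kq 4
  obtain ⟨J₃, hJ₃⟩ := Pool.V1E.lin_lt Nn.kf1 4
  obtain ⟨J₄, hJ₄⟩ := Pool.V1E.lin_fam (n := r) (A := fun i => kf + η₀) (B := fun i => if hi : i < r then
    Pq ⟨i, hi⟩ else 0) (fun i hi => by
      show kf + η₀ < (if hi : i < r then Pq ⟨i, hi⟩ else 0)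
      rw [dif_pos hi]
      exact Nn.kf2 ⟨i, hi⟩) 4
  obtain ⟨J₅, hJ₅⟩ := Pool.V1E.lin_lt Nn.oJ 2
  refine ⟨k₂, hk₂0, ?_⟩
  refine Pool.S6C.Bas.mono (max (max J₁ J₂) (max (max J₃ J₄) (max J₅ 1))) (((hF K).and hbox).and
    (Pool.LA91.pos_bas hpos)) ?_
  rintro J hJ F B ⟨⟨hFB, hbxB⟩, hB⟩ b z gc gT g₀ G H T TH Gt Ht CL Cp W hXi
  have hbx := hbxB b z gc gT g₀ G H T TH Gt Ht CL Cp W hXi
  have j1 := hJ₁ J (by omega)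
  have j2 := hJ₂ J (by omega)
  have j3 := hJ₃ J (by omega)
  have j4 := hJ₄ J (by omega)
  have j5 := hJ₅ J (by omega)
  clear hJ₁ hJ₂ hJ₃ hJ₄ hJ₅
  have hJ1 : 1 ≤ J := by omega
  have hJ0 : (0 : ℝ) ≤ J := Nat.cast_nonneg J
  have mulJ : ∀ {x y : ℝ}, x ≤ y → x * J ≤ y * J := fun h => mul_le_mul_of_nonneg_right h hJ0
  refine ⟨B, fun ω h => h, by rw [one_mul], fun V v vL hv hvL hvZ => ?_⟩
  have hql : Pool.STK.IsLaw (Pool.Agent.H49.Ent.cond F.p B True) := Pool.K2S.isLaw_cond F.isLaw hB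
  have hqB : ∀ ω, 0 < Pool.Agent.H49.Ent.cond F.p B True ω → B ω := fun ω hω =>
    of_eq_true ((Pool.Agent.H49.Ent.cond_pos_iff F.isLaw.nonneg B True ω).1 hω).2
  have h0 := hql.nonneg
  have Wd := W.nw
  have hN3 := W.n3
  have hC : 1 ≤ C := W.wg.wb.C1
  have hCη : 0 ≤ C * η₀ := mul_nonneg (by linarith) hη.le
  have hχ0 : 0 ≤ χ := hCη.trans Nn.χ2
  have hηχ : η₀ ≤ χ := (le_mul_of_one_le_left hη.le hC).trans Nn.χ2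
  have ho0' : 0 ≤ o 2 := (W.wg.wb.ho 2 (by omega)).1
  have ho01 : o 2 ≤ o 0 := by linarith [Nn.o01]
  have ho12 := Nn.o12
  have f0 := Pool.V1E.flo (mul_nonneg ho0' hJ0)
  have f1 := Pool.V1E.flo (mul_nonneg (ho0'.trans ho01) hJ0)
  have f2 := Pool.V1E.flo (mul_nonneg ((ho0'.trans ho01).trans ho12.le) hJ0)
  have l01 : ⌊o 2 * J⌋₊ ≤ ⌊o 0 * J⌋₊ := Nat.floor_le_floor (mulJ ho01)
  have l12 : ⌊o 0 * J⌋₊ ≤ ⌊o 3 * J⌋₊ := Nat.floor_le_floor (mulJ ho12.le)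
  have fm := Pool.V1E.flo (mul_nonneg Nn.mb0 hJ0)
  have fk := Pool.V1E.flo (mul_nonneg Nn.kk0 hJ0)
  have fs : ∀ l ≤ r + 1, ((⌊lv 0 l * J⌋₊ : ℕ) : ℝ) ≤ lv 0 l * J ∧ lv 0 l * J - 1 ≤ ⌊lv 0 l * J⌋₊ :=
    fun l hl => Pool.V1E.flo (mul_nonneg (Nn.l0 l hl) hJ0)
  have fg := fun l (hl : l ≤ r + 1) => W.wg.wb.sds 0 (by omega) l hl
  have hkη : 0 ≤ kf + η₀ := by linarith [Nn.kf0]
  have fκ := Pool.V1E.flo (mul_nonneg hkη hJ0)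
  have fχ := Pool.V1E.flo (mul_nonneg hχ0 hJ0)
  obtain ⟨x, hx⟩ : ∃ x : ℕ, x = 2 * ⌊χ * J⌋₊ + 8 := ⟨_, rfl⟩
  have hfrd : Pool.V1E.FrD F c r ((Dw + 1) * (Dw + 1)) ⌊mb * J⌋₊ (⌊o 0 * J⌋₊ - ⌊o 2 * J⌋₊)
      (⌊o 3 * J⌋₊ - ⌊o 0 * J⌋₊) x (Pool.V1E.sN (lv 0) J r) (qf J) (fun k => ⌊o (Pool.V1E.fr4 k) * J⌋₊) (g₀ 2) (g₀ 3) B
      (G 2) (G 3) (H 2) := Wd.toNvP.frd (by nlinarith) (by rw [hx]; omega)
  have hlab' : Pool.VLF71.LabW F c r Dw ⌊o 0 * J⌋₊ x (g₀ 0) B (G 2) (G 0) (H 0) :=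
    W.labw Nn.o01 hη.le Nn.ζ1 Nn.χ1 Nn.χ2 (by rw [hx])
  have hlab : Pool.VLF71.LabW F c r ((Dw + 1) * (Dw + 1)) ⌊o 0 * J⌋₊ x (g₀ 0) B (G 2) (G 0) (H 0) :=
    { hlab' with
      dF := fun y l => (hlab'.dF y l).trans (by nlinarith)
      dG := fun y l => (hlab'.dG y l).trans (by nlinarith)
      dH := fun y l => (hlab'.dH y l).trans (by nlinarith) }
  -- the size of the loss
  have hxX : (x : ℝ) + 1 ≤ 8 * χ * J + 24 := by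
    rw [hx]
    push_cast
    have h9 : 0 ≤ χ * J := mul_nonneg hχ0 hJ0
    linarith
  have hxη : η₀ * J + 6 ≤ x := by
    have h5 := mulJ hηχ
    have h6 : 0 ≤ χ * J := mul_nonneg hχ0 hJ0
    rw [hx]
    push_cast
    linarith
  obtain ⟨κ₁, hκ₁⟩ : ∃ κ₁ : ℕ, κ₁ = ⌊(kf + η₀) * J⌋₊ + 1 := ⟨_, rfl⟩
  have hκr : (kf + η₀) * J ≤ κ₁ ∧ (κ₁ : ℝ) ≤ (kf + η₀) * J + 1 := by
    rw [hκ₁]
    push_cast
    exact ⟨by linarith [fκ.2], by linarith [fκ.1]⟩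
  obtain ⟨Q, hQ⟩ : ∃ Q : ℕ, Q = ⌊o 3 * J⌋₊ - ⌊o 0 * J⌋₊ := ⟨_, rfl⟩
  obtain ⟨q₀, hq₀⟩ : ∃ q₀ : ℕ, q₀ = ⌊o 0 * J⌋₊ - ⌊o 2 * J⌋₊ := ⟨_, rfl⟩
  obtain ⟨MB, hMB⟩ : ∃ MB : ℕ, MB = ⌊mb * J⌋₊ := ⟨_, rfl⟩
  obtain ⟨k, hk⟩ : ∃ k : ℕ, k = ⌊kk * J⌋₊ := ⟨_, rfl⟩
  obtain ⟨s, hs⟩ : ∃ s : ℕ → ℕ, s = Pool.V1E.sN (lv 0) J r := ⟨_, rfl⟩
  have hsl : ∀ l < r, lv 0 l * J - 1 ≤ s l := fun l hl => by
    rw [hs, Pool.V1E.sN_lt hl]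
    exact (fs l (by omega)).2
  have hsr : (s r : ℝ) ≤ lv 0 (r + 1) * J := by
    rw [hs, Pool.V1E.sN_r]
    exact (fs (r + 1) le_rfl).1
  have hQr : (Q : ℝ) = ⌊o 3 * J⌋₊ - ⌊o 0 * J⌋₊ := by rw [hQ, Nat.cast_sub l12]
  have hQl : (o 3 - o 0) * J - 1 ≤ Q := by rw [hQr]; linarith [f1.2, f2.2, f1.1, f2.1]
  have hQu : (Q : ℝ) ≤ (o 3 - o 0) * J + 1 := by rw [hQr]; linarith [f1.2, f2.2, f1.1, f2.1]
  have hqr : (q₀ : ℝ) = ⌊o 0 * J⌋₊ - ⌊o 2 * J⌋₊ := by rw [hq₀, Nat.cast_sub l01]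
  have hql' : (o 0 - o 2) * J - 1 ≤ q₀ := by rw [hqr]; linarith [f1.2, f0.2, f1.1, f0.1]
  have hkr : kk * J - 1 ≤ k := by rw [hk]; exact fk.2
  have hmr : (MB : ℝ) ≤ mb * J := by rw [hMB]; exact fm.1
  have hQM : Q ≤ MB := by
    have := Wd.QM
    rw [hQ, hMB]
    exact this
  -- the jets of the frame
  obtain ⟨σ, hσ⟩ : ∃ σ : ℕ → ℕ → ℝ, σ = fun i j =>
    (2 : ℝ) ^ ((lv 0 i + kf - (j : ℕ) * o 0) * J) := ⟨_, rfl⟩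
  have hσ0 : ∀ i j, 0 < σ i j := fun i j => by
    rw [hσ]
    exact Real.rpow_pos_of_pos (by norm_num) _
  have rp : ∀ {y : ℝ} {n : ℕ}, y ≤ n → (2 : ℝ) ^ y ≤ 2 ^ n := fun {y n} h => by
    rw [← Real.rpow_natCast]
    exact Real.rpow_le_rpow_of_exponent_le (by norm_num) h
  have rp' : ∀ {y : ℝ} {n : ℕ}, (n : ℝ) ≤ y → (2 : ℝ) ^ n ≤ 2 ^ y := fun {y n} h => by
    rw [← Real.rpow_natCast]
    exact Real.rpow_le_rpow_of_exponent_le (by norm_num) h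
  have rpm : ∀ {y : ℝ} {n : ℕ}, (2 : ℝ) ^ y * 2 ^ n = 2 ^ (y + n) := fun {y n} => by
    rw [Real.rpow_add (by norm_num), Real.rpow_natCast]
  have rpm' : ∀ {y : ℝ} {n : ℕ}, (2 : ℝ) ^ n * 2 ^ y = 2 ^ (y + n) := fun {y n} => by
    rw [Real.rpow_add (by norm_num), Real.rpow_natCast, mul_comm]
  have c1 : ∀ i < r, σ i 0 ≤ 2 ^ (g₀ 0 i + κ₁) := fun i hi => by
    rw [hσ]
    refine rp ?_
    push_cast
    have h1 := (fg i (by omega)).1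
    linarith [hκr.1]
  have c2 : ∀ i < r, σ i 1 * 2 ^ ⌊o 0 * J⌋₊ ≤ 2 ^ (g₀ 0 i + κ₁) := fun i hi => by
    rw [hσ, rpm]
    refine rp ?_
    push_cast
    have h1 := (fg i (by omega)).1
    linarith [hκr.1, f1.1]
  have c3 : ∀ i < r, 2 ^ (g₀ 0 i + κ₁) ≤ 2 ^ x * σ i 0 := fun i hi => by
    rw [hσ, rpm']
    refine rp' ?_
    push_cast
    have h1 := (fg i (by omega)).2
    linarith [hκr.2]
  have c4 : ∀ i < r, 2 ^ (g₀ 0 i + κ₁) ≤ 2 ^ x * (σ i 1 * 2 ^ ⌊o 0 * J⌋₊) := fun i hi => by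
    rw [hσ, rpm, rpm']
    refine rp' ?_
    push_cast
    have h1 := (fg i (by omega)).2
    linarith [hκr.2, f1.2]
  -- the size of the jets
  have hbal0 := (W.wg.wb.ev 0 (by omega)).ball
  have hcls0 := (W.wg.wb.ev 0 (by omega)).cls
  have hjets : ∀ ω, B ω → ∀ i < r + 2, ∀ j ≤ 1, |Pool.LA91.ojet F (c i) j (G 0 (Pool.PB.ptr F J ω) i) ω| ≤ 2 ^ J := by
    intro ω hω i hi j hj
    obtain rfl | rfl : j = 0 ∨ j = 1 := by omega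
    · rw [Pool.VLF71.ojet_hy F (c i) 0]
      unfold Pool.VLF71.hy
      rw [pow_zero, one_mul, div_one]
      refine (hbal0.pos ω hω i hi).trans ?_
      refine (div_le_one (by positivity)).2 (one_le_pow₀ (by norm_num)) |>.trans
        (one_le_pow₀ (by norm_num))
    · rw [Pool.VLF71.ojet_vy F (c i) 0 0]
      unfold Pool.VLF71.vy
      simp only [pow_zero, one_mul, div_one]
      refine (W.wg.vel 0 (by omega) ω ω hω hω rfl i (by omega)).trans ?_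
      refine (div_le_self (by positivity) (one_le_pow₀ (by norm_num))).trans ?_
      rw [← pow_add]
      refine pow_le_pow_right₀ (by norm_num) ?_
      have h1 := (Pool.V1E.flo (mul_nonneg (by linarith : (0 : ℝ) ≤ C) (mul_nonneg hη.le hJ0))).1
      have h2 : ((⌊C * (η₀ * J)⌋₊ + 1 + ⌊o 0 * J⌋₊ : ℕ) : ℝ) ≤ J := by
        push_cast
        linarith [f1.1]
      exact_mod_cast h2
  have hjetF : ∀ i < r, ∀ j ≤ 1, ∀ N : ℝ, |N| + 3 ≤ K →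
      (Pool.LA91.qJet m ((range i).image c) (c i) j (o 0) (pf i) N).P K e J F B
        (fun ω => ⌊(2 : ℝ) ^ (N * J) * Pool.LA91.ojet F (c i) j (G 0 (Pool.PB.ptr F J ω) i) ω⌋) := by
    intro i hi j hj N hN
    have h1 := Pool.W.LA91.pi_jet (F := F) (A := B) (c := c) (d := r + 2) (wb := ⌊o 0 * J⌋₊) (gx := g₀ 0)
      (G₀ := G 0) (H₀ := H 0) (b := o 0) (e₀ := e)
      (sn := fun i => if i < r then pf i else lv 0 i - η₀ + e)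
      (K := K) (j := j)
      (N := fun _ => N) hbal0 (fun ω hω l hl => hcls0 ω hω l (by omega)) hJ1 rfl
      (fun i hi => (mulJ (by
        by_cases h : i < r
        · simp only [if_pos h]
          exact Nn.pf0 i h
        · simp only [if_neg h]
          linarith)).trans (fg i (by omega)).1)
      (fun ω hω i hi => hjets ω hω i hi j hj) hKD (fun _ => hN)
    have h2 := h1 ⟨i, by omega⟩
    simp only [if_pos hi] at h2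
    exact h2
  -- the first jet is few
  obtain ⟨VΨ, CΨ, zp, z', G₁, G₂, cc, hΨ, hCp⟩ := hΞ J F B g₀ G H Ht CL Cp hXi
  obtain ⟨V₁, z₁, hz₁, hfew'⟩ := hFB VΨ CΨ zp z' G₁ G₂ cc hΨ (Pool.VLF71.uV F c r (G 0) σ) (by
      refine ⟨fun i _ hi j hj => ?_, fun ω hω i j h => ?_⟩
      · have h1 := hjetF i hi j hj (lv 0 i + kf - (j : ℕ) * o 0) (hKN i hi.le j hj)
        have e1 : (fun ω => Pool.VLF71.uV F c r (G 0) σ ω i j) = fun ω =>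
            ⌊(2 : ℝ) ^ ((lv 0 i + kf - (j : ℕ) * o 0) * J) *
              Pool.LA91.ojet F (c i) j (G 0 (Pool.PB.ptr F J ω) i) ω⌋ := by
          funext ω
          unfold Pool.VLF71.uV
          rw [if_pos ⟨hi, hj⟩, hσ]
        rw [e1]
        exact h1
      · unfold Pool.VLF71.uV
        rw [if_neg fun h2 => h ⟨Nat.zero_le _, h2.1, h2.2⟩])
  have hfew : Pool.Agent.H49.Ent.CH (Pool.Agent.H49.Ent.cond F.p B True) (fun ω => ⌊(2 : ℝ) ^ (N₁ * J) *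
      Pool.LA91.ojet F (c (r + 1)) 1 (Cp (Pool.PB.ptr F J ω)) ω⌋) (fun ω => (Pool.VLF71.uV F c r (G 0) σ ω, (z₁ ω, F.T ω))) ≤
      d * J := by
    refine le_trans (Pool.Agent.H32.Dense.CH_mono_left h0 fun ω ω' hω hω' hh => ?_) hfew'
    show ⌊(2 : ℝ) ^ (N₁ * J) * Pool.LA91.ojet F (c (r + 1)) 1 (Cp (Pool.PB.ptr F J ω)) ω⌋ =
      ⌊(2 : ℝ) ^ (N₁ * J) * Pool.LA91.ojet F (c (r + 1)) 1 (Cp (Pool.PB.ptr F J ω')) ω'⌋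
    rw [hCp ω (hqB ω hω), hCp ω' (hqB ω' hω')]
    exact (Prod.ext_iff.mp hh).1
  -- the labels are few
  have hWP : ∀ ω, B ω → Pool.V1E.nW c r (G 0 (Pool.PB.ptr F J ω)) (Cp (Pool.PB.ptr F J ω)) =
      Pool.V1E.nW c r (H 0 (Pool.KSAT.slam F ⌊o 0 * J⌋₊ ω)) (CL (Pool.KSAT.slam F ⌊o 0 * J⌋₊ ω)) := fun ω hω => by
    have h1 := hcls0 ω hω r (by omega)
    have h2 := hcls0 ω hω (r + 1) (by omega)
    have h3 : Cp (Pool.PB.ptr F J ω) = CL (Pool.KSAT.slam F ⌊o 0 * J⌋₊ ω) := Wd.clC ω hω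
    unfold Pool.V1E.nW Pool.V1E.nfw
    rw [h1, h2, h3]
  have hlabs : Pool.Agent.H49.Ent.CH (Pool.Agent.H49.Ent.cond F.p B True) (fun ω => (z₁ ω, ((fun i : Fin r =>
      G 0 (Pool.PB.ptr F J ω) i), (fun y => Pool.V1E.nW c r (G 0 y) (Cp y) : Pool.GEN.PtT F →
        MvPolynomial (Option (Fin m)) ℝ) (Pool.PB.ptr F J ω))))
      (fun ω => (v ω, F.T ω)) ≤ k₂ * J := by
    have hG : Pool.RCD.Cl2 (Pool.PB.ptr F J) (Pool.RCD.vg (o 0) J F) B (fun ω => fun i : Fin r => G 0 (Pool.PB.ptr F J ω) i) := by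
      refine ⟨⟨fun y i => G 0 y i, fun ω _ => rfl⟩, ⟨fun L i => H 0 L i, fun ω hω => ?_⟩⟩
      funext i
      exact hcls0 ω hω i (by omega)
    have hz : Pool.RCD.Cl2 (Pool.PB.ptr F J) (Pool.RCD.vg (o 0) J F) B (fun ω : F.Ω =>
        Pool.V1E.nW c r (G 0 (Pool.PB.ptr F J ω)) (Cp (Pool.PB.ptr F J ω))) :=
      ⟨⟨fun y => Pool.V1E.nW c r (G 0 y) (Cp y), fun _ _ => rfl⟩,
        ⟨fun L => Pool.V1E.nW c r (H 0 L) (CL L), fun ω hω => hWP ω hω⟩⟩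
    refine le_trans (Pool.Agent.H32.Dense.CH_mono_cond h0 fun ω ω' _ _ hh => ?_) (hv.2 _ _ (hz₁.join (hG.join hz)))
    exact (Prod.ext_iff.mp hh).1
  have m1 := Nn.m10
  have fM := Pool.V1E.flo (mul_nonneg m1 hJ0)
  have hrw := hvf (F := F) (c := c) (MB := MB) (q₀ := q₀) (Q := Q) (x := x) (s := s) (qe := qf J)
    (o := fun k => ⌊o (Pool.V1E.fr4 k) * J⌋₊) (gf := g₀ 2) (g2 := g₀ 3) (g := g₀ 0) (B := B) (Gf := G 2)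
    (G2 := G 3) (G₁ := G 0) (Hf := H 2) (H₁ := H 0) (by rw [hMB, hQ, hq₀, hs]; exact hfrd) hlab
    (fun l hl => by
      have h1 := (fg l (by omega)).2
      have h2 := hsl l hl
      have h3 : (g₀ 0 l : ℝ) ≤ ((s l + x : ℕ) : ℝ) := by
        push_cast
        have h4 : 0 ≤ η₀ * J := mul_nonneg hη.le hJ0
        linarith
      exact_mod_cast h3) v vL (fun y => Pool.V1E.nW c r (G 0 y) (Cp y)) (fun L => Pool.V1E.nW c r (H 0 L) (CL L)) k κ₁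
    (by
      have h1 : (κ₁ : ℝ) ≤ ((Q + k : ℕ) : ℝ) := by
        push_cast
        linarith [hκr.2]
      exact_mod_cast h1)
    (by
      have h1 : (κ₁ : ℝ) ≤ q₀ := by linarith [hκr.2]
      exact_mod_cast h1)
    (fun i => by
      have h1 := j4 i i.2
      rw [dif_pos i.2] at h1
      have h2 := Nn.qf1 J i
      have h3 : (κ₁ : ℝ) ≤ qf J i := by
        have h4 : (⟨(i : ℕ), i.2⟩ : Fin r) = i := rfl
        rw [h4] at h1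
        linarith [hκr.2]
      exact_mod_cast h3)
    σ (fun i j => (hσ0 i j).le) c1 c2 c3 c4 (M₁ := ⌊m₁ * J⌋₊) (kt := c (r + 1))
    (Gv := fun ω => Cp (Pool.PB.ptr F J ω))
    (np := Pool.V1E.nwp F c r ⌊o 0 * J⌋₊ CL)
    (A0 := fun y => Pool.V1E.nW c r (G 0 y) (Cp y)) (R0 := fun L => Pool.V1E.nW c r (H 0 L) (CL L))
    (fun ω hω => by
      have h1 := Pool.VLF71.der_cw (F := F) (w := ⌊o 0 * J⌋₊) hlab.wJ ω (c (r + 1))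
        (CL (Pool.KSAT.slam F ⌊o 0 * J⌋₊ ω))
      have h2 : Cp (Pool.PB.ptr F J ω) = CL (Pool.KSAT.slam F ⌊o 0 * J⌋₊ ω) := Wd.clC ω hω
      show (Polynomial.derivative (Pool.GEN.lc ⌊o 0 * J⌋₊ (Pool.KSAT.slam F ⌊o 0 * J⌋₊ ω) (some (c (r + 1))) -
        MvPolynomial.aeval (Pool.GEN.lc ⌊o 0 * J⌋₊ (Pool.KSAT.slam F ⌊o 0 * J⌋₊ ω))
          (CL (Pool.KSAT.slam F ⌊o 0 * J⌋₊ ω)))).eval (Pool.PB.Trl.rt F ⌊o 0 * J⌋₊ ω) =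
        1 / 2 ^ ⌊o 0 * J⌋₊ * Pool.LA91.ojet F (c (r + 1)) 1 (Cp (Pool.PB.ptr F J ω)) ω
      rw [h1, h2])
    (fun y => Pool.V1E.deg_nW (fun l => Wd.dG 1 y l) (Wd.dCp y))
    (fun y => Pool.V1E.dep_nW (Wd.toNvP.hc1) (fun l => Wd.pG 1 y l) (Wd.pCp y))
    hWP
    (fun ω hω => by
      obtain ⟨κ₀, hκ₀⟩ := hbx ω hω
      refine ⟨κ₀, fun b' hb' => (hκ₀ b' hb').trans ?_⟩
      rw [le_div_iff₀ (by positivity), rpm]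
      refine (Real.rpow_le_rpow_of_exponent_le (by norm_num) (by linarith [fM.1] :
        -(m₁ * J) + (⌊m₁ * J⌋₊ : ℝ) ≤ 0)).trans ?_
      rw [Real.rpow_zero]
      exact one_le_pow₀ (by norm_num))
    (σ₀ := (2 : ℝ) ^ (N₁ * J)) (Real.rpow_pos_of_pos (by norm_num) _)
    (by
      show (2 : ℝ) ^ (s r + (MB - Q)) ≤ 2 ^ x * 2 ^ (N₁ * J) * 2 ^ ⌊o 0 * J⌋₊
      rw [rpm', rpm]
      refine rp' ?_
      rw [Nat.cast_add, Nat.cast_sub hQM]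
      have h1 := mulJ Nn.N1
      have h2 : 0 ≤ η₀ * J := mul_nonneg hη.le hJ0
      linarith [hsr, f1.2])
    (by
      have h1 := mulJ Nn.m1
      have h2 : ((s r + (MB - Q) : ℕ) : ℝ) ≤ ((⌊m₁ * J⌋₊ + κ₁ + x : ℕ) : ℝ) := by
        rw [Nat.cast_add, Nat.cast_sub hQM]
        push_cast
        have h3 : 0 ≤ η₀ * J := mul_nonneg hη.le hJ0
        linarith [hsr, fM.2, hκr.1]
      exact_mod_cast h2) _ hql hqB z₁ (δ := δ) (δ₁ := d * J) (δ₂ := k₂ * J) hfew hlabs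
    (by
      have h1 := mul_le_mul_of_nonneg_left hxX hC₁
      have h2 := mul_le_mul_of_nonneg_left hQl Nn.δ0.le
      have h3 : 0 ≤ χ * J := mul_nonneg hχ0 hJ0
      have h4 : 0 ≤ C₁ * (χ * J) := mul_nonneg hC₁ h3
      rw [hkc] at j1
      have e1 : (d + (16 * (C₁ : ℝ) + 16) * χ + k₂) * J = d * J + k₂ * J +
        16 * (C₁ * (χ * J)) + 16 * (χ * J) := by ring
      rw [e1] at j1
      have e2 : (C₁ : ℝ) * (8 * χ * J + 24) = 8 * (C₁ * (χ * J)) + 24 * C₁ := by ring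
      rw [e2] at h1
      linarith)
  rw [hQ, hMB, hk, hq₀, hs] at hrw
  exact hrw

/-- **`VfNU` from a part of each event with the windows.** -/
theorem VfNU.of_xi {S : Pool.PB.PCl m} {c : ℕ → Fin m} {r D Dw Dr N N₂ : ℕ} {R : ℕ → Prop}
    {C a Eb ε₀ η₀ χ mb kk : ℝ} {Pt : ℝ → ℝ → ℝ} {o : ℕ → ℝ} {lv be : ℕ → ℕ → ℝ} {κ : ℝ}
    {qf : ℕ → Fin r → ℕ} {δ K K₂ : ℝ} {Ξ Ξ' : Pool.V1E.XiN m} (hK : 0 < K) (hκ : 0 ≤ κ)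
    (hpart : Pool.S6C.Bas S (fun J F B => ∀ (b : ℕ → ℕ → ℝ) (z : ℕ → ℕ → ℕ) (gc gT g₀ : ℕ → ℕ → ℕ)
      (G : ℕ → Pool.GEN.PtT F → ℕ → MvPolynomial (Option (Fin m)) ℝ)
      (H : ℕ → Pool.GEN.LnT F → ℕ → MvPolynomial (Option (Fin m)) ℝ)
      (T : ℕ → Pool.GEN.PtT F → ℕ → MvPolynomial (Option (Fin m)) ℝ)
      (TH : ℕ → Pool.GEN.LnT F → ℕ → MvPolynomial (Option (Fin m)) ℝ)
      (Gt : ℕ → Pool.GEN.PtT F → MvPolynomial (Option (Fin m)) ℝ)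
      (Ht : ℕ → Pool.GEN.LnT F → MvPolynomial (Option (Fin m)) ℝ)
      (CL : Pool.GEN.LnT F → MvPolynomial (Option (Fin m)) ℝ)
      (Cp : Pool.GEN.PtT F → MvPolynomial (Option (Fin m)) ℝ),
      Pool.W.V1E.WNU c r D Dw Dr N N₂ R C a Eb ε₀ η₀ χ mb Pt o lv be F b κ z (qf J) B gc gT g₀ G H T TH Gt Ht
        CL Cp → Ξ J F B g₀ G H Ht CL Cp →
      ∃ B₂ : F.Ω → Prop, Pool.K2S.Sub B₂ B ∧ Pool.K2S.Pe F.p B ≤ K * Pool.K2S.Pe F.p B₂ ∧ Ξ' J F B₂ g₀ G H Ht CL Cp))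
    (h : Pool.W.V1E.VfNU S c r D Dw Dr N N₂ R C a Eb ε₀ η₀ χ mb kk Pt o lv be (κ * K) qf δ K₂ Ξ') :
    Pool.W.V1E.VfNU S c r D Dw Dr N N₂ R C a Eb ε₀ η₀ χ mb kk Pt o lv be κ qf δ (K * K₂) Ξ := by
  obtain ⟨k₂, hk₂, h⟩ := h
  refine ⟨k₂, hk₂, Pool.S6C.Bas.mono 0 (hpart.and (Pool.GRW.bas_part h hK)) ?_⟩
  rintro J - F B ⟨h0, h1⟩ b z gc gT g₀ G H T TH Gt Ht CL Cp W hX
  obtain ⟨B', hB', hPB', hX'⟩ := h0 b z gc gT g₀ G H T TH Gt Ht CL Cp W hX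
  have hP' : 1 / K * Pool.K2S.Pe F.p B ≤ Pool.K2S.Pe F.p B' := by
    rw [one_div_mul_eq_div, div_le_iff₀ hK, mul_comm]
    exact hPB'
  obtain ⟨B₂, hB₂, hPB₂, h2⟩ := h1 B' hB' hPB' b z gc gT g₀ G H T TH Gt Ht CL Cp
    (W.res hB' hP' (by positivity) (by rw [mul_one_div, mul_div_cancel_right₀ _ hK.ne'])) hX'
  refine ⟨B₂, fun ω hω => hB' ω (hB₂ ω hω), ?_, h2⟩
  rw [mul_assoc]
  exact hPB'.trans (mul_le_mul_of_nonneg_left hPB₂ hK.le)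

/-- **The chart of `N - P` with `u` on its chart is small on the box of the frame**, on a part. -/
theorem bxU_part {S : Pool.PB.PCl m} (hpos : ∀ (τ : ℝ) (J : ℕ) (F : Pool.KA.Fam m J) (A : F.Ω → Prop),
      S.St τ J F A → 0 < Pool.K2S.Pe F.p A) {c : ℕ → Fin m} {r D Dw Dr N N₂ : ℕ} {R : ℕ → Prop}
    {C a Eb ε₀ η₀ χ mb : ℝ} {Pt : ℝ → ℝ → ℝ} {o : ℕ → ℝ} {lv be : ℕ → ℕ → ℝ} {κ : ℝ}
    (hκ : κ ≤ 1) {qf : ℕ → Fin r → ℕ} {Kd : ℕ} {w pN m₁ : ℝ} (hw : w ≤ o 0) (ho1 : o 0 ≤ 1)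
    (hη : 0 ≤ η₀) (hχ : 0 ≤ χ) (hDr : (max D Kd + 1) * (max D Kd + 1) ≤ Dr) (hpN0 : 0 ≤ pN)
    (h1 : m₁ + η₀ < pN) (h2 : m₁ + 2 * η₀ + χ < lv 0 (r + 1)) (hl0 : 0 ≤ lv 0 r) {Ξ : Pool.V1E.XiN m}
    (hΞ : ∀ (J : ℕ) (F : Pool.KA.Fam m J) (B : F.Ω → Prop) (g₀ : ℕ → ℕ → ℕ)
      (G : ℕ → Pool.GEN.PtT F → ℕ → MvPolynomial (Option (Fin m)) ℝ)
      (H : ℕ → Pool.GEN.LnT F → ℕ → MvPolynomial (Option (Fin m)) ℝ)
      (Ht : ℕ → Pool.GEN.LnT F → MvPolynomial (Option (Fin m)) ℝ)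
      (CL : Pool.GEN.LnT F → MvPolynomial (Option (Fin m)) ℝ)
      (Cp : Pool.GEN.PtT F → MvPolynomial (Option (Fin m)) ℝ), Ξ J F B g₀ G H Ht CL Cp →
      ∃ (V : Type) (z : Pool.GEN.PtT F → V) (z' : Pool.GEN.LnT F → V) (Gp : V → MvPolynomial (Option (Fin m)) ℝ),
        (∀ y, (Gp y).totalDegree ≤ Kd) ∧ (∀ y, Pool.ALT.DpI ((range (r + 1)).image c) (Gp y)) ∧
        (∀ ω, B ω → z (Pool.PB.ptr F J ω) = z' (Pool.KSAT.slam F ⌊w * J⌋₊ ω)) ∧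
        (∀ ω, B ω → |Pool.LA91.ojet F (c (r + 1)) 0 (Gp (z' (Pool.KSAT.slam F ⌊w * J⌋₊ ω))) ω| ≤ 1 / 2 ^ ⌊pN * J⌋₊) ∧
        ∀ ω, B ω → Cp (Pool.PB.ptr F J ω) = Gp (z' (Pool.KSAT.slam F ⌊w * J⌋₊ ω))) :
    Pool.S6C.Bas S (fun J F B => ∀ (b : ℕ → ℕ → ℝ) (z : ℕ → ℕ → ℕ) (gc gT g₀ : ℕ → ℕ → ℕ)
      (G : ℕ → Pool.GEN.PtT F → ℕ → MvPolynomial (Option (Fin m)) ℝ)
      (H : ℕ → Pool.GEN.LnT F → ℕ → MvPolynomial (Option (Fin m)) ℝ)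
      (T : ℕ → Pool.GEN.PtT F → ℕ → MvPolynomial (Option (Fin m)) ℝ)
      (TH : ℕ → Pool.GEN.LnT F → ℕ → MvPolynomial (Option (Fin m)) ℝ)
      (Gt : ℕ → Pool.GEN.PtT F → MvPolynomial (Option (Fin m)) ℝ)
      (Ht : ℕ → Pool.GEN.LnT F → MvPolynomial (Option (Fin m)) ℝ)
      (CL : Pool.GEN.LnT F → MvPolynomial (Option (Fin m)) ℝ)
      (Cp : Pool.GEN.PtT F → MvPolynomial (Option (Fin m)) ℝ),
      Pool.W.V1E.WNU c r D Dw Dr N N₂ R C a Eb ε₀ η₀ χ mb Pt o lv be F b κ z (qf J) B gc gT g₀ G H T TH Gt Ht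
        CL Cp → Ξ J F B g₀ G H Ht CL Cp →
      ∃ B₂ : F.Ω → Prop, Pool.K2S.Sub B₂ B ∧ Pool.K2S.Pe F.p B ≤ 2 * Pool.K2S.Pe F.p B₂ ∧
        ∀ ω, B₂ ω → ∀ b', Pool.GEN.NBx c (G 0 (Pool.PB.ptr F J ω)) (g₀ 0) ⌊o 0 * J⌋₊ (F.t ω) r b' →
          |eval b' (Pool.V1E.nW c r (G 0 (Pool.PB.ptr F J ω)) (Cp (Pool.PB.ptr F J ω)))| ≤ (2 : ℝ) ^ (-(m₁ * J))) := by
  classical
  obtain ⟨γ, hγ⟩ : ∃ γ : ℝ, γ = min (pN - (m₁ + η₀)) (lv 0 (r + 1) - (m₁ + 2 * η₀ + χ)) := ⟨_, rfl⟩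
  have hγ0 : 0 < γ := by
    rw [hγ]
    exact lt_min (by linarith) (by linarith)
  have hγ1 : γ ≤ pN - (m₁ + η₀) := by rw [hγ]; exact min_le_left _ _
  have hγ2 : γ ≤ lv 0 (r + 1) - (m₁ + 2 * η₀ + χ) := by rw [hγ]; exact min_le_right _ _
  obtain ⟨J₁, hJ₁⟩ := exists_nat_ge (6 / γ)
  refine Pool.S6C.Bas.mono J₁ (Pool.LA91.pos_bas hpos) ?_
  rintro J hJ F B hB b z gc gT g₀ G H T TH Gt Ht CL Cp W hX
  have hJ0 : (0 : ℝ) ≤ J := Nat.cast_nonneg J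
  have mulJ : ∀ {x y : ℝ}, x ≤ y → x * J ≤ y * J := fun h => mul_le_mul_of_nonneg_right h hJ0
  have f1 : 6 ≤ γ * J := by
    have e1 : (J₁ : ℝ) ≤ J := by exact_mod_cast hJ
    have e2 := hJ₁.trans e1
    rw [div_le_iff₀ hγ0] at e2
    linarith
  obtain ⟨V, zp, z', Gp, a1, a2, a3, a4, a5⟩ := hΞ J F B g₀ G H Ht CL Cp hX
  obtain ⟨w1, w2⟩ := Pool.ALT.floorw hw ho1 J
  have hev := W.wg.wb.ev 0 (by omega)
  have hch := hev.ball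
  have hcl := hev.cls
  have hrl := hev.relb
  have hnw := W.nw
  have hc1 : Set.InjOn c (Set.Iio (r + 1)) := hnw.toNvP.hc1
  have fg := fun l (hl : l ≤ r + 1) => W.wg.wb.sds 0 (by omega) l hl
  -- the numbers
  obtain ⟨Mb, hMb⟩ : ∃ Mb : ℝ, Mb = 2 ^ (-((m₁ + η₀) * J)) := ⟨_, rfl⟩
  have hMb0 : 0 < Mb := by
    rw [hMb]
    exact Real.rpow_pos_of_pos (by norm_num) _
  have p2 : ∀ {x : ℝ} {n : ℕ}, x ≤ n → (1 : ℝ) / 2 ^ n ≤ 2 ^ (-x) := fun {x n} h => by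
    rw [one_div, ← Real.rpow_natCast, ← Real.rpow_neg (by norm_num)]
    exact Real.rpow_le_rpow_of_exponent_le (by norm_num) (by linarith)
  have q4 : ∀ {x : ℝ}, (m₁ + η₀) * J + 2 ≤ x → (2 : ℝ) ^ (-x) ≤ Mb / 4 := fun {x} h => by
    have e1 : (4 : ℝ) = 2 ^ (2 : ℝ) := by norm_num
    rw [hMb, e1, ← Real.rpow_sub (by norm_num)]
    exact Real.rpow_le_rpow_of_exponent_le (by norm_num) (by linarith)
  have e1 : (1 : ℝ) / 2 ^ ⌊pN * J⌋₊ ≤ Mb / 4 := by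
    have h3 := Nat.lt_floor_add_one (pN * J)
    have h4 := mulJ hγ1
    refine (p2 (x := (m₁ + η₀) * J + 2) ?_).trans (q4 le_rfl)
    linarith
  have e2 : (1 : ℝ) / 2 ^ g₀ 0 (r + 1) ≤ Mb / 4 := by
    have h3 := (fg (r + 1) le_rfl).1
    have h4 := mulJ hγ2
    have h5 : 0 ≤ χ * J := mul_nonneg hχ hJ0
    have h6 : 0 ≤ η₀ * J := mul_nonneg hη hJ0
    refine (p2 (x := (m₁ + η₀) * J + 2) ?_).trans (q4 le_rfl)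
    linarith
  have e3 : (2 : ℝ) ^ (⌊lv 0 r * J⌋₊ + ⌊χ * J⌋₊) / 2 ^ (Pool.V1E.sN (lv 0) J r r) * (1 / 2 ^ g₀ 0 r) ≤
      Mb / 4 := by
    have h3 := (fg r (by omega)).1
    have h4 := mulJ hγ2
    have h7 := Nat.floor_le (mul_nonneg hl0 hJ0)
    have h8 := Nat.floor_le (mul_nonneg hχ hJ0)
    have h9 := Nat.lt_floor_add_one (lv 0 (r + 1) * J)
    have h6 : 0 ≤ η₀ * J := mul_nonneg hη hJ0
    rw [div_mul_div_comm, mul_one, ← pow_add, Pool.V1E.sN_r]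
    refine le_trans (le_of_eq ?_) (q4 (x := ((⌊lv 0 (r + 1) * J⌋₊ + g₀ 0 r : ℕ) : ℝ) -
      ((⌊lv 0 r * J⌋₊ + ⌊χ * J⌋₊ : ℕ) : ℝ)) ?_)
    · rw [neg_sub, Real.rpow_sub (by norm_num), Real.rpow_natCast, Real.rpow_natCast]
    · push_cast
      linarith
  -- the own points
  have hown : ∀ ω, B ω → |eval (Pool.GEN.bt F ω) (Pool.V1E.nW c r (G 0 (Pool.PB.ptr F J ω)) (Cp (Pool.PB.ptr F J ω)))| ≤ Mb := by
    intro ω hω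
    have hbx : Pool.GEN.NBx c (G 0 (Pool.PB.ptr F J ω)) (g₀ 0) ⌊o 0 * J⌋₊ (F.t ω) r (Pool.GEN.bt F ω) := by
      refine ⟨?_, fun l hl => hch.pos ω hω l (by omega)⟩
      show |F.t ω - F.t ω| ≤ _
      rw [sub_self, abs_zero]
      positivity
    rw [Pool.V1E.eval_nW]
    have k1 := Pool.V1E.mv_up (k := c r) (R := Pool.V1E.nfw r (G 0 (Pool.PB.ptr F J ω)) (Cp (Pool.PB.ptr F J ω))) (b := Pool.GEN.bt F ω)
      (v := eval (Pool.GEN.bt F ω) (G 0 (Pool.PB.ptr F J ω) r)) (v' := F.x ω (c r))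
      (M := 2 ^ (⌊lv 0 r * J⌋₊ + ⌊χ * J⌋₊) / 2 ^ (Pool.V1E.sN (lv 0) J r r)) (fun y hy => by
        rw [Pool.V1E.pd_nfw]
        refine hnw.hC1 ω hω _ (Pool.V1E.box_up hc1 (fun l => hch.depG _ l) hbx (Pool.V1E.uicc_le hy ?_ ?_))
        · rw [sub_self, abs_zero]
          positivity
        · exact hch.pos ω hω r (by omega))
    have k2 : eval (Pool.V1E.up (c r) (Pool.GEN.bt F ω) (F.x ω (c r))) (Pool.V1E.nfw r (G 0 (Pool.PB.ptr F J ω)) (Cp (Pool.PB.ptr F J ω))) =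
        eval (Pool.GEN.bt F ω) (Pool.V1E.nfw r (G 0 (Pool.PB.ptr F J ω)) (Cp (Pool.PB.ptr F J ω))) := by
      rw [Pool.V1E.up_eq (Pool.V1E.bt_some' ω (c r))]
    rw [k2] at k1
    have k9 : eval (Pool.GEN.bt F ω) (Pool.V1E.nfw r (G 0 (Pool.PB.ptr F J ω)) (Cp (Pool.PB.ptr F J ω))) =
        eval (Pool.GEN.bt F ω) (G 0 (Pool.PB.ptr F J ω) (r + 1)) - eval (Pool.GEN.bt F ω) (Cp (Pool.PB.ptr F J ω)) := Pool.V1E.eval_nfw _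
    have k3 : |eval (Pool.GEN.bt F ω) (G 0 (Pool.PB.ptr F J ω) r) - F.x ω (c r)| ≤ 1 / 2 ^ g₀ 0 r := by
      rw [abs_sub_comm]
      exact hch.pos ω hω r (by omega)
    have k4 := hch.pos ω hω (r + 1) (by omega)
    have k5 := a4 ω hω
    have k6 : Pool.LA91.ojet F (c (r + 1)) 0 (Gp (z' (Pool.KSAT.slam F ⌊w * J⌋₊ ω))) ω =
        F.x ω (c (r + 1)) - eval (Pool.GEN.bt F ω) (Cp (Pool.PB.ptr F J ω)) := by
      show Pool.LA91.jet 0 (X (some (c (r + 1))) - Gp (z' (Pool.KSAT.slam F ⌊w * J⌋₊ ω))) (Pool.GEN.bt F ω) (Pool.GEN.bd F ω) = _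
      rw [Pool.OWN68.jet_zero, map_sub, eval_X, ← a5 ω hω]
      rfl
    rw [k6] at k5
    have k7 : (2 : ℝ) ^ (⌊lv 0 r * J⌋₊ + ⌊χ * J⌋₊) / 2 ^ (Pool.V1E.sN (lv 0) J r r) *
        |eval (Pool.GEN.bt F ω) (G 0 (Pool.PB.ptr F J ω) r) - F.x ω (c r)| ≤ Mb / 4 :=
      (mul_le_mul_of_nonneg_left k3 (by positivity)).trans e3
    have k8 := k1.trans k7
    rw [abs_le] at k4 k5 k8 ⊢
    constructor <;> linarith [k4.1, k4.2, k5.1, k5.2, k8.1, k8.2]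
  -- the box
  have hGpC : ∀ v, Pool.GEN.DepC c (r + 1) (Gp v) := fun v b b' h4 h5 => a2 v b b' h4 fun i hi => by
    obtain ⟨l, hl, rfl⟩ := mem_image.1 hi
    exact h5 l (mem_range.1 hl)
  have hdg : ∀ (P : ℕ → MvPolynomial (Option (Fin m)) ℝ) (Q : MvPolynomial (Option (Fin m)) ℝ),
      (∀ l, (P l).totalDegree ≤ D) → Q.totalDegree ≤ Kd → (Pool.V1E.nW c r P Q).totalDegree ≤ Dr :=
    fun P Q h3 h4 => (Pool.V1E.deg_nW (D := max D Kd) (fun l => (h3 l).trans (le_max_left _ _))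
      (h4.trans (le_max_right _ _))).trans hDr
  have hdp : ∀ (P : ℕ → MvPolynomial (Option (Fin m)) ℝ) (Q : MvPolynomial (Option (Fin m)) ℝ),
      (∀ l, Pool.GEN.DepC c l (P l)) → Pool.GEN.DepC c (r + 1) Q → Pool.GEN.DepC c (r + 1) (Pool.V1E.nW c r P Q) :=
    fun P Q h3 h4 => (Pool.V1E.dep_nW hc1 h3 h4).mono (Nat.le_succ r)
  have heq : ∀ ω, B ω → Cp (Pool.PB.ptr F J ω) = Gp (zp (Pool.PB.ptr F J ω)) := fun ω hω => by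
    rw [a5 ω hω, a3 ω hω]
  obtain ⟨B₂, d1, d2, d3⟩ := hrl B (fun ω h => h) (by
      have := Pool.K2S.Pe_nonneg F.isLaw B
      nlinarith)
    (fun y => Pool.V1E.nW c r (G 0 y) (Gp (zp y)))
    (fun s => Pool.V1E.nW c r (H 0 s) (Gp (Pool.ALT.wz z' ⌊w * J⌋₊ ⌊o 0 * J⌋₊ s))) Mb
    (fun y => hdg _ _ (fun l => hch.degG y l) (a1 _))
    (fun s => hdg _ _ (fun l => hch.degH s l) (a1 _))
    (fun y => hdp _ _ (fun l => hch.depG y l) (hGpC _))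
    (fun s => hdp _ _ (fun l => hch.depH s l) (hGpC _)) hMb0
    (fun ω hω => by
      beta_reduce
      rw [← heq ω hω]
      exact hown ω hω)
    (fun ω hω bb _ => by
      beta_reduce
      have g1 : G 0 (Pool.PB.ptr F J ω) (r + 1) = H 0 (Pool.KSAT.slam F ⌊o 0 * J⌋₊ ω) (r + 1) :=
        hcl ω hω (r + 1) (by omega)
      have g2 : G 0 (Pool.PB.ptr F J ω) r = H 0 (Pool.KSAT.slam F ⌊o 0 * J⌋₊ ω) r := hcl ω hω r (by omega)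
      have g3 : Pool.V1E.nW c r (G 0 (Pool.PB.ptr F J ω)) (Gp (zp (Pool.PB.ptr F J ω))) =
          Pool.V1E.nW c r (H 0 (Pool.KSAT.slam F ⌊o 0 * J⌋₊ ω)) (Gp (Pool.ALT.wz z' ⌊w * J⌋₊ ⌊o 0 * J⌋₊
            (Pool.KSAT.slam F ⌊o 0 * J⌋₊ ω))) := by
        rw [Pool.ALT.wz_slam z' w1 w2, a3 ω hω]
        unfold Pool.V1E.nW Pool.V1E.nfw
        rw [g1, g2]
      rw [g3, sub_self, abs_zero]
      exact hMb0.le)
  refine ⟨B₂, d1, by linarith, fun ω hω bb hb => ?_⟩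
  have hup : Pool.GEN.NBx c (G 0 (Pool.PB.ptr F J ω)) (g₀ 0) ⌊o 0 * J⌋₊ (F.t ω) (r + 1)
      (Pool.V1E.up (c r) bb (eval bb (G 0 (Pool.PB.ptr F J ω) r))) := Pool.V1E.box_up hc1 (fun l => hch.depG _ l) hb (by
    rw [sub_self, abs_zero]
    positivity)
  have k1 := d3 ω hω _ hup
  beta_reduce at k1
  have k2 : eval (Pool.V1E.up (c r) bb (eval bb (G 0 (Pool.PB.ptr F J ω) r)))
      (Pool.V1E.nW c r (G 0 (Pool.PB.ptr F J ω)) (Gp (zp (Pool.PB.ptr F J ω)))) =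
      eval bb (Pool.V1E.nW c r (G 0 (Pool.PB.ptr F J ω)) (Gp (zp (Pool.PB.ptr F J ω)))) :=
    (Pool.V1E.dep_nW hc1 (fun l => hch.depG _ l) (hGpC _)) _ _ (Pool.V1E.up_none _ _ _) fun l hl => Pool.V1E.up_ne (fun h3 => by
      have := hc1 (Set.mem_Iio.2 (show l < r + 1 by omega)) (Set.mem_Iio.2 (Nat.lt_succ_self r)) h3
      omega) _ _
  rw [k2, ← heq ω (d1 ω hω)] at k1
  refine k1.trans ?_
  rw [hMb, ← Real.rpow_natCast, ← Real.rpow_add (by norm_num)]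
  refine Real.rpow_le_rpow_of_exponent_le (by norm_num) ?_
  have := Nat.floor_le (mul_nonneg hη hJ0)
  linarith

end Pool.W.V1E
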