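import Pool.Agent.H42.D2.Nqc
import Pool.Agent.H31.W.H42.D2.Nqa
import Pool.Agent.H31.W.H42.D2.Nqb
import Pool.Agent.H31.W.H42.D2.Nqd
import Pool.Agent.H31.W.H60.ALT.Nbf
import Pool.Agent.H31.W.H92.ALT.Jn1
import Pool.Agent.H3.W.Bas
import Pool.Agent.H57.SWC.Lx
import Pool.Agent.H57.SWC.Lxm

/-!
# The velocity over the natural labels of a family of small rate

`vfN_B`: the velocity of `N - P` is dead (`VfNU`) at a window of a record, `P` a natural label of `N`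
of the window `t - y₁ q`, if the places before the last two have slope one. `VbYb`, `vbYb_of`: with the
choice of all numbers, for any `y₁` from the slope of `N` on. `vbY_of`: `VbY` of helper92.
-/

set_option autoImplicit false

namespace Pool.W.ALT

open Pool.ALT

open Finset Real MvPolynomial
open Pool.Agent.H49.Ent Pool.Agent.H32.Dense Pool.STK Pool.KA Pool.KSAT Pool.K2S Pool.PB Pool.S6C
  Pool.GEN Pool.RCD Pool.LA91 Pool.OWN68 Pool.PKG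
open Pool.CHT Pool.CHX Pool.ISO Pool.D2R Pool.D2G30 Pool.V1E Pool.CR99 Pool.GRW
open Pool.UNJ (ceI)
open Pool.GRD (LbP)
open Pool.PN18 (Fm2 Fw2)
open Pool.AJX (LbX FwX)
open Pool.AJW (JfU jfV jfV_mem nX aX)
open Pool.NPZ (Fm4 NpC VaD ChJ NpH fw2_nph)
open Pool.V0F (ChUQ AttUQ recG_lbf)


set_option maxHeartbeats 1000000 in
/-- **The velocity over the natural labels of a family of small rate**, at the windows of a record. -/
theorem vfN_B (Db Dw r : ℕ) (hr : 1 ≤ r) {hb : ℝ} (hb0 : 0 < hb) (hb1 : hb ≤ 1) {δ lam : ℝ}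
    (hδ : 0 < δ) (hlam : 0 < lam) : ∃ δN C' : ℝ, 0 < δN ∧ 1 ≤ C' ∧
    ∀ {S : Pool.PB.PCl (r + 2)} {al : ℝ} {g₀ : ℝ → ℝ}
    {P : List (Fin (r + 2)) × Fin (r + 2) → ℝ → ℝ → ℝ} {θ : ℝ}
    {P₂ : ℕ → List (Fin (r + 2)) × Fin (r + 2) → ℝ → ℝ → ℝ} {θ₂ Eb e₂ : ℕ → ℝ}
    {c : ℕ → Fin (r + 2)} {Pt : ℝ → ℝ → ℝ} {rt : ℝ → ℝ} {h K₀ g : ℝ} {L T : ℕ → ℝ → ℝ → ℝ}
    {Sl : ℕ → ℝ} {κ : ℕ → Pool.PKG.Kg} {G : Set ℝ} {S₀ N : ℕ} {A V : ℕ → ℝ} {S₂ Na : ℕ} {Va : ℕ → ℝ}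
    {K' ε q t : ℝ}
    (_ : Pool.W.PKG.RecG S al g₀ P θ P₂ θ₂ Eb e₂ c Pt rt h K₀ g L T Sl κ G S₀ N A V S₂ Na Va K' ε q t)
    (_ : ∀ l < r, κ l = .one) {s y₁ C φ Xc dt X kf hh k₁ a : ℝ}
    (_ : Sl (r + 1) = s) (_ : Pool.ALT.VbK r s y₁ δN C C' δ lam φ Xc dt X kf hh k₁ a ε)
    (_ : k₁ + C + 3 ^ r * Xc + kf + y₁ + lam + 3 ≤ K')
    (_ : Pool.LA91.ChG S c (r + 1) (fun l x => L l x x) G) (_ : t ∈ G)
    (_ : ∀ k ≤ r, t + Pool.AJW.jfV r (-y₁) Xc k * q ∈ G) {E rd : ℕ → ℝ} {Kl : ℕ}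
    (_ : ∀ i < r, 0 ≤ E i ∧ L i (t + -y₁ * q) (t + -y₁ * q) + E i + 3 * K' * q ≤ 1 ∧
      0 ≤ rd i ∧ rd i + 3 * K' * q ≤ 1)
    (_ : ∀ e : ℝ, 0 < e → Pool.S6C.Bas S (fun J F A => ∃ (V : Type) (z : Pool.GEN.PtT F → V) (z' : Pool.GEN.LnT F → V)
      (g : V → ℕ → MvPolynomial (Option (Fin (r + 2))) ℝ),
      Pool.AJX.LbX F c 0 r Kl e E (t + -y₁ * q) rd (fun i => L i (t + -y₁ * q) (t + -y₁ * q)) A z z' g))
    {i j : ℕ} {Rr rr ℓ g₂ Xa μ e₀ π₀ : ℝ} {Ψ : Pool.ALT.Fml (r + 2)}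
    {w p₁ p₂ eN uN pN pa₁ pa₂ ea ua pa : ℝ} (_ : 0 < μ) (_ : Va i = -y₁) (_ : Va j = 0)
    (_ : Pool.W.ALT.AlO S c L Db Na Va i j Rr hb dt lam rr ℓ g₂ Xa hh μ e₀ π₀ q t Ψ w p₁ p₂ eN uN pN pa₁ pa₂
      ea ua pa) {D Dr : ℕ}
    (_ : (max D (Db * max 1 Db) + 1) * (max D (Db * max 1 Db) + 1) ≤ Dr),
    ∃ Θ : Pool.PN18.Fm2 (r + 2),
      (∀ (J : ℕ) (F : Pool.KA.Fam (r + 2) J) (A B : F.Ω → Prop) (V C : Type) (z : Pool.GEN.PtT F → V)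
        (z' : Pool.GEN.LnT F → V) (G₁ G₂ : V → MvPolynomial (Option (Fin (r + 2))) ℝ) (cc : Pool.GEN.LnT F → C),
        Pool.K2S.Sub B A → Θ J F A V C z z' G₁ G₂ cc → Θ J F B V C z z' G₁ G₂ cc) ∧
      (∀ (J : ℕ) (F : Pool.KA.Fam (r + 2) J) (A : F.Ω → Prop) (V C : Type) (z : Pool.GEN.PtT F → V)
        (z' : Pool.GEN.LnT F → V) (G₁ G₂ : V → MvPolynomial (Option (Fin (r + 2))) ℝ) (cc : Pool.GEN.LnT F → C),
        Θ J F A V C z z' G₁ G₂ cc →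
        Pool.ALT.NzF Ψ c r (c (r + 1)) Db Db Db w (t + -y₁ * q) p₁ p₂ eN uN pN J F A V z z' G₂) ∧
      Pool.S6C.Bas S (fun J F A => ∃ (V C : Type) (z : Pool.GEN.PtT F → V) (z' : Pool.GEN.LnT F → V)
        (G₁ G₂ : V → MvPolynomial (Option (Fin (r + 2))) ℝ) (cc : Pool.GEN.LnT F → C),
        Θ J F A V C z z' G₁ G₂ cc) ∧
      ∀ {y : ℝ} {vw : ℕ → ℝ} {N₁ N₂ : ℕ} {Rg : ℕ → Prop} {be : ℕ → ℕ → ℝ} {E₁ ε₁ a₁ : ℝ}
        (κ' : ℝ) (qf : ℕ → Fin r → ℕ) (Pq : Fin r → ℝ), 0 < κ' → κ' ≤ 1 →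
        (∀ i, (kf + 1) * q ≤ Pq i) → (∀ (J : ℕ) (i : Fin r), Pq i * J - 2 ≤ qf J i) →
        Pool.W.V1E.VfNU S c r D Dw Dr N₁ N₂ Rg C a₁ E₁ ε₁ (hh * q) (X * q) (s * q) (kf * q) (L (r + 1))
          (fun k => t + Pool.V1E.vG y k₁ vw k * q)
          (fun k l => Pool.ISO.lvN P c (r + 1) (L (r + 1)) l (t + Pool.V1E.vG y k₁ vw k * q)
            (t + Pool.V1E.vG y k₁ vw k * q)) be κ' qf δ (2 * 1) (Pool.ALT.XiF Θ (t + -y₁ * q)) := by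
  classical
  obtain ⟨δN, hδN, Hfw⟩ := Pool.NPZ.fw2_nph (Db * max 1 Db) hb0 hb1 (ε := δ / (4 * lam)) (by positivity)
  obtain ⟨C', hC', hvf⟩ := Pool.W.V1E.vfnU_of Dw r
  refine ⟨δN, C', hδN, hC', ?_⟩
  intro S al g₀ P θ P₂ θ₂ Eb e₂ c Pt rt h K₀ g L T Sl κ G S₀ N A V S₂ Na Va K' ε q t R hκ s y₁ C φ Xc
    dt X kf hh k₁ a hs Kn hK' hCG hGt hGw E rd Kl hE hlb i j Rr rr ℓ g₂ Xa μ e₀ π₀ Ψ w p₁ p₂ eN uN
    pN pa₁ pa₂ ea ua pa hμ hVi hVj H D Dr hDr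
  have hq0 := R.q0
  have ht0 := R.t0
  have ht1 := R.t1
  have hs1 := Kn.s1
  have hy1 := Kn.y1
  have hy0 : 1 < y₁ := by linarith only [hs1, hy1]
  have hsy0 : 0 < s * y₁ := by positivity
  have hkf0 : 0 < kf := by linarith only [Kn.ks, hs1, hsy0]
  have hC0 : 0 < C := by linarith only [Kn.C1]
  have hk1 : 0 < k₁ := by linarith only [Kn.kk, hkf0]
  -- the multiples of the scale
  have hKq : k₁ * q + C * q + 3 ^ r * Xc * q + kf * q + y₁ * q + lam * q + 3 * q ≤ K' * q := by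
    have h1 := mul_le_mul_of_nonneg_right hK' hq0.le
    linarith only [h1]
  have hkq8 : kf * q + 8 * q ≤ k₁ * q := by
    have h1 := mul_le_mul_of_nonneg_right Kn.kk hq0.le
    linarith only [h1]
  have hCq : q ≤ C * q := by
    have h1 := mul_le_mul_of_nonneg_right Kn.C1 hq0.le
    linarith only [h1]
  have hXq3 : 0 ≤ 3 ^ r * Xc * q := mul_nonneg Kn.X30 hq0.le
  have hkfq : 0 < kf * q := mul_pos hkf0 hq0
  have hsq : q < y₁ * q := by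
    have h1 := mul_lt_mul_of_pos_right hy0 hq0
    linarith only [h1]
  have hs0q : q < s * q := by
    have h1 := mul_lt_mul_of_pos_right hs1 hq0
    linarith only [h1]
  have hlq : 0 < lam * q := mul_pos Kn.l0 hq0
  have ht : 0 < t := by linarith only [ht0, hKq, hkq8, hCq, hXq3, hkfq, hsq, hlq, hq0]
  have ht' : t < 1 := by linarith only [ht1, hKq, hkq8, hCq, hXq3, hkfq, hsq, hlq, hq0]
  have hφq0 : 0 < φ * q := mul_pos Kn.φ0 hq0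
  have hφq : φ * q ≤ q := by
    have h1 := mul_le_mul_of_nonneg_right Kn.φ1 hq0.le
    linarith only [h1]
  have hdq : dt * lam * q ≤ φ * q := mul_le_mul_of_nonneg_right Kn.dtφ hq0.le
  have hdl0 : 0 < dt * lam := mul_pos Kn.dt0 Kn.l0
  have hdl0q : 0 < dt * lam * q := mul_pos hdl0 hq0
  have hhq : 0 < hh * q := mul_pos Kn.h0 hq0
  have hh4q : hh * q ≤ q / 4 := by
    have h1 := mul_le_mul_of_nonneg_right Kn.h4 hq0.le
    linarith only [h1]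
  have hhφq : hh * q ≤ φ * q := mul_le_mul_of_nonneg_right Kn.hφ hq0.le
  have hXq : 0 < X * q := mul_pos Kn.X0 hq0
  have hX2q : X * q ≤ q / 2 := by
    have h1 := mul_le_mul_of_nonneg_right Kn.X2 hq0.le
    linarith only [h1]
  have hhXq : 4 * (hh * q) ≤ X * q := by
    have h1 := mul_le_mul_of_nonneg_right Kn.hX hq0.le
    linarith only [h1]
  have hhCq : 4 * (C * (hh * q)) ≤ X * q := by
    have h1 := mul_le_mul_of_nonneg_right Kn.hC hq0.le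
    linarith only [h1]
  have hεq0 : 0 < ε * q := mul_pos Kn.ε0 hq0
  have hεq : 2 * (ε * q) ≤ φ * q := by
    have h1 := mul_le_mul_of_nonneg_right Kn.εφ hq0.le
    linarith only [h1]
  have hεXq : 4 * (ε * q) ≤ X * q := by
    have h1 := mul_le_mul_of_nonneg_right Kn.εX hq0.le
    linarith only [h1]
  have eW : t + Va j * q = t := by
    rw [hVj]
    ring
  have U : Pool.AJW.JfU r 0 (-y₁) Xc φ (kf + y₁) kf :=
    { vv0 := by linarith only [hy0]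
      φ0 := Kn.φ0
      XK := by
        have h1 := Kn.sX
        push_cast
        linarith only [h1]
      φX := Kn.φX
      kfX := Kn.kX
      lamk := by linarith only [] }
  -- the windows
  have hE' : ∀ i < r, 0 ≤ E i ∧ L i (t + -y₁ * q) (t + -y₁ * q) + E i + 3 * K' * q ≤ 1 ∧
      0 ≤ rd i ∧ rd i ≤ 1 - 3 * K' * q := fun i hi => by
    obtain ⟨h1, h2, h3, h4⟩ := hE i hi
    exact ⟨h1, h2, h3, by linarith only [h4]⟩
  have hsK : y₁ + 3 ^ r * Xc ≤ K' := by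
    linarith only [hK', hk1, hC0, hkf0, hy0, Kn.l0]
  have hlK : kf + y₁ ≤ K' := by
    linarith only [hK', hk1, hC0, hkf0, hy0, Kn.l0, Kn.X30]
  have HC := R.chj (K := 0) hκ hr (by omega) hCG U hGt hGw (by linarith only [hsK]) hlK Kn.εφ
    (g₁ := φ * q / 4) (by linarith only [hφq0]) (m₁ := 3 * K' * q) (by
      linarith only [hKq, hkq8, hCq, hXq3, hkfq, hsq, hlq, hφq, hq0]) (ρ := 1 - 3 * K' * q)
    (by linarith only [hKq, hkq8, hCq, hXq3, hkfq, hsq, hlq, hφq, hq0]) hE'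
    (qv := lam + dt * lam / 8) (by linarith only [hdl0, Kn.l0]) Kn.lX
  have HC' : Pool.NPZ.ChJ S c 0 r (t + Va i * q) (t + Va j * q) ((kf + y₁) * q) ((lam + dt * lam / 8) * q)
      (φ * q) (φ * q / 4) E (fun i => L i (t + -y₁ * q) (t + -y₁ * q)) (fun i => L i t t)
      (Pool.AJW.nX r (fun l x => L l x x) (t + -y₁ * q) (Xc * q))
      (fun l => Pool.AJW.aX r (Xc * q) l - (t - (t + -y₁ * q)) - 2 * (φ * q)) rd := by
    rw [hVi, eW]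
    exact HC
  -- the level at the window
  have hv0 : 0 ≤ t + -y₁ * q := by
    linarith only [ht0, hKq, hkq8, hCq, hXq3, hkfq, hsq, hlq, hq0]
  have hLv : t + -y₁ * q ≤ L (r + 1) (t + -y₁ * q) (t + -y₁ * q) :=
    R.low_at (by omega) hv0 le_rfl (by linarith only [ht', hsq, hq0])
  have hvq : q ≤ t + -y₁ * q := by
    linarith only [ht0, hKq, hkq8, hCq, hXq3, hkfq, hsq, hlq, hq0]
  obtain ⟨P₀, hP₀⟩ : ∃ P₀, P₀ = L (r + 1) (t + -y₁ * q) (t + -y₁ * q) := ⟨_, rfl⟩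
  have hδφ : dt * (lam * q) / 4 + δN * lam * q / 8 + (r + 1) * (φ * q) < δN * (lam * q) / 2 := by
    have h1 := mul_le_mul_of_nonneg_right Kn.dtN hlq.le
    have h2 := mul_le_mul_of_nonneg_right Kn.φN hq0.le
    have h3 : 0 < δN * (lam * q) := mul_pos hδN hlq
    linarith only [h1, h2, h3]
  have NP := Pool.W.ALT.nbf_nph R.pos H hμ.le HC' Kl (e := φ * q / 8) (δN := δN) (δ₂ := δN * lam * q / 8)
    (b := t) (by linarith only [hφq0]) (by linarith only [hdq]) le_rfl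
    (by linarith only [hφq0]) (by linarith only [Kn.dtN, hδN])
    (by linarith only [hdl0q]) (by positivity) hδφ (by
      rw [hVi]
      linarith only [hdq, hφq, hLv, hvq, hq0]) (by rw [eW]) ht'.le
  rw [hVi, eW] at NP
  have hpp := NP.pNP
  have hpN0 := NP.pN0
  have hpN1 := H.pN1
  rw [hVi] at hpN1
  rw [← hP₀] at hpp hpN1 hLv
  -- the first jet
  have HX := R.fwx (K := 0) R.tmc hκ (by omega) hCG U hGt hGw (by linarith only [hsK]) hlK Kn.εφ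
    (pf := fun l => L l t t - hh * q) (fun l _ => by
      show L l t t - φ * q ≤ L l t t - hh * q
      linarith only [hhφq]) (E := E) (rd := rd) (fun i hi => by
      obtain ⟨h1, h2, -, -⟩ := hE i hi
      have h3 : 0 ≤ L i (t + -y₁ * q) (t + -y₁ * q) :=
        hv0.trans (R.low_at (by omega) hv0 le_rfl (by linarith only [ht', hsq, hq0]))
      have h4 : 0 < K' * q := by linarith only [hKq, hkq8, hCq, hXq3, hkfq, hsq, hlq, hq0]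
      linarith only [h2, h3, h4]) (fun i hi => (hE i hi).2.2.1) (Kc := Kl) (e := φ * q / 8)
    (δ := δN * (lam * q) / 4) (by positivity) (by linarith only [hφq0]) le_rfl
    (Nf := fun l j => Pool.ISO.lvN P c (r + 1) (L (r + 1)) l t t + kf * q - (j : ℕ) * t)
    (fun l hl j _ => by rw [← R.lv_at (by omega : r + 1 < r + 2) (by omega)])
  have HF := Hfw R.tmc NP (f := fun J F => Pool.PB.ptr F J) (y := fun _ F => F.T)
    (fun J F => ⟨id, fun ω => rfl⟩) (fun J F => by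
      refine ⟨fun t => (t, fun _ => 0), fun ω => ?_⟩
      simp only [Finset.range_zero, Finset.image_empty, Finset.notMem_empty, if_false]) HX
    (Th := Pool.ALT.ThB (Pool.ALT.NbF Ψ c r (c (r + 1)) Db w (t + -y₁ * q) p₁ p₂ eN uN pN t pa₁ pa₂ ea ua pa Kl
      (φ * q / 8) E rd (fun i => L i (t + -y₁ * q) (t + -y₁ * q))))
    (fun J F A V C z z' G₁ G₂ cc h => h) 1 (e' := P₀ - pN) (by rw [hP₀])
  rw [← hP₀] at HF
  obtain ⟨Θ, hΘ⟩ : ∃ Θ : Pool.PN18.Fm2 (r + 2), Θ = Pool.ALT.ThB (Pool.ALT.NbF Ψ c r (c (r + 1)) Db w (t + -y₁ * q) p₁ p₂ eN uN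
    pN t pa₁ pa₂ ea ua pa Kl (φ * q / 8) E rd (fun i => L i (t + -y₁ * q) (t + -y₁ * q))) := ⟨_, rfl⟩
  have hΘs : ∀ (J : ℕ) (F : Pool.KA.Fam (r + 2) J) (A B : F.Ω → Prop) (V C : Type) (z : Pool.GEN.PtT F → V)
      (z' : Pool.GEN.LnT F → V) (G₁ G₂ : V → MvPolynomial (Option (Fin (r + 2))) ℝ) (cc : Pool.GEN.LnT F → C),
      Pool.K2S.Sub B A → Θ J F A V C z z' G₁ G₂ cc → Θ J F B V C z z' G₁ G₂ cc := by
    intro J F A B V C z z' G₁ G₂ cc hB h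
    rw [hΘ] at h ⊢
    obtain ⟨g, hg⟩ := h
    exact ⟨g, NP.hs J F A B V z z' G₂ g hB hg⟩
  rw [← hΘ] at HF
  refine ⟨Θ, hΘs, fun J F A V C z z' G₁ G₂ cc h => ?_, ?_, ?_⟩
  · rw [hΘ] at h
    obtain ⟨g, hg⟩ := h
    exact Pool.ALT.nbf_nzf hg
  · have h1 := H.nzq
    rw [hVi, eW] at h1
    refine Pool.S6C.Bas.mono 0 (Pool.ALT.nbf_ex' hr h1 (hlb (φ * q / 8) (by linarith only [hφq0]))) ?_
    rintro J - F A ⟨V, z, z', G₂, g, hg⟩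
    rw [hΘ]
    exact ⟨V, Unit, z, z', G₂, G₂, fun _ => (), g, hg⟩
  intro y vw N₁ N₂ Rg be E₁ ε₁ a₁ κ' qf Pq hκ' hκ1 hPq hqf
  have hlv : ∀ l ≤ r + 1, ∀ x : ℝ, Pool.ISO.lvN P c (r + 1) (L (r + 1)) l x x = L l x x :=
    fun l hl x => by rw [← R.lv_at (by omega : r + 1 < r + 2) hl]
  have v0 : Pool.V1E.vG y k₁ vw 0 = 0 := by norm_num [Pool.V1E.vG]
  have v2 : Pool.V1E.vG y k₁ vw 2 = -k₁ := by norm_num [Pool.V1E.vG]
  have v3 : Pool.V1E.vG y k₁ vw 3 = 1 := by norm_num [Pool.V1E.vG]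
  have hLt : ∀ l ≤ r + 1, 0 ≤ L l t t := fun l hl =>
    ht.le.trans (R.low_at (by omega) ht.le le_rfl ht'.le)
  have hKx : |t + -y₁ * q - t| ≤ K' * q := by
    rw [add_sub_cancel_left, abs_mul, abs_neg, abs_of_pos hq0, abs_of_pos (by linarith only [hy0])]
    linarith only [hKq, hkq8, hCq, hXq3, hkfq, hsq, hlq, hq0]
  have hdN := abs_le.1 (R.dL (r + 1) (by omega) _ hKx)
  rw [hs, ← hP₀] at hdN
  have e1 : s * (t + -y₁ * q - t) = -(s * y₁ * q) := by ring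
  rw [e1] at hdN
  obtain ⟨hdN1, hdN2⟩ := hdN
  have hs2q : q < s * y₁ * q := by
    have h1 : (1 : ℝ) < s * y₁ := by nlinarith only [hs1, hy0]
    have h2 := mul_lt_mul_of_pos_right h1 hq0
    linarith only [h2]
  have hy1q : s * q ≤ y₁ * q := mul_le_mul_of_nonneg_right hy1 hq0.le
  have hksq : s * y₁ * q + s * q + q ≤ kf * q := by
    have h1 := mul_le_mul_of_nonneg_right Kn.ks hq0.le
    linarith only [h1]
  have hΘx : ∀ (J : ℕ) (F : Pool.KA.Fam (r + 2) J) (B : F.Ω → Prop)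
      (Cp : Pool.GEN.PtT F → MvPolynomial (Option (Fin (r + 2))) ℝ),
      (∃ (V C : Type) (z : Pool.GEN.PtT F → V) (z' : Pool.GEN.LnT F → V)
        (G₁ G₂ : V → MvPolynomial (Option (Fin (r + 2))) ℝ) (cc : Pool.GEN.LnT F → C),
        Θ J F B V C z z' G₁ G₂ cc ∧
        ∀ ω, B ω → Cp (Pool.PB.ptr F J ω) = G₂ (z' (Pool.KSAT.slam F ⌊(t + -y₁ * q) * J⌋₊ ω))) →
      ∃ (V : Type) (z : Pool.GEN.PtT F → V) (z' : Pool.GEN.LnT F → V)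
        (Gp : V → MvPolynomial (Option (Fin (r + 2))) ℝ),
        (∀ y, (Gp y).totalDegree ≤ Db * max 1 Db) ∧
        (∀ y, Pool.ALT.DpI ((range (r + 1)).image c) (Gp y)) ∧
        (∀ ω, B ω → z (Pool.PB.ptr F J ω) = z' (Pool.KSAT.slam F ⌊(t + -y₁ * q) * J⌋₊ ω)) ∧
        (∀ ω, B ω → |Pool.LA91.ojet F (c (r + 1)) 0 (Gp (z' (Pool.KSAT.slam F ⌊(t + -y₁ * q) * J⌋₊ ω))) ω| ≤
          1 / 2 ^ ⌊pN * J⌋₊) ∧
        ∀ ω, B ω → Cp (Pool.PB.ptr F J ω) = Gp (z' (Pool.KSAT.slam F ⌊(t + -y₁ * q) * J⌋₊ ω)) := by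
    rintro J F B Cp ⟨V, C, z, z', G₁, G₂, cc, h, hCp⟩
    rw [hΘ] at h
    obtain ⟨g, hg⟩ := h
    have h1 := Pool.ALT.nbf_lb hg
    obtain ⟨-, h2, -, -⟩ := NP.npc J F B V z z' G₂ g hg
    exact ⟨V, z, z', G₂, h1.deg, h1.dep, h1.cls, h2, hCp⟩
  obtain ⟨m₁, hm₁⟩ : ∃ m₁, m₁ = pN - 2 * (hh * q) := ⟨_, rfl⟩
  have hm0 : 0 ≤ m₁ := by
    rw [hm₁]
    linarith only [hpN1, hdq, hφq, hLv, hvq, hh4q, hq0]
  have hbx := Pool.W.V1E.bxU_part (S := S) (c := c) (r := r) (D := D) (Dw := Dw) (Dr := Dr) (N := N₁)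
    (N₂ := N₂) (R := Rg) (C := C) (a := a₁) (Eb := E₁) (ε₀ := ε₁) (η₀ := hh * q) (χ := X * q)
    (mb := s * q) (Pt := L (r + 1)) (o := fun k => t + Pool.V1E.vG y k₁ vw k * q)
    (lv := fun k l => Pool.ISO.lvN P c (r + 1) (L (r + 1)) l (t + Pool.V1E.vG y k₁ vw k * q)
      (t + Pool.V1E.vG y k₁ vw k * q)) (be := be) (qf := qf) R.pos hκ1 (Kd := Db * max 1 Db)
    (w := t + -y₁ * q) (pN := pN) (m₁ := m₁) (by
      simp only [v0]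
      linarith only [hsq, hq0]) (by
      simp only [v0]
      linarith only [ht']) hhq.le hXq.le hDr hpN0.le (by
      rw [hm₁]
      linarith only [hhq]) (by
      simp only [v0, zero_mul, add_zero, hlv _ le_rfl]
      rw [hm₁]
      linarith only [hpp, hdN2, hs2q, hX2q, hεXq, hXq, hq0, hhq]) (by
      simp only [v0, zero_mul, add_zero]
      rw [hlv r (by omega)]
      exact hLt r (by omega)) (Ξ := Pool.ALT.XiF Θ (t + -y₁ * q))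
    (fun J F B g₀ G H Ht CL Cp h => hΘx J F B Cp h)
  refine Pool.W.V1E.VfNU.of_xi (Ξ' := fun J F B g₀ G H Ht CL Cp => Pool.ALT.XiF Θ (t + -y₁ * q) J F B g₀ G H Ht CL Cp ∧
    ∀ ω, B ω → ∀ b', Pool.GEN.NBx c (G 0 (Pool.PB.ptr F J ω)) (g₀ 0) ⌊(t + Pool.V1E.vG y k₁ vw 0 * q) * J⌋₊ (F.t ω) r b' →
      |eval b' (Pool.V1E.nW c r (G 0 (Pool.PB.ptr F J ω)) (Cp (Pool.PB.ptr F J ω)))| ≤ (2 : ℝ) ^ (-(m₁ * J))) two_pos hκ'.le
    ?_ (hvf (w := t + -y₁ * q) (m₁ := m₁) (ζ := ε * q) (kf := kf * q) (pf := fun l => L l t t - hh * q)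
      (N₁ := P₀ + lam * q - (1 : ℕ) * (t + -y₁ * q)) (e := P₀ - pN)
      (d := δ / (4 * lam) * (lam * q)) (Pq := Pq) (Ψ := Θ) R.pos ?_ ?_ ?_ ?_)
  · refine Pool.S6C.Bas.mono 0 hbx ?_
    rintro J - F B hB b z gc gT g₀ G H T TH Gt Ht CL Cp W hX
    obtain ⟨B₂, d1, d2, d3⟩ := hB b z gc gT g₀ G H T TH Gt Ht CL Cp W hX
    refine ⟨B₂, d1, d2, ?_, d3⟩
    obtain ⟨V, C, z, z', G₁, G₂, cc, h1, h2⟩ := hX
    exact ⟨V, C, z, z', G₁, G₂, cc, hΘs J F B B₂ V C z z' G₁ G₂ cc d1 h1, fun ω hω => h2 ω (d1 ω hω)⟩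
  · rintro J F B g₀ G H Ht CL Cp ⟨⟨V, C, z, z', G₁, G₂, cc, h1, h2⟩, -⟩
    exact ⟨V, C, z, z', G₁, G₂, cc, h1, h2⟩
  · refine Pool.S6C.Bas.mono 0 (Pool.LA91.pos_bas R.pos) ?_
    rintro J - F B - b z gc gT g₀ G H T TH Gt Ht CL Cp W hX ω hω
    refine ⟨0, fun b' hb' => ?_⟩
    rw [add_zero]
    exact hX.2 ω hω b' hb'
  · simp only [v0, zero_mul, add_zero]
    exact HF
  · exact
      { η0 := hhq
        χ1 := by linarith only [hεXq, hhXq, hXq]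
        χ2 := by linarith only [hhCq, hXq]
        ζ1 := fun l hl => by
          simp only [v0, v2, zero_mul, add_zero]
          rw [hlv l (by omega), hlv l (by omega)]
          have h1 := (abs_le.1 (R.dOne (by omega) (hκ l hl) (t + -k₁ * q) (by
            rw [add_sub_cancel_left, abs_mul, abs_neg, abs_of_pos hq0, abs_of_pos hk1]
            linarith only [hKq, hkq8, hCq, hXq3, hkfq, hsq, hlq, hq0]))).1
          linarith only [h1]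
        mb0 := by linarith only [hs0q, hq0]
        kk0 := hkfq.le
        kf0 := hkfq.le
        o01 := by
          simp only [v0, v2]
          linarith only [hkq8, hkfq, hh4q, hq0]
        o12 := by
          simp only [v0, v3]
          linarith only [hq0]
        l0 := fun l hl => by
          simp only [v0, zero_mul, add_zero]
          rw [hlv l hl]
          exact hLt l hl
        pf0 := fun l hl => by
          simp only [v0, zero_mul, add_zero]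
          rw [hlv l (by omega)]
          linarith only [hpp]
        kq := by
          simp only [v0, v3]
          linarith only [hh4q, hq0]
        kf1 := by
          simp only [v0, v2]
          linarith only [hkq8, hh4q, hq0]
        kf2 := fun i => by
          have := hPq i
          linarith only [this, hh4q, hq0]
        qf1 := hqf
        N1 := by
          simp only [v0, v3, zero_mul, add_zero]
          rw [hlv _ le_rfl, Kn.ls]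
          push_cast
          linarith only [hdN1, hεXq, hX2q, hq0, hy1q]
        m1 := by
          simp only [v0, v3, zero_mul, add_zero]
          rw [hlv _ le_rfl, hm₁]
          linarith only [hdN1, hpN1, hksq, hdq, hφq, hh4q, hεXq, hX2q, hq0]
        m10 := hm0
        oJ := by
          simp only [v0, zero_mul, add_zero]
          linarith only [hhCq, hX2q, ht1, hKq, hkq8, hCq, hXq3, hkfq, hsq, hlq, hq0]
        δ0 := Kn.δ0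
        sm := by
          simp only [v0, v3]
          have h1 := mul_le_mul_of_nonneg_right Kn.Xδ hq0.le
          have h2 : δ / (4 * lam) * (lam * q) = δ / 4 * q := by
            field_simp
          have h3 : 0 < δ * q := mul_pos hδ hq0
          rw [h2]
          linarith only [h1, h3] }

/-- **The velocity over the natural labels of a family of small rate**, as `VbY`, the window
`t - y₁ q` of the natural labels given, `y₁` any number from the slope of the target on. -/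
def VbYb (r : ℕ) (y a h hb : ℝ) (Sl : ℕ → ℝ) (κ : ℕ → Pool.PKG.Kg) {ι : Type} (Q : Pool.PKG.PropG (r + 2) ι) : Prop :=
  ∀ al : ℝ, 0 < al → ∀ K₀ : ℝ, 0 < K₀ → ∀ S₀ : ℕ, 1 ≤ S₀ →
  ∃ (Kr : ℝ) (Nr : ℕ) (Ar Vr : ℕ → ℝ), 1 ≤ Kr ∧ (∀ k < Nr, -Kr ≤ Vr k ∧ Vr k ≤ Ar k ∧ Ar k ≤ Kr) ∧
  ∀ S₂ : ℕ, S₀ ≤ S₂ → ∀ D : ℕ, 1 ≤ D → ∃ D₁ : ℕ, ∀ Db : ℕ, D ≤ Db → D₁ ≤ Db → ∃ Dr₀ : ℕ,
  ∀ Dr : ℕ, Dr₀ ≤ Dr → ∀ C : ℝ, 1 ≤ C → ∃ Dw₀ : ℕ, ∀ Dw : ℕ, Dw₀ ≤ Dw →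
  ∀ δ X₀ : ℝ, 0 < δ → δ ≤ 1 → 0 < X₀ → ∀ y₁ : ℝ, Sl (r + 1) ≤ y₁ →
  ∃ lam rr gg dt ℓ₀ kf₀ X₁ : ℝ, 0 < lam ∧ lam ≤ rr ∧ 0 < gg ∧ 0 < dt ∧ 0 < ℓ₀ ∧
  0 < X₁ ∧ lam + gg ≤ Sl (r + 1) * y₁ ∧ ∀ ℓ X kf : ℝ, 0 < ℓ → ℓ ≤ ℓ₀ → 0 < X → X ≤ X₁ → kf₀ ≤ kf →
  ∃ h₁ : ℝ, 0 < h₁ ∧ ∀ hh k₁ : ℝ, 0 < hh → hh ≤ h₁ → kf + 8 ≤ k₁ → a + 1 ≤ k₁ →
  ∃ (K₁ : ℝ) (Nv : ℕ) (Vv : ℕ → ℝ) (ns : ℕ) (vs : ℕ → ℝ), (∀ j < Nv, -K₁ ≤ Vv j ∧ Vv j ≤ K₁) ∧
  (∀ j < ns, -K₁ ≤ vs j ∧ vs j ≤ a - 1 / 2) ∧ ∀ K' : ℝ, K₁ ≤ K' →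
  ∃ ε₀ : ℝ, 0 < ε₀ ∧ ∀ ε : ℝ, 0 < ε → ε ≤ ε₀ →
  ∀ (S : Pool.PB.PCl (r + 2)) (g₀ : ℝ → ℝ) (P : List (Fin (r + 2)) × Fin (r + 2) → ℝ → ℝ → ℝ)
    (θ : ℝ) (P₂ : ℕ → List (Fin (r + 2)) × Fin (r + 2) → ℝ → ℝ → ℝ) (θ₂ Eb e₂ : ℕ → ℝ)
    (c : ℕ → Fin (r + 2)) (Pt : ℝ → ℝ → ℝ) (rt : ℝ → ℝ) (L T : ℕ → ℝ → ℝ → ℝ) (G : Set ℝ)
    (g : ℝ), IsClosed G → g ∈ G → (∀ l < r + 2, HasDerivAt (fun x => L l x x) (Sl l) g) →
    ∃ (p : ℕ → ι) (M : ℕ) (B₀ B₁ : ℕ → ℝ),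
    (∀ j < M, B₀ j < B₁ j) ∧ ∀ k₀ : ℕ → ℕ, (∀ j < M, Q (p j) (k₀ j) S P θ c Pt rt L T κ G g) →
    ∀ μ : ℝ, 0 < μ → ∃ q₁ : ℝ, 0 < q₁ ∧ ∀ (q t : ℝ) (x : ℕ → ℝ),
      q < q₁ → (∀ j < M, x j ∈ G ∧ t + B₀ j * q ≤ x j ∧ x j ≤ t + B₁ j * q ∧
        Q (p j) (k₀ j) S P θ c Pt rt L T κ G (x j)) →
      ∀ (N : ℕ) (A V : ℕ → ℝ) (Na : ℕ) (Va : ℕ → ℝ) (S₁ : Pool.PB.PCl (r + 2)), Pool.ALT.SubC S₁ S →
      Pool.W.PKG.RecG S₁ al g₀ P θ P₂ θ₂ Eb e₂ c Pt rt h K₀ g L T Sl κ G S₀ N A V S₂ Na Va K' ε q t →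
      (∀ k < Na, |Va k| ≤ K') →
      (∀ k < Nr, ∃ j < N, A j = Ar k ∧ V j = Vr k) → (∀ k < Nv, ∃ j < Na, Va j = Vv k) →
      ∀ (N₁ N₂ : ℕ) (vw : ℕ → ℝ), 1 ≤ N₁ → N₁ ≤ N₂ → 3 ≤ N₂ →
      (∀ k < ns, ∃ j, N₁ < j ∧ 4 ≤ j ∧ j ≤ N₂ ∧ vw j = vs k) →
      ∀ (i j : ℕ) (R g₂ Xa e₀ π₀ : ℝ) (Ψ : Pool.ALT.Fml (r + 2)) (w p₁ p₂ eN uN pN pa₁ pa₂ ea ua pa : ℝ),
      i < Na → j < Na → Va i = -y₁ → Va j = 0 → y₁ ≤ R →
      Pool.W.ALT.AlO S₁ c L Db Na Va i j R hb dt lam rr ℓ g₂ Xa hh μ e₀ π₀ q t Ψ w p₁ p₂ eN uN pN pa₁ pa₂ ea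
        ua pa →
      ∃ (S' : Pool.PB.PCl (r + 2)) (Θ : Pool.PN18.Fm2 (r + 2)), S'.Ne ∧ Pool.ALT.SubC S' S₁ ∧
      (∀ (J : ℕ) (F : Pool.KA.Fam (r + 2) J) (A B : F.Ω → Prop) (V C : Type) (z : Pool.GEN.PtT F → V)
        (z' : Pool.GEN.LnT F → V) (G₁ G₂ : V → MvPolynomial (Option (Fin (r + 2))) ℝ) (cc : Pool.GEN.LnT F → C),
        Pool.K2S.Sub B A → Θ J F A V C z z' G₁ G₂ cc → Θ J F B V C z z' G₁ G₂ cc) ∧
      (∀ (J : ℕ) (F : Pool.KA.Fam (r + 2) J) (A : F.Ω → Prop) (V C : Type) (z : Pool.GEN.PtT F → V)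
        (z' : Pool.GEN.LnT F → V) (G₁ G₂ : V → MvPolynomial (Option (Fin (r + 2))) ℝ) (cc : Pool.GEN.LnT F → C),
        Θ J F A V C z z' G₁ G₂ cc →
        Pool.ALT.NzF Ψ c r (c (r + 1)) Db Db Db w (t + Va i * q) p₁ p₂ eN uN pN J F A V z z' G₂) ∧
      Pool.S6C.Bas S' (fun J F A => ∃ (V C : Type) (z : Pool.GEN.PtT F → V) (z' : Pool.GEN.LnT F → V)
        (G₁ G₂ : V → MvPolynomial (Option (Fin (r + 2))) ℝ) (cc : Pool.GEN.LnT F → C),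
        Θ J F A V C z z' G₁ G₂ cc) ∧
      ∀ (κ' : ℝ) (qf : ℕ → Fin r → ℕ) (Pq : Fin r → ℝ), 0 < κ' → κ' ≤ 1 →
        (∀ i, (kf + 1) * q ≤ Pq i) → (∀ (J : ℕ) (i : Fin r), Pq i * J - 2 ≤ qf J i) →
        ∃ K₂ : ℝ, 0 < K₂ ∧
        Pool.W.V1E.VfNU S' c r D Dw Dr N₁ N₂ (fun l => κ l = .one ∨ κ l = .thin) C (t + a * q)
          (Eb (r + 1)) (3 * ε * q) (hh * q) (X * q) (Sl (r + 1) * q) (kf * q) (L (r + 1))
          (fun k => t + Pool.V1E.vG y k₁ vw k * q)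
          (fun k l => Pool.ISO.lvN P c (r + 1) (L (r + 1)) l (t + Pool.V1E.vG y k₁ vw k * q) (t + Pool.V1E.vG y k₁ vw k * q))
          (fun k l => Pool.CHT.bet P c l (t + a * q) (t + Pool.V1E.vG y k₁ vw k * q)) κ' qf δ K₂
          (Pool.ALT.XiF Θ (t + Va i * q))

/-- **The velocity over the natural labels of a family of small rate**, at any earlier window. -/
theorem vbYb_of {r : ℕ} (hr : 1 ≤ r) {y a h hb : ℝ} {Sl : ℕ → ℝ} {κ : ℕ → Pool.PKG.Kg}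
    (hκ : ∀ l < r, κ l = .one) (hs1 : 1 < Sl (r + 1)) (hb0 : 0 < hb) (hb1 : hb ≤ 1) :
    Pool.W.ALT.VbYb r y a h hb Sl κ (Pool.LA91.sumQ (Pool.W.V0F.ChUQ : Pool.PKG.PropG (r + 2) Unit) (Pool.V0F.AttUQ : Pool.PKG.PropG (r + 2) Unit)) := by
  intro al hal K₀ hK₀ S₀ hS₀
  obtain ⟨Kl, hKl, hlbf⟩ := Pool.W.V0F.recG_lbf (r + 2) S₀ (by omega) hS₀
  refine ⟨1, 0, fun _ => 0, fun _ => 0, le_rfl, fun k hk => absurd hk (Nat.not_lt_zero k), ?_⟩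
  intro S₂ hS₂ D hD
  refine ⟨0, fun Db hDb _ => ⟨(max D (Db * max 1 Db) + 1) * (max D (Db * max 1 Db) + 1),
    fun Dr hDr C hC => ⟨0, fun Dw _ δ X₀ hδ hδ1 hX₀ y₁ hy₁ => ?_⟩⟩⟩
  obtain ⟨s, hs⟩ : ∃ s, Sl (r + 1) = s := ⟨_, rfl⟩
  rw [hs] at hs1 hy₁
  have hy0 : 1 < y₁ := by linarith only [hs1, hy₁]
  have hC0 : 0 < C := by linarith only [hC]
  have hr0 : (0 : ℝ) ≤ r := Nat.cast_nonneg r
  -- the constants
  obtain ⟨gg, hgg⟩ : ∃ gg : ℝ, gg = (y₁ - s + 1) / 2 := ⟨_, rfl⟩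
  have hgg0 : 0 < gg := by
    rw [hgg]
    linarith only [hy₁]
  have hsy : y₁ < s * y₁ := by nlinarith only [hs1, hy0]
  obtain ⟨lam, hlam⟩ : ∃ lam : ℝ, lam = s * y₁ - (y₁ - s + 1) / 2 := ⟨_, rfl⟩
  have hlam0 : 1 / 2 < lam := by
    rw [hlam]
    linarith only [hs1, hy0, hsy]
  have hlp : 0 < lam := by linarith only [hlam0]
  obtain ⟨δN, C', hδN, hC', Hv⟩ := Pool.W.ALT.vfN_B Db Dw r hr hb0 hb1 hδ hlp
  obtain ⟨φ, hφ⟩ : ∃ φ : ℝ, φ = min 1 (δN * lam / (8 * (r + 1))) := ⟨_, rfl⟩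
  have hφ0 : 0 < φ := by
    rw [hφ]
    positivity
  have hφ1 : φ ≤ 1 := by
    rw [hφ]
    exact min_le_left _ _
  have hφN : (r + 1) * φ ≤ δN * lam / 8 := by
    have h1 : φ ≤ δN * lam / (8 * (r + 1)) := by
      rw [hφ]
      exact min_le_right _ _
    rw [le_div_iff₀ (by positivity)] at h1
    linarith only [h1]
  have hrφ : 0 ≤ (r : ℝ) * φ := mul_nonneg hr0 hφ0.le
  obtain ⟨Xc, hXc⟩ : ∃ Xc : ℝ, Xc = 12 * y₁ + 32 * (r + 1) * φ + lam := ⟨_, rfl⟩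
  have hXc0 : 0 < Xc := by
    rw [hXc]
    linarith only [hy0, hrφ, hφ0, hlp]
  have h3X : 0 ≤ 3 ^ r * Xc := by positivity
  obtain ⟨dt, hdt⟩ : ∃ dt : ℝ, dt = min (δN / 2) (φ / lam) := ⟨_, rfl⟩
  have hdt0 : 0 < dt := by
    rw [hdt]
    exact lt_min (by linarith only [hδN]) (by positivity)
  have hdtN : dt ≤ δN / 2 := by
    rw [hdt]
    exact min_le_left _ _
  have hdtφ : dt * lam ≤ φ := by
    have h1 : dt ≤ φ / lam := by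
      rw [hdt]
      exact min_le_right _ _
    rwa [le_div_iff₀ hlp] at h1
  have hC'0 : 0 < C' := by linarith only [hC']
  refine ⟨lam, lam, gg, dt, 1, max (3 ^ r * Xc) (s * y₁ + s + 1), min (1 / 2) (δ / (4 * C')),
    hlp, le_rfl, hgg0, hdt0, one_pos, by positivity, ?_, ?_⟩
  · rw [hs, hlam, hgg]
    linarith only []
  intro ℓ X kf hℓ hℓ1 hX hX1 hkf
  have hX2 : X ≤ 1 / 2 := hX1.trans (min_le_left _ _)
  have hXδ : C' * X ≤ δ / 4 := by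
    have h1 : X ≤ δ / (4 * C') := hX1.trans (min_le_right _ _)
    rw [le_div_iff₀ (by positivity)] at h1
    linarith only [h1]
  refine ⟨min φ (min (1 / 4) (X / (4 * C))), by positivity, fun hh k₁ hh0 hh1 hk₁ hak₁ => ?_⟩
  have hhC : 4 * (C * hh) ≤ X := by
    have h1 : hh ≤ X / (4 * C) := hh1.trans ((min_le_right _ _).trans (min_le_right _ _))
    rw [le_div_iff₀ (by positivity)] at h1
    linarith only [h1]
  have hhX : 4 * hh ≤ X := by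
    have h1 : hh ≤ C * hh := le_mul_of_one_le_left hh0.le hC
    linarith only [h1, hhC]
  have hkf0 : 0 < kf := by
    have h1 := (le_max_right _ _).trans hkf
    linarith only [h1, hs1, hy0, hsy]
  have hK0 : 0 ≤ k₁ + C + kf + lam + 3 := by
    linarith only [hk₁, hkf0, hC0, hlp]
  refine ⟨k₁ + C + 3 ^ r * Xc + kf + y₁ + lam + 3, r + 1, Pool.AJW.jfV r (-y₁) Xc, 0, fun _ => 0,
    fun j hj => ?_, fun j hj => absurd hj (Nat.not_lt_zero j), fun K' hK' => ?_⟩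
  · obtain ⟨h1, h2⟩ := Pool.AJW.jfV_mem (r := r) (vv := -y₁) (X := Xc) (by linarith only [hy0]) hXc0.le
      (show j ≤ r by omega)
    constructor <;> linarith only [h1, h2, hK0, h3X, hy0]
  have hK'0 : 0 < K' := by linarith only [hK', hK0, h3X, hy0]
  refine ⟨min (φ / 2) (X / 4), by positivity, fun ε hε hεε S g₀ P θ P₂ θ₂ Eb e₂ c Pt rt L T G g hG
    hg hder => ?_⟩
  have Kn : Pool.ALT.VbK r s y₁ δN C C' δ lam φ Xc dt X kf hh k₁ a ε :=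
    { s1 := hs1
      y1 := hy₁
      l0 := hlp
      ls := hlam
      φ0 := hφ0
      φ1 := hφ1
      φN := hφN
      φX := by
        rw [hXc]
        linarith only [hy0, hlp]
      sX := by
        rw [hXc]
        linarith only [hrφ, hφ0, hlp]
      lX := by
        rw [hXc]
        linarith only [hrφ, hφ0, hlp, hy0, hdtφ]
      X30 := h3X
      kX := (le_max_left _ _).trans hkf
      ks := (le_max_right _ _).trans hkf
      dt0 := hdt0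
      dtN := hdtN
      dtφ := hdtφ
      C1 := hC
      C'1 := hC'
      δ0 := hδ
      X0 := hX
      X2 := hX2
      Xδ := hXδ
      h0 := hh0
      hφ := hh1.trans (min_le_left _ _)
      h4 := hh1.trans ((min_le_right _ _).trans (min_le_left _ _))
      hC := hhC
      hX := hhX
      kk := hk₁
      ka := hak₁
      ε0 := hε
      εφ := by
        have h1 := hεε.trans (min_le_left _ _)
        linarith only [h1]
      εX := by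
        have h1 := hεε.trans (min_le_right _ _)
        linarith only [h1] }
  refine ⟨fun j => if j = 0 then Sum.inl () else Sum.inr (), 2, fun _ => 0, fun _ => 1,
    fun j _ => one_pos, fun k₀ hQ μ hμ => ?_⟩
  have hQ0 : Pool.W.V0F.ChUQ () (k₀ 0) S P θ c Pt rt L T κ G g := by
    have h1 := hQ 0 (by norm_num)
    simp only [if_true] at h1
    exact h1
  have hQ1 : Pool.V0F.AttUQ () (k₀ 1) S P θ c Pt rt L T κ G g := by
    have h1 := hQ 1 (by norm_num)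
    simp only [one_ne_zero, if_false] at h1
    exact h1
  refine ⟨(1 / 2) ^ k₀ 1 / (3 * K' + K₀), by positivity, ?_⟩
  intro q t x hq hx N A V Na Va S₁ hS₁ R hVa hpairs hwin N₁ N₂ vw hN₁ hN₂ hN3 hvs i j Rr g₂ Xa e₀
    π₀ Ψ w p₁ p₂ eN uN pN pa₁ pa₂ ea ua pa hi hj hVi hVj hyR H
  rw [lt_div_iff₀ (by positivity)] at hq
  have hq0 := R.q0
  have h9 : 0 < K' * q := mul_pos hK'0 hq0
  have h10 : 0 < K₀ * q := mul_pos hK₀ hq0
  -- the labels of the chain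
  obtain ⟨S', hsub, R', hlab⟩ := hlbf R hK'0 hVa (le_refl (3 * K' * q)) (fun k hk => by
      obtain ⟨rd, -, h2⟩ := hQ0 _ (R.memG.2 k hk)
      exact ⟨rd, h2.sub hS₁⟩) (fun k hk => by
      obtain ⟨rk, E, h1, h2, h3, h4, h5⟩ := hQ1 _ (R.memG.2 k hk) (by
        have h6 := R.near
        have h7 : |Va k * q| ≤ K' * q := by
          rw [abs_mul, abs_of_pos hq0]
          exact mul_le_mul_of_nonneg_right (hVa k hk) hq0.le
        have h8 : |t + Va k * q - g| ≤ |Va k * q| + |t - g| := by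
          have e1 : t + Va k * q - g = Va k * q + (t - g) := by ring
          rw [e1]
          exact abs_add_le _ _
        linarith only [h6, h7, h8, h9, hq])
      refine ⟨rk, E, h3, ?_, fun e he => ?_⟩
      · show E + L (r + 2 - 1) _ _ + 3 * K' * q ≤ 1
        linarith only [h4, h10, hq]
      · obtain ⟨K, hK⟩ := h5 e he
        exact ⟨K, hK.sub hS₁⟩)
  obtain ⟨E, rd, hE, hlb⟩ := hlab i hi
  have hSS : ∀ (τ : ℝ) (J : ℕ) (F : Pool.KA.Fam (r + 2) J) (A : F.Ω → Prop), S'.St τ J F A →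
      S.St τ J F A := fun τ J F A h => hS₁ τ J F A (hsub τ J F A h)
  have hCG : Pool.LA91.ChG S' c (r + 1) (fun l x => L l x x) G := ⟨fun w hw => by
    obtain ⟨rd, h1, h2⟩ := hQ0 w hw
    exact ⟨_, rd, h1, h2.sub hSS⟩⟩
  have hGt : t ∈ G := by
    have h1 := R.memG.2 j hj
    rwa [hVj, zero_mul, add_zero] at h1
  have hGw : ∀ k ≤ r, t + Pool.AJW.jfV r (-y₁) Xc k * q ∈ G := fun k hk => by
    obtain ⟨k', hk', e1⟩ := hwin k (by omega)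
    have h1 := R.memG.2 k' hk'
    rwa [e1] at h1
  rw [hVi] at hE hlb ⊢
  obtain ⟨Θ, t1, t2, t3, t4⟩ := Hv R' hκ hs Kn hK' hCG hGt hGw (fun l hl => hE l (by omega))
    (fun e he => by
      refine Pool.S6C.Bas.mono 0 (hlb e he) ?_
      rintro J - F A ⟨V, z, z', g, hg⟩
      exact ⟨V, z, z', g, fun l _ hl => hg l (by omega)⟩) hμ hVi hVj (H.sub hsub) hDr
  refine ⟨S', Θ, R'.ne, hsub, t1, t2, t3, fun κ' qf Pq hκ' hκ1 hPq hqf => ⟨2 * 1, by norm_num, ?_⟩⟩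
  rw [hs]
  exact t4 κ' qf Pq hκ' hκ1 hPq hqf

/-- **The velocity over the natural labels of a family of small rate.** -/
theorem vbY_of {r : ℕ} (hr : 1 ≤ r) {y a h hb : ℝ} {Sl : ℕ → ℝ} {κ : ℕ → Pool.PKG.Kg}
    (hκ : ∀ l < r, κ l = .one) (hs1 : 1 < Sl (r + 1)) (hb0 : 0 < hb) (hb1 : hb ≤ 1) :
    Pool.W.ALT.VbY r y a h hb Sl κ (Pool.LA91.sumQ (Pool.W.V0F.ChUQ : Pool.PKG.PropG (r + 2) Unit) (Pool.V0F.AttUQ : Pool.PKG.PropG (r + 2) Unit)) := by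
  intro al hal K₀ hK₀ S₀ hS₀
  obtain ⟨Kr, Nr, Ar, Vr, h1, h2, H⟩ := Pool.W.ALT.vbYb_of hr hκ hs1 hb0 hb1 (y := y) (a := a) (h := h) al hal
    K₀ hK₀ S₀ hS₀
  refine ⟨Kr, Nr, Ar, Vr, h1, h2, fun S₂ hS₂ D hD => ?_⟩
  obtain ⟨D₁, H⟩ := H S₂ hS₂ D hD
  refine ⟨D₁, fun Db h3 h4 => ?_⟩
  obtain ⟨Dr₀, H⟩ := H Db h3 h4
  refine ⟨Dr₀, fun Dr hDr C hC => ?_⟩
  obtain ⟨Dw₀, H⟩ := H Dr hDr C hC
  refine ⟨Dw₀, fun Dw hDw δ X₀ hδ hδ1 hX₀ => ?_⟩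
  obtain ⟨lam, rr, gg, dt, ℓ₀, kf₀, X₁, a1, a2, a3, a4, a5, a6, a7, H⟩ :=
    H Dw hDw δ X₀ hδ hδ1 hX₀ (Sl (r + 1)) le_rfl
  exact ⟨Sl (r + 1), lam, rr, gg, dt, ℓ₀, kf₀, X₁, by linarith only [hs1], a1, a2, a3, a4, a5, a6,
    a7, H⟩

end Pool.W.ALT
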