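import Pool.Agent.H42.D2.Hyf
import Pool.Agent.H31.W.H46.D2.NoLb
import Pool.Agent.H31.W.H60.D2.Rnd
import Pool.Agent.H31.W.H90.D2.Aff
import Pool.Agent.H3.W.Nlp

/-!
# Closed hyperplanes are labels over the curved frame

`rnd_ev`: the charts at two points of one cell of resolution `J`. `LPl`: the label of the coordinate
`c i` with the coefficients `v` in the heights over a frame. `frm_lab`: if the velocity of `c i` is an
affine function of the velocities of the coordinates before it, with closed visible coefficients, then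
this is a label of `c i`.
-/

set_option autoImplicit false

namespace Pool.W.NHZ

open Pool.NHZ

open Finset Real MvPolynomial
open Pool.Agent.H49.Ent Pool.Agent.H32.Dense Pool.STK Pool.KA Pool.KSAT Pool.K2S Pool.PB
open Pool.GEN Pool.D2R Pool.D2Z Pool.D2F Pool.D2G30 Pool.ISO Pool.CHT Pool.CHX Pool.V1E Pool.D2Con
open Pool.PB.Trl (rt rt_mem t_rt)
open Pool.NLB46 (Lab)

/-- **Rounding.** -/
theorem rnd_ev (D n : ℕ) : ∃ C : ℕ, 1 ≤ C ∧ ∀ {m J : ℕ} {c : ℕ → Fin m} {a e V : ℕ} {g : ℕ → ℕ}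
    {G : ℕ → MvPolynomial (Option (Fin m)) ℝ} {x x' : Option (Fin m) → ℝ},
    Set.InjOn c (Set.Iio n) → (∀ l, (G l).totalDegree ≤ D) → (∀ l, Pool.GEN.DepC c l (G l)) →
    (∀ l < n, ∀ b, Pool.GEN.NBx c G g a (x none) l b → ∀ j < l,
      |eval b (pderiv (some (c j)) (G l))| ≤ 2 ^ (e + Pool.W.GEN.nlp g j l)) →
    (∀ l < n, |x (some (c l)) - eval x (G l)| ≤ 1 / 2 ^ g l) → x' none = x none →
    (∀ k, |x' (some k) - x (some k)| ≤ 1 / 2 ^ J) → (∀ l < n, e + g l + V + C ≤ J) →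
    ∀ l < n, |eval x' (G l) - eval x (G l)| ≤ ((n : ℝ) + 1) ^ 2 * (1 / 2 ^ (g l + V)) := by
  obtain ⟨C, hC, hmv⟩ := Pool.W.D2Z.grd_move D n
  refine ⟨C, hC, ?_⟩
  intro m J c a e V g G x x' hc hdeg hdep hlip hpos h0 hx hJ l hl
  obtain ⟨δ, hδ⟩ : ∃ δ : Option (Fin m) → ℝ, δ = fun o => x' o - x o := ⟨_, rfl⟩
  have hδ0 : δ none = 0 := by
    rw [hδ]
    beta_reduce
    rw [h0, sub_self]
  have hδk : ∀ k, |δ (some k)| ≤ 1 / 2 ^ J := fun k => by
    rw [hδ]
    exact hx k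
  have hb : ∀ l < n, Pool.GEN.NBx c G g a (x none) l x := fun l hl => ⟨by
    rw [sub_self, abs_zero]
    positivity, fun j hj => hpos j (hj.trans hl)⟩
  -- the charts at the point
  have hcv : ∀ l < n, Pool.D2F.CvC c l (Pool.D2F.grd (G l) x) := fun l _ => Pool.D2Z.cvc_grd (hdep l) x
  have hll : ∀ l < n, ∀ j < l, |Pool.D2F.grd (G l) x (some (c j))| ≤ 2 ^ (e + Pool.W.GEN.nlp g j l) :=
    fun l hl j hj => hlip l hl x (hb l hl) j hj
  have hJV : ∀ l < n, ∀ j ≤ l, e + g j + V ≤ J := fun l hl j hj => by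
    have := hJ j (hj.trans_lt hl)
    omega
  have hinj : ∀ l < n, Set.InjOn c (Set.Iio l) := fun l hl =>
    hc.mono (Set.Iio_subset_Iio hl.le)
  have h1 : ∀ l < n, |Pool.D2R.dd (G l) x δ| ≤ l * (1 / 2 ^ (g l + V)) := fun l hl => by
    rw [← Pool.D2F.cv_grd]
    exact Pool.W.D2F.cv_small (hinj l hl) (hcv l hl) (hll l hl) hδ0 hδk (hJV l hl)
  have h2 : ∀ l < n, |δ (some (c l)) - Pool.D2R.dd (G l) x δ| ≤ (l + 1) * (1 / 2 ^ (g l + V)) :=
    fun l hl => by
    rw [← Pool.D2F.cv_grd]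
    exact Pool.W.D2F.ht_small (hinj l hl) (hcv l hl) (hll l hl) hδ0 hδk (hJV l hl)
  have h3 : Pool.D2R.nrm c G g a l x δ ≤ l * ((n : ℝ) * (1 / 2 ^ V)) := by
    unfold Pool.D2R.nrm
    rw [hδ0, abs_zero, mul_zero, zero_add]
    have h4 : ∀ j ∈ range l, 2 ^ g j * |δ (some (c j)) - Pool.D2R.dd (G j) x δ| ≤
        (n : ℝ) * (1 / 2 ^ V) := by
      intro j hj
      have hj' := Finset.mem_range.1 hj
      have h5 := mul_le_mul_of_nonneg_left (h2 j (hj'.trans hl))
        (by positivity : (0 : ℝ) ≤ 2 ^ g j)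
      refine h5.trans ?_
      have e1 : (2 : ℝ) ^ g j * (((j : ℝ) + 1) * (1 / 2 ^ (g j + V))) =
          ((j : ℝ) + 1) * (1 / 2 ^ V) := by
        rw [pow_add]
        field_simp
      rw [e1]
      refine mul_le_mul_of_nonneg_right ?_ (by positivity)
      have : j + 1 ≤ n := by omega
      exact_mod_cast this
    refine (Finset.sum_le_sum h4).trans (le_of_eq ?_)
    rw [Finset.sum_const, Finset.card_range, nsmul_eq_mul]
  -- the segment
  have h4 : ∀ u ∈ Set.Icc (0 : ℝ) 1, |Pool.D2R.dd (G l) (fun o => x o + u * δ o) δ| ≤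
      ((n : ℝ) + 1) ^ 2 * (1 / 2 ^ (g l + V)) := by
    intro u hu
    have h5 := hmv (G := G) (g := g) (a := a) (e := e) (J := J) (x := x)
      (x' := fun o => x o + u * δ o) hc hdeg hdep hlip hpos (by
        beta_reduce
        rw [hδ0, mul_zero, add_zero]) (fun k => by
        have e1 : x (some k) + u * δ (some k) - x (some k) = u * δ (some k) := by ring
        rw [e1, abs_mul, abs_of_nonneg hu.1]
        calc u * |δ (some k)| ≤ 1 * (1 / 2 ^ J) :=
              mul_le_mul hu.2 (hδk k) (abs_nonneg _) zero_le_one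
          _ = _ := one_mul _) (fun l hl => by
        have := hJ l hl
        omega) l hl δ
    have h6 := abs_add_le (Pool.D2R.dd (G l) (fun o => x o + u * δ o) δ - Pool.D2R.dd (G l) x δ) (Pool.D2R.dd (G l) x δ)
    rw [sub_add_cancel] at h6
    refine h6.trans ((add_le_add (h5.trans (mul_le_mul_of_nonneg_left h3 (by positivity)))
      (h1 l hl)).trans ?_)
    have e1 : (1 : ℝ) / 2 ^ g l * (l * ((n : ℝ) * (1 / 2 ^ V))) =
        (l * n : ℝ) * (1 / 2 ^ (g l + V)) := by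
      rw [pow_add]
      field_simp
    rw [e1, ← add_mul]
    refine mul_le_mul_of_nonneg_right ?_ (by positivity)
    have hln : (l : ℝ) ≤ n := by exact_mod_cast hl.le
    have hl0 : (0 : ℝ) ≤ l := Nat.cast_nonneg l
    have hn0 : (0 : ℝ) ≤ n := Nat.cast_nonneg n
    nlinarith
  have h5 := Pool.D2R.mv_seg (G l) x δ h4 1 ⟨zero_le_one, le_rfl⟩
  have e1 : (fun o => x o + 1 * δ o) = x' := by
    funext o
    rw [hδ]
    ring
  rw [e1] at h5
  exact h5

section lab

variable {m : ℕ}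


variable (c : ℕ → Fin m) (s : ℕ → ℕ) (w i : ℕ) (v : ℕ → ℝ)
  (P : ℕ → MvPolynomial (Option (Fin m)) ℝ)


end lab

end Pool.W.NHZ
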