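import Pool.Agent.H42.D2.Hyh
import Pool.Agent.H31.W.H42.D2.Hyf
import Pool.Agent.H3.W.Nlp
import Pool.Agent.H31.W1.H80.GEN.Chn

/-!
# Closed hyperplanes are labels over the curved frame: the label

`frm_ch`: the chain. `frm_lab`: the label.
-/

set_option autoImplicit false

namespace Pool.W.NHZ

open Pool.NHZ

open Finset Real MvPolynomial
open Pool.Agent.H49.Ent Pool.Agent.H32.Dense Pool.STK Pool.KA Pool.KSAT Pool.K2S Pool.PB
open Pool.GEN Pool.D2R Pool.D2Z Pool.D2F Pool.D2G30 Pool.ISO Pool.CHT Pool.CHX Pool.V1E Pool.D2Con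
open Pool.PB.Trl (rt rt_mem t_rt)
open Pool.NLB46 (Lab)

section lab

variable {m J : ℕ} {F : Pool.KA.Fam m J} {c : ℕ → Fin m} {r D n M ar MB q₀ Q x u p e : ℕ}
  {s : ℕ → ℕ} {qe : Fin r → ℕ} {o : ℕ → ℕ} {z g gc gT g₀ : ℕ → ℕ → ℕ} {B : F.Ω → Prop}
  {G T : ℕ → Pool.GEN.PtT F → ℕ → MvPolynomial (Option (Fin m)) ℝ}
  {H TH : ℕ → Pool.GEN.LnT F → ℕ → MvPolynomial (Option (Fin m)) ℝ}
  {Ht : Pool.GEN.LnT F → MvPolynomial (Option (Fin m)) ℝ}


/-- The exponents. -/
theorem nlp_num {g' : ℕ → ℕ} {i l x Q Gn : ℕ} {s : ℕ → ℕ} (hl : l < i)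
    (h1 : ∀ j ≤ i, g' j ≤ s j + Q + x) (h2 : ∀ j ≤ i, s j + Q ≤ g' j + 2 * x) :
    Pool.W.GEN.nlp g' l i ≤ Pool.W.GEN.nlp (fun j => if j < i then g' j else s i + Q + Gn) l i + (Gn + 3 * x) ∧
    (∀ j < i, l < j → s j + Pool.W.GEN.nlp g' l j ≤
      Pool.W.GEN.nlp (fun j => if j < i then g' j else s i + Q + Gn) l i + (Gn + 3 * x) + s i) ∧
    s l ≤ Pool.W.GEN.nlp (fun j => if j < i then g' j else s i + Q + Gn) l i + (Gn + 3 * x) + s i := by
  obtain ⟨gp, hgp⟩ : ∃ gp : ℕ → ℕ, gp = fun j => if j < i then g' j else s i + Q + Gn := ⟨_, rfl⟩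
  rw [← hgp]
  obtain ⟨T, hT⟩ : ∃ T, T = (Finset.range (i + 1)).sup gp := ⟨_, rfl⟩
  have hgpj : ∀ j < i, gp j = g' j := fun j hj => by
    rw [hgp]
    beta_reduce
    rw [if_pos hj]
  have hgpi : gp i = s i + Q + Gn := by
    rw [hgp]
    beta_reduce
    rw [if_neg (lt_irrefl i)]
  have hTx : ∀ j, j ≤ i → gp j ≤ T := fun j h4 => by
    rw [hT]
    exact Finset.le_sup (f := gp) (Finset.mem_range.2 (by omega))
  have hTi := hTx i le_rfl
  rw [hgpi] at hTi
  have e1 : Pool.W.GEN.nlp gp l i = T - (s i + Q + Gn) := by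
    unfold Pool.W.GEN.nlp
    rw [← hT, hgpi]
  rw [e1]
  have hS : ∀ j < i, l ≤ j → (Finset.range (j + 1)).sup g' ≤ T := by
    intro j hj hlj
    refine Finset.sup_le fun y hy => ?_
    rw [Finset.mem_range] at hy
    rw [← hgpj y (by omega)]
    exact hTx y (by omega)
  have hSi : (Finset.range (i + 1)).sup g' ≤ T + x := by
    refine Finset.sup_le fun y hy => ?_
    rw [Finset.mem_range] at hy
    rcases (Nat.lt_succ_iff.1 hy).lt_or_eq with h3 | h3
    · rw [← hgpj y h3]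
      exact (hTx y (by omega)).trans (Nat.le_add_right _ _)
    · rw [h3]
      have := h1 i le_rfl
      omega
  refine ⟨?_, fun j hj hlj => ?_, ?_⟩
  · have h3 : Pool.W.GEN.nlp g' l i = (Finset.range (i + 1)).sup g' - g' i := rfl
    rw [h3]
    have := h2 i le_rfl
    omega
  · have h3 : Pool.W.GEN.nlp g' l j = (Finset.range (j + 1)).sup g' - g' j := rfl
    have h4 := hS j hj hlj.le
    have h5 : g' j ≤ (Finset.range (j + 1)).sup g' :=
      Finset.le_sup (f := g') (Finset.mem_range.2 (by omega))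
    rw [h3]
    have := h2 j hj.le
    omega
  · have h3 := hTx l hl.le
    rw [hgpj l hl] at h3
    have := h2 l hl.le
    omega

/-- **The gradient of the label.** -/
theorem lip_LPl {i N Gn : ℕ} {v : ℕ → ℝ} {P : ℕ → MvPolynomial (Option (Fin m)) ℝ}
    {g' : ℕ → ℕ} (hc : Set.InjOn c (Set.Iio (i + 1))) (hdep : ∀ j, Pool.GEN.DepC c j (P j))
    (hv : ∀ j, |v j| ≤ 2 ^ N) (h1 : ∀ j ≤ i, g' j ≤ s j + Q + x)
    (h2 : ∀ j ≤ i, s j + Q ≤ g' j + 2 * x) {w : ℕ} (κ : ℝ) {b : Option (Fin m) → ℝ}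
    (hb : ∀ j ≤ i, ∀ l < j, |eval b (pderiv (some (c l)) (P j))| ≤ 2 ^ (e + Pool.W.GEN.nlp g' l j))
    (hir : i < r) {l : ℕ} (hl : l < i) :
    |eval b (pderiv (some (c l)) (Pool.NHZ.LPl c s w i v P κ))| ≤
      2 ^ (e + (N + Gn + 3 * x + r) +
        Pool.W.GEN.nlp (fun j => if j < i then g' j else s i + Q + Gn) l i) := by
  obtain ⟨n1, n2, n3⟩ := Pool.W.NHZ.nlp_num (Gn := Gn) hl h1 h2
  obtain ⟨E, hE⟩ : ∃ E, E = Pool.W.GEN.nlp (fun j => if j < i then g' j else s i + Q + Gn) l i := ⟨_, rfl⟩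
  rw [← hE] at n1 n2 n3 ⊢
  rw [Pool.NHZ.pd_LPl]
  have hsi : (0 : ℝ) < 2 ^ s i := by positivity
  obtain ⟨Y, hY⟩ : ∃ Y : ℝ, Y = 2 ^ (e + (N + Gn + 3 * x) + E) := ⟨_, rfl⟩
  have hY0 : 0 < Y := by rw [hY]; positivity
  have a1 : |eval b (pderiv (some (c l)) (P i))| ≤ Y := by
    refine (hb i le_rfl l hl).trans ?_
    rw [hY]
    refine pow_le_pow_right₀ (by norm_num) ?_
    omega
  have a2 : ∀ j ∈ range i, |v (j + 1) * 2 ^ s j *
      ((if c j = c l then 1 else 0) - eval b (pderiv (some (c l)) (P j)))| ≤ 2 ^ s i * Y := by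
    intro j hj
    have hj' := Finset.mem_range.1 hj
    rw [abs_mul, abs_mul, abs_of_pos (by positivity : (0 : ℝ) < 2 ^ s j)]
    have hvj := hv (j + 1)
    rcases lt_trichotomy j l with h3 | h3 | h3
    · have e1 : c j ≠ c l := fun h4 => by
        have := hc (Set.mem_Iio.2 (by omega)) (Set.mem_Iio.2 (by omega)) h4
        omega
      rw [if_neg e1, Pool.D2R.pd_zero (hdep j) (fun y hy h4 => by
        have := hc (Set.mem_Iio.2 (by omega)) (Set.mem_Iio.2 (by omega)) h4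
        omega) b, sub_zero, abs_zero, mul_zero]
      positivity
    · subst h3
      rw [if_pos rfl, Pool.D2R.pd_zero (hdep j) (fun y hy h4 => by
        have := hc (Set.mem_Iio.2 (by omega)) (Set.mem_Iio.2 (by omega)) h4
        omega) b, sub_zero, abs_one, mul_one]
      calc |v (j + 1)| * 2 ^ s j ≤ 2 ^ N * 2 ^ s j :=
            mul_le_mul_of_nonneg_right hvj (by positivity)
        _ = 2 ^ (N + s j) := (pow_add _ _ _).symm
        _ ≤ 2 ^ (s i + (e + (N + Gn + 3 * x) + E)) := by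
            refine pow_le_pow_right₀ (by norm_num) ?_
            omega
        _ = 2 ^ s i * Y := by rw [pow_add, hY]
    · have e1 : c j ≠ c l := fun h4 => by
        have := hc (Set.mem_Iio.2 (by omega)) (Set.mem_Iio.2 (by omega)) h4
        omega
      rw [if_neg e1, zero_sub, abs_neg]
      have h5 := hb j hj'.le l h3
      have h6 := n2 j hj' h3
      calc |v (j + 1)| * 2 ^ s j * |eval b (pderiv (some (c l)) (P j))| ≤
            2 ^ N * 2 ^ s j * 2 ^ (e + Pool.W.GEN.nlp g' l j) :=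
            mul_le_mul (mul_le_mul_of_nonneg_right hvj (by positivity)) h5 (abs_nonneg _)
              (by positivity)
        _ = 2 ^ (N + s j + (e + Pool.W.GEN.nlp g' l j)) := by rw [← pow_add, ← pow_add]
        _ ≤ 2 ^ (s i + (e + (N + Gn + 3 * x) + E)) := by
            refine pow_le_pow_right₀ (by norm_num) ?_
            omega
        _ = 2 ^ s i * Y := by rw [pow_add, hY]
  have a3 : |1 / 2 ^ s i * ∑ j ∈ range i, v (j + 1) * 2 ^ s j *
      ((if c j = c l then 1 else 0) - eval b (pderiv (some (c l)) (P j)))| ≤ i * Y := by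
    rw [abs_mul, abs_of_pos (by positivity : (0 : ℝ) < 1 / 2 ^ s i)]
    have h3 := (Finset.abs_sum_le_sum_abs _ _).trans (Finset.sum_le_sum a2)
    rw [Finset.sum_const, Finset.card_range, nsmul_eq_mul] at h3
    refine (mul_le_mul_of_nonneg_left h3 (by positivity)).trans (le_of_eq ?_)
    field_simp
  refine (abs_add_le _ _).trans ((add_le_add a1 a3).trans ?_)
  have h4 : Y + i * Y ≤ 2 ^ r * Y := by
    have h5 : ((i + 1 : ℕ) : ℝ) ≤ ((2 ^ r : ℕ) : ℝ) := by
      exact_mod_cast (Nat.succ_le_of_lt hir).trans (Nat.lt_two_pow_self (n := r)).le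
    push_cast at h5
    have := mul_le_mul_of_nonneg_right h5 hY0.le
    linarith
  refine h4.trans (le_of_eq ?_)
  rw [hY, ← pow_add]
  congr 1
  omega

end lab


end Pool.W.NHZ
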