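import Pool.Agent.H42.D2.Nhn
import Pool.Agent.H31.W.H42.D2.Hyh
import Pool.Agent.H3.W.Nlp
import Pool.Agent.H31.W1.H2.GEN.ChT
import Pool.Agent.H31.W1.H80.GEN.Chn

/-!
# The velocities are in no closed hyperplane: the frame alone

`FrN`: the data of the frame. `own_frm`, `frm_ch`, `frm_lab`, `xe_bd`, `hyp_frm`: the theorems of
`Hyg`, `Hyh`, `Hyi` for these data.
-/

set_option autoImplicit false

namespace Pool.W.NHN

open Pool.NHN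

open Finset Real MvPolynomial
open Pool.Agent.H49.Ent Pool.Agent.H32.Dense Pool.STK Pool.KA Pool.KSAT Pool.K2S Pool.PB
open Pool.S6C Pool.GEN Pool.D2R Pool.D2Z Pool.D2F Pool.D2G30 Pool.ISO Pool.CHT Pool.CHX Pool.V1E
open Pool.D2Con Pool.NHZ
open Pool.PB.Trl (rt rt_mem t_rt)
open Pool.NLB46 (Lab lab_ev)
open Pool.LBT (ThrOf)
open Pool.JVE (pe_sum)

/-- **The data of the frame**, for the hyperplanes. -/
structure FrN {m J : ℕ} (F : Pool.KA.Fam m J) (c : ℕ → Fin m) (r D MB q₀ Q x u e : ℕ)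
    (s : ℕ → ℕ) (qe : Fin r → ℕ) (o : ℕ → ℕ) (g g₀ : ℕ → ℕ → ℕ) (B : F.Ω → Prop)
    (G : ℕ → Pool.GEN.PtT F → ℕ → MvPolynomial (Option (Fin m)) ℝ)
    (H : ℕ → Pool.GEN.LnT F → ℕ → MvPolynomial (Option (Fin m)) ℝ) : Prop where
  hc : Set.InjOn c (Set.Iio (r + 1))
  o1 : o 1 = o 0 + q₀
  o2 : o 2 = o 1 + Q
  o3 : o 2 ≤ o 3
  oJ : o 3 ≤ J
  dG : ∀ k y l, (G k y l).totalDegree ≤ D
  pG : ∀ k y l, Pool.GEN.DepC c l (G k y l)
  dH : ∀ k s l, (H k s l).totalDegree ≤ D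
  cl0 : ∀ ω, B ω → ∀ l < r, G 0 (Pool.PB.ptr F J ω) l = H 0 (Pool.KSAT.slam F (o 0) ω) l
  own0 : ∀ ω, B ω → ∀ l < r, ∀ τ ∈ Set.Icc (0 : ℝ) 1,
    |(Pool.GEN.dv (o 0) (fun s _ => H 0 s l) (c l) (Pool.KSAT.slam F (o 0) ω)).eval τ| ≤ 2 ^ u / 2 ^ g₀ 0 l
  n0 : ∀ j < r, s j ≤ g₀ 0 j + q₀ + x
  n2b : ∀ j < r, s j + Q ≤ g₀ 2 j + x
  n2c : ∀ j < r, g₀ 2 j ≤ g 0 j + (o 2 - o 0) + x
  n2d : ∀ j < r, g 0 j + (o 2 - o 0) ≤ s j + Q + x
  q0M : MB + Q ≤ q₀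
  qeM : ∀ i, MB + Q ≤ qe i
  rad0 : Pool.W.GEN.ChOK F c r (fun _ => D) (o 2) (o 0) e (fun l => g 0 l + (o 2 - o 0)) B
    (fun y l => Pool.GEN.Gno (c l) J J (fun y => G 0 y l) y) (fun s l => Pool.GEN.Hno (c l) (fun s => H 0 s l) s)

section own

variable {m J : ℕ} {F : Pool.KA.Fam m J} {c : ℕ → Fin m} {r D MB q₀ Q x u e : ℕ}
  {s : ℕ → ℕ} {qe : Fin r → ℕ} {o : ℕ → ℕ} {g g₀ : ℕ → ℕ → ℕ} {B : F.Ω → Prop}
  {G : ℕ → Pool.GEN.PtT F → ℕ → MvPolynomial (Option (Fin m)) ℝ}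
  {H : ℕ → Pool.GEN.LnT F → ℕ → MvPolynomial (Option (Fin m)) ℝ}

theorem FrN.hcr (W : Pool.W.NHN.FrN F c r D MB q₀ Q x u e s qe o g g₀ B G H) :
    Set.InjOn c (Set.Iio r) := W.hc.mono fun y hy => by
  rw [Set.mem_Iio] at hy ⊢
  omega

/-- The frame of the line is the frame of the point. -/
theorem FrN.fr (W : Pool.W.NHN.FrN F c r D MB q₀ Q x u e s qe o g g₀ B G H)
    {ω : F.Ω} (hω : B ω) :
    Pool.V1E.frH F r q₀ (H 0) (Pool.KSAT.slam F (o 1) ω) = Pool.V1E.trn r (G 0 (Pool.PB.ptr F J ω)) := by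
  have h1 : Pool.D2R.co q₀ (Pool.KSAT.slam F (o 1) ω) = Pool.KSAT.slam F (o 0) ω := by
    have h2 := Pool.D2R.co_slam F (w := o 0) (a := o 1) (by rw [W.o1]; omega)
      (by have := W.oJ; have := W.o3; have := W.o2; omega) ω
    rwa [W.o1, Nat.add_sub_cancel_left, ← W.o1] at h2
  funext l
  unfold Pool.V1E.frH Pool.V1E.trn
  split_ifs with hl
  · rw [h1, W.cl0 ω hω l hl]
  · rfl

theorem FrN.crn (W : Pool.W.NHN.FrN F c r D MB q₀ Q x u e s qe o g g₀ B G H)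
    (ω : F.Ω) : Pool.V1E.crF F c s r (o 1) Q (G 0) ω =
      fun i => ⌊2 ^ Q * Pool.V1E.yp c s r (Pool.V1E.trn r (G 0 (Pool.PB.ptr F J ω))) (Pool.GEN.bt F ω) (some i)⌋ := by
  have h1J : o 1 ≤ J := by have := W.oJ; have := W.o3; have := W.o2; omega
  funext i
  unfold Pool.V1E.crF Pool.V1E.cL
  rw [Pool.V1E.hL_yp h1J]

/-- The form at the sample, by the heights. -/
theorem fvl_eq (W : Pool.W.NHN.FrN F c r D MB q₀ Q x u e s qe o g g₀ B G H)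
    {ω : F.Ω} (hω : B ω) {i : ℕ} (hi : i < r) (v : ℕ → ℝ) :
    Pool.NHZ.fvl c s (o 1) i v (G 0 (Pool.PB.ptr F J ω)) (Pool.GEN.bt F ω) =
      (Pool.V1E.hL c s r (o 1) (Pool.V1E.frH F r q₀ (H 0) (Pool.KSAT.slam F (o 1) ω)) (Pool.KSAT.slam F (o 1) ω)
        (some ⟨i, hi⟩)).eval (Pool.PB.Trl.rt F (o 1) ω) -
      ∑ j ∈ range i, v (j + 1) * (if hj : j < r then
        (Pool.V1E.hL c s r (o 1) (Pool.V1E.frH F r q₀ (H 0) (Pool.KSAT.slam F (o 1) ω)) (Pool.KSAT.slam F (o 1) ω)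
          (some ⟨j, hj⟩)).eval (Pool.PB.Trl.rt F (o 1) ω) else 0) -
      v 0 * (((Pool.KSAT.slam F (o 1) ω).2.2 : ℝ) + Pool.PB.Trl.rt F (o 1) ω) := by
  have h1J : o 1 ≤ J := by have := W.oJ; have := W.o3; have := W.o2; omega
  unfold Pool.NHZ.fvl
  have e1 : ∀ (j : ℕ) (hj : j < r), (Pool.V1E.hL c s r (o 1) (Pool.V1E.frH F r q₀ (H 0) (Pool.KSAT.slam F (o 1) ω))
      (Pool.KSAT.slam F (o 1) ω) (some ⟨j, hj⟩)).eval (Pool.PB.Trl.rt F (o 1) ω) =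
      2 ^ s j * (Pool.GEN.bt F ω (some (c j)) - eval (Pool.GEN.bt F ω) (G 0 (Pool.PB.ptr F J ω) j)) := by
    intro j hj
    rw [W.fr hω, Pool.V1E.hL_yp h1J]
    show 2 ^ s j * (Pool.GEN.bt F ω (some (c j)) - eval (Pool.GEN.bt F ω) (Pool.V1E.trn r (G 0 (Pool.PB.ptr F J ω)) j)) = _
    rw [Pool.V1E.trn_eq hj]
  rw [e1 i hi]
  have e2 : (2 : ℝ) ^ o 1 * Pool.GEN.bt F ω none = ((Pool.KSAT.slam F (o 1) ω).2.2 : ℝ) + Pool.PB.Trl.rt F (o 1) ω := by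
    have h := Pool.PB.Trl.t_rt F h1J ω
    show (2 : ℝ) ^ o 1 * F.t ω = _
    rw [h]
    field_simp
  rw [e2]
  congr 2
  refine Finset.sum_congr rfl fun j hj => ?_
  have hj' : j < r := (Finset.mem_range.1 hj).trans hi
  rw [dif_pos hj', e1 j hj']

/-- **The form along the own line**, on one window of the ball. -/
theorem own_frm (D : ℕ) : ∃ C : ℝ, 1 ≤ C ∧ ∀ {m J : ℕ} {F : Pool.KA.Fam m J} {c : ℕ → Fin m}
    {r MB q₀ Q x u e : ℕ} {s : ℕ → ℕ} {qe : Fin r → ℕ} {o : ℕ → ℕ}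
    {g g₀ : ℕ → ℕ → ℕ} {B : F.Ω → Prop}
    {G : ℕ → Pool.GEN.PtT F → ℕ → MvPolynomial (Option (Fin m)) ℝ}
    {H : ℕ → Pool.GEN.LnT F → ℕ → MvPolynomial (Option (Fin m)) ℝ},
    Pool.W.NHN.FrN F c r D MB q₀ Q x u e s qe o g g₀ B G H →
    ∀ {ω ω' : F.Ω}, B ω → B ω' → Pool.KSAT.slam F (o 2) ω = Pool.KSAT.slam F (o 2) ω' → ∀ (i : Fin r)
    (v : Fin (r + 1) → ℝ) {Mv ε : ℝ}, 0 ≤ Mv → (∀ j, |v j| ≤ Mv) →
    |Pool.V1E.Xe r qe (Pool.V1E.eL c s r (o 1) qe (Pool.V1E.frH F r q₀ (H 0) (Pool.KSAT.slam F (o 1) ω)) (Pool.KSAT.slam F (o 1) ω)) i.succ -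
      ∑ j, (if j < i.succ then v j * Pool.V1E.Xe r qe (Pool.V1E.eL c s r (o 1) qe
        (Pool.V1E.frH F r q₀ (H 0) (Pool.KSAT.slam F (o 1) ω)) (Pool.KSAT.slam F (o 1) ω)) j else 0)| ≤ ε →
    |Pool.NHZ.fvl c s (o 1) i (Pool.NHZ.vN v) (G 0 (Pool.PB.ptr F J ω)) (Pool.GEN.bt F ω) -
      Pool.NHZ.fvl c s (o 1) i (Pool.NHZ.vN v) (G 0 (Pool.PB.ptr F J ω')) (Pool.GEN.bt F ω')| ≤
      (ε + (1 + r * Mv) * (C * 2 ^ (u + x) / 2 ^ q₀ + 1 / 2 ^ (MB + Q))) / 2 ^ Q := by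
  obtain ⟨C, hC, hhn⟩ := Pool.V1E.hL_near D
  refine ⟨C, hC, ?_⟩
  intro m J F c r MB q₀ Q x u e s qe o g g₀ B G H W ω ω' hω hω' hsl i v Mv ε
    hMv hv hε
  have h1J : o 1 ≤ J := by have := W.oJ; have := W.o3; have := W.o2; omega
  have h2J : o 2 ≤ J := by have := W.oJ; have := W.o3; omega
  have h12 : o 1 ≤ o 2 := by have := W.o2; omega
  have hs1 : Pool.KSAT.slam F (o 1) ω = Pool.KSAT.slam F (o 1) ω' := by
    rw [Pool.PB.slam_coarse F h12 h2J ω, Pool.PB.slam_coarse F h12 h2J ω', hsl]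
  obtain ⟨L, hL'⟩ : ∃ L, L = Pool.KSAT.slam F (o 1) ω := ⟨_, rfl⟩
  obtain ⟨P, hP⟩ : ∃ P, P = Pool.V1E.frH F r q₀ (H 0) L := ⟨_, rfl⟩
  obtain ⟨h, hh⟩ : ∃ h : ℕ → Polynomial ℝ, h = fun j => if hj : j < r then
    Pool.V1E.hL c s r (o 1) P L (some ⟨j, hj⟩) else 0 := ⟨_, rfl⟩
  -- the polynomial
  obtain ⟨Φ, hΦ⟩ : ∃ Φ : Polynomial ℝ, Φ = h i - ∑ j ∈ range i, Polynomial.C (Pool.NHZ.vN v (j + 1)) * h j -
    Polynomial.C (Pool.NHZ.vN v 0) * (Polynomial.C ((L.2.2 : ℕ) : ℝ) + Polynomial.X) := ⟨_, rfl⟩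
  have hev : ∀ ν, B ν → Pool.KSAT.slam F (o 1) ν = L →
      Pool.NHZ.fvl c s (o 1) i (Pool.NHZ.vN v) (G 0 (Pool.PB.ptr F J ν)) (Pool.GEN.bt F ν) = Φ.eval (Pool.PB.Trl.rt F (o 1) ν) := by
    intro ν hν hLν
    rw [Pool.W.NHN.fvl_eq W hν i.isLt, hLν, ← hP, hΦ, Polynomial.eval_sub, Polynomial.eval_sub,
      Polynomial.eval_finset_sum, Polynomial.eval_mul, Polynomial.eval_add, Polynomial.eval_C,
      Polynomial.eval_C, Polynomial.eval_X]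
    congr 2
    · rw [hh]
      beta_reduce
      rw [dif_pos i.isLt]
    · refine Finset.sum_congr rfl fun j hj => ?_
      have hj' : j < r := (Finset.mem_range.1 hj).trans i.isLt
      rw [Polynomial.eval_mul, Polynomial.eval_C, hh]
      beta_reduce
      rw [dif_pos hj', dif_pos hj']
  have hcoL : Pool.D2R.co q₀ L = Pool.KSAT.slam F (o 0) ω := by
    have h2 := Pool.D2R.co_slam F (w := o 0) (a := o 1) (by have := W.o1; omega) h1J ω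
    rw [hL']
    rwa [W.o1, Nat.add_sub_cancel_left, ← W.o1] at h2
  -- the derivatives
  obtain ⟨Δ, hΔ⟩ : ∃ Δ : ℝ, Δ = C * 2 ^ (u + x) / 2 ^ q₀ + 1 / 2 ^ (MB + Q) := ⟨_, rfl⟩
  have hΔ0 : 0 ≤ Δ := by
    rw [hΔ]
    positivity
  obtain ⟨y, hy⟩ : ∃ y : ℕ → ℝ, y = fun j => if hj : j < r then
    ((Pool.V1E.eL c s r (o 1) qe P L ⟨j, hj⟩ : ℤ) : ℝ) / 2 ^ qe ⟨j, hj⟩ else 0 := ⟨_, rfl⟩
  have hder : ∀ j < r, ∀ τ ∈ Set.Icc (0 : ℝ) 1,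
      |(Polynomial.derivative (h j)).eval τ - y j| ≤ Δ := by
    intro j hj τ hτ
    have h3 := (hhn (F := F) (c := c) (s := s) (d := r) (wb := o 0) (q₀ := q₀) (H₀ := H 0)
      (L := L) (M := 2 ^ u / 2 ^ g₀ 0 j) (i := ⟨j, hj⟩) (W.dH 0 _ _) (by
        rw [hcoL]
        exact W.own0 ω hω j hj) τ hτ).2.1
    rw [← W.o1, ← hP] at h3
    have h4 : |(Polynomial.derivative (Pool.V1E.hL c s r (o 1) P L (some ⟨j, hj⟩))).eval 0 - y j| ≤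
        1 / 2 ^ (MB + Q) := by
      have e1 : y j = ((⌊2 ^ qe ⟨j, hj⟩ * (Polynomial.derivative (Pool.V1E.hL c s r (o 1) P L
          (some ⟨j, hj⟩))).eval 0⌋ : ℤ) : ℝ) / 2 ^ qe ⟨j, hj⟩ := by
        rw [hy]
        beta_reduce
        rw [dif_pos hj]
        rfl
      obtain ⟨f, hf⟩ : ∃ f, f = (Polynomial.derivative (Pool.V1E.hL c s r (o 1) P L
        (some ⟨j, hj⟩))).eval 0 := ⟨_, rfl⟩
      rw [e1, ← hf]
      have h5 := Int.floor_le ((2 : ℝ) ^ qe ⟨j, hj⟩ * f)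
      have h6 := (Int.lt_floor_add_one ((2 : ℝ) ^ qe ⟨j, hj⟩ * f)).le
      have h7 : (0 : ℝ) < 2 ^ qe ⟨j, hj⟩ := by positivity
      have h8 : (1 : ℝ) / 2 ^ qe ⟨j, hj⟩ ≤ 1 / 2 ^ (MB + Q) :=
        one_div_le_one_div_of_le (by positivity) (pow_le_pow_right₀ (by norm_num) (W.qeM _))
      refine le_trans ?_ h8
      have e2 : f - ((⌊2 ^ qe ⟨j, hj⟩ * f⌋ : ℤ) : ℝ) / 2 ^ qe ⟨j, hj⟩ =
          (2 ^ qe ⟨j, hj⟩ * f - ((⌊2 ^ qe ⟨j, hj⟩ * f⌋ : ℤ) : ℝ)) / 2 ^ qe ⟨j, hj⟩ := by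
        field_simp
      rw [e2, abs_div, abs_of_pos h7]
      refine div_le_div_of_nonneg_right ?_ h7.le
      rw [abs_le]
      constructor <;> linarith
    have h5 : C * (2 ^ s j * (2 ^ u / 2 ^ g₀ 0 j) / 2 ^ q₀) / 2 ^ q₀ ≤
        C * 2 ^ (u + x) / 2 ^ q₀ := by
      refine div_le_div_of_nonneg_right (mul_le_mul_of_nonneg_left ?_ (by linarith))
        (by positivity)
      rw [← mul_div_assoc, div_div, ← pow_add, ← pow_add, div_le_iff₀ (by positivity), ← pow_add]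
      refine pow_le_pow_right₀ (by norm_num) ?_
      have := W.n0 j hj
      omega
    have e3 : h j = Pool.V1E.hL c s r (o 1) P L (some ⟨j, hj⟩) := by
      rw [hh]
      beta_reduce
      rw [dif_pos hj]
    rw [e3]
    have h6 := abs_sub_le ((Polynomial.derivative (Pool.V1E.hL c s r (o 1) P L (some ⟨j, hj⟩))).eval τ)
      ((Polynomial.derivative (Pool.V1E.hL c s r (o 1) P L (some ⟨j, hj⟩))).eval 0) (y j)
    rw [hΔ]
    linarith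
  have hXe : ∀ j : Fin r, Pool.V1E.Xe r qe (Pool.V1E.eL c s r (o 1) qe P L) j.succ = y j := by
    intro j
    rw [hy]
    beta_reduce
    rw [dif_pos j.isLt]
    rfl
  rw [← hL', ← hP, hXe i, Pool.NHZ.sum_piv i v _ y rfl hXe] at hε
  have hdΦ : ∀ τ ∈ Set.Icc (0 : ℝ) 1, |(Polynomial.derivative Φ).eval τ| ≤
      ε + (1 + r * Mv) * Δ := by
    intro τ hτ
    have e1 : (Polynomial.derivative Φ).eval τ = (y i - (Pool.NHZ.vN v 0 + ∑ j ∈ range i,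
        Pool.NHZ.vN v (j + 1) * y j)) + ((Polynomial.derivative (h i)).eval τ - y i) -
        ∑ j ∈ range i, Pool.NHZ.vN v (j + 1) * ((Polynomial.derivative (h j)).eval τ - y j) := by
      rw [hΦ]
      simp only [Polynomial.derivative_sub, Polynomial.derivative_sum, Polynomial.derivative_mul,
        Polynomial.derivative_C, Polynomial.derivative_add, Polynomial.derivative_X, zero_mul,
        zero_add, mul_one, Polynomial.eval_sub, Polynomial.eval_finset_sum, Polynomial.eval_mul,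
        Polynomial.eval_C]
      have e2 : ∑ j ∈ range i, Pool.NHZ.vN v (j + 1) * ((Polynomial.derivative (h j)).eval τ - y j) =
          ∑ j ∈ range i, Pool.NHZ.vN v (j + 1) * (Polynomial.derivative (h j)).eval τ -
            ∑ j ∈ range i, Pool.NHZ.vN v (j + 1) * y j := by
        rw [← Finset.sum_sub_distrib]
        exact Finset.sum_congr rfl fun j _ => by ring
      rw [e2]
      ring
    rw [e1]
    have h3 := hder i i.isLt τ hτ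
    have h4 : |∑ j ∈ range i, Pool.NHZ.vN v (j + 1) * ((Polynomial.derivative (h j)).eval τ - y j)| ≤
        r * Mv * Δ := by
      refine (Finset.abs_sum_le_sum_abs _ _).trans ?_
      have h5 : ∀ j ∈ range i, |Pool.NHZ.vN v (j + 1) * ((Polynomial.derivative (h j)).eval τ - y j)| ≤
          Mv * Δ := by
        intro j hj
        rw [abs_mul]
        exact mul_le_mul (Pool.NHZ.vN_le hMv hv _) (hder j ((Finset.mem_range.1 hj).trans i.isLt) τ hτ)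
          (abs_nonneg _) hMv
      refine (Finset.sum_le_sum h5).trans ?_
      rw [Finset.sum_const, Finset.card_range, nsmul_eq_mul, mul_assoc]
      refine mul_le_mul_of_nonneg_right ?_ (by positivity)
      exact_mod_cast i.isLt.le
    refine (abs_sub _ _).trans ((add_le_add ((abs_add_le _ _).trans (add_le_add hε h3)) h4).trans
      (le_of_eq (by ring)))
  rw [hev ω hω hL'.symm, hev ω' hω' (by rw [← hs1, ← hL']), ← hΔ]
  refine (Pool.NHZ.pl_mv Φ hdΦ (Pool.PB.Trl.rt_mem F (o 1) ω) (Pool.PB.Trl.rt_mem F (o 1) ω')).trans ?_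
  rw [div_eq_mul_one_div]
  refine mul_le_mul_of_nonneg_left ?_ ((abs_nonneg _).trans (hdΦ 0 ⟨le_rfl, zero_le_one⟩))
  -- the times
  have t1 := Pool.PB.Trl.t_rt F h1J ω
  have t2 := Pool.PB.Trl.t_rt F h1J ω'
  have t3 := Pool.PB.Trl.t_rt F h2J ω
  have t4 := Pool.PB.Trl.t_rt F h2J ω'
  rw [← hs1] at t2
  rw [← hsl] at t4
  have m1 := Pool.PB.Trl.rt_mem F (o 2) ω
  have m2 := Pool.PB.Trl.rt_mem F (o 2) ω'
  have p1 : (0 : ℝ) < 2 ^ o 1 := by positivity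
  have p2 : (0 : ℝ) < 2 ^ o 2 := by positivity
  have pQ : (0 : ℝ) < 2 ^ Q := by positivity
  have e1 : Pool.PB.Trl.rt F (o 1) ω - Pool.PB.Trl.rt F (o 1) ω' = 2 ^ o 1 * (F.t ω - F.t ω') := by
    rw [t1, t2]
    field_simp
    ring
  have e2 : F.t ω - F.t ω' = (Pool.PB.Trl.rt F (o 2) ω - Pool.PB.Trl.rt F (o 2) ω') / 2 ^ o 2 := by
    rw [t3, t4]
    field_simp
    ring
  rw [e1, e2, W.o2, pow_add]
  have e3 : (2 : ℝ) ^ o 1 * ((Pool.PB.Trl.rt F (o 2) ω - Pool.PB.Trl.rt F (o 2) ω') / (2 ^ o 1 * 2 ^ Q)) =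
      (Pool.PB.Trl.rt F (o 2) ω - Pool.PB.Trl.rt F (o 2) ω') / 2 ^ Q := by
    field_simp
  rw [W.o2] at m1 m2
  rw [W.o2] at e3
  rw [e3, abs_div, abs_of_pos pQ]
  refine div_le_div_of_nonneg_right ?_ pQ.le
  rw [abs_le]
  constructor <;> linarith [m1.1, m1.2, m2.1, m2.2]

/-- **The chain**, over a window behind the ball. -/
theorem frm_ch (W : Pool.W.NHN.FrN F c r D MB q₀ Q x u e s qe o g g₀ B G H)
    {i e' w : ℕ} (hi : i ≤ r) {B₁ : F.Ω → Prop} (hB : Pool.K2S.Sub B₁ B) (he : e ≤ e') (hw : o 2 ≤ w)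
    (hwJ : w ≤ J) :
    Pool.W.GEN.ChOK F c i (fun _ => D) w w e' (fun l => g 0 l + (o 2 - o 0)) B₁
      (fun y l => Pool.GEN.Gno (c l) J J (fun y => G 0 y l) y)
      (fun s l => Pool.GEN.Hno (c l) (fun s => H 0 s l) (Pool.D2R.co (w - o 0) s)) := by
  have hR := W.rad0
  have h02 : o 0 ≤ w := by have := W.o1; have := W.o2; omega
  refine ⟨hR.degG, fun s l => hR.degH _ l, hR.depG, fun s l => hR.depH _ l,
    fun ω hω l hl => hR.pos ω (hB ω hω) l (by omega), fun ω hω l hl b hb => ?_,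
    fun ω hω l hl b hb j hj => ?_⟩
  · have h1 := hR.agr ω (hB ω hω) l (by omega) b (Pool.GEN.NBx.mono hb hw le_rfl)
    beta_reduce at h1 ⊢
    rw [Pool.D2R.co_slam F h02 hwJ]
    exact h1
  · exact (hR.lip ω (hB ω hω) l (by omega) b (Pool.GEN.NBx.mono hb hw le_rfl) j hj).trans
      (pow_le_pow_right₀ (by norm_num) (by omega))

end own

/-- **The label.** -/
theorem frm_lab (D r : ℕ) : ∃ C : ℕ, ∀ {m J : ℕ} {F : Pool.KA.Fam m J} {c : ℕ → Fin m}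
    {MB q₀ Q x u e : ℕ} {s : ℕ → ℕ} {qe : Fin r → ℕ} {o : ℕ → ℕ}
    {g g₀ : ℕ → ℕ → ℕ} {B : F.Ω → Prop}
    {G : ℕ → Pool.GEN.PtT F → ℕ → MvPolynomial (Option (Fin m)) ℝ}
    {H : ℕ → Pool.GEN.LnT F → ℕ → MvPolynomial (Option (Fin m)) ℝ},
    Pool.W.NHN.FrN F c r D MB q₀ Q x u e s qe o g g₀ B G H →
    ∀ {B₁ : F.Ω → Prop}, Pool.K2S.Sub B₁ B → ∀ {w : ℕ}, o 2 ≤ w → w ≤ J → ∀ {ζ : Type} {Z : F.Ω → ζ},
    (∀ ω ω', B₁ ω → B₁ ω' → Pool.PB.ptr F J ω = Pool.PB.ptr F J ω' → Z ω = Z ω') →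
    (∀ ω ω', B₁ ω → B₁ ω' → Pool.KSAT.slam F w ω = Pool.KSAT.slam F w ω' → Z ω = Z ω') →
    ∀ (i : Fin r) (v : ζ → Fin (r + 1) → ℝ) {N Gn : ℕ}, (∀ ω, B₁ ω → ∀ j, |v (Z ω) j| ≤ 2 ^ N) →
    (∀ ω, B₁ ω →
      |Pool.V1E.Xe r qe (Pool.V1E.eL c s r (o 1) qe (Pool.V1E.frH F r q₀ (H 0) (Pool.KSAT.slam F (o 1) ω)) (Pool.KSAT.slam F (o 1) ω)) i.succ -
      ∑ j, (if j < i.succ then v (Z ω) j * Pool.V1E.Xe r qe (Pool.V1E.eL c s r (o 1) qe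
        (Pool.V1E.frH F r q₀ (H 0) (Pool.KSAT.slam F (o 1) ω)) (Pool.KSAT.slam F (o 1) ω)) j else 0)| ≤ 1 / 2 ^ (Gn + 2)) →
    C * (u + x + 1) + N + Gn ≤ MB →
    (∀ l < r, e + s l + Q + (C * (u + x + 1) + N + Gn) ≤ J) →
    ∃ (Gt : Pool.GEN.PtT F → MvPolynomial (Option (Fin m)) ℝ)
      (Ht' : Pool.GEN.LnT F → MvPolynomial (Option (Fin m)) ℝ),
      Pool.W.NLB46.Lab F c i (D + 1) w w (e + (N + Gn + 3 * x + r)) (s i + Q + Gn)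
        (fun l => g 0 l + (o 2 - o 0)) (fun y l => Pool.GEN.Gno (c l) J J (fun y => G 0 y l) y) B₁ Gt Ht' := by
  classical
  obtain ⟨C₁, hC₁, hrnd⟩ := Pool.W.NHZ.rnd_ev D r
  obtain ⟨C₀, hC₀, hown⟩ := Pool.W.NHN.own_frm D
  obtain ⟨N₁, hN₁⟩ := pow_unbounded_of_one_lt ((1 + ((r : ℝ) + 1) ^ 2) * (1 + r))
    (one_lt_two (α := ℝ))
  obtain ⟨N₂, hN₂⟩ := pow_unbounded_of_one_lt ((C₀ + 1) * (1 + (r : ℝ))) (one_lt_two (α := ℝ))
  refine ⟨C₁ + N₁ + N₂ + 8, ?_⟩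
  intro m J F c MB q₀ Q x u e s qe o g g₀ B G H W B₁ hB w hw2 hwJ ζ Z hZp
    hZs i v N Gn hv hX hMB hJ
  obtain ⟨CC, hCC⟩ : ∃ CC, CC = (C₁ + N₁ + N₂ + 8) * (u + x + 1) := ⟨_, rfl⟩
  rw [← hCC] at hMB
  simp only [← hCC] at hJ
  have hCC1 : C₁ + N₁ + N₂ + 8 ≤ CC := by
    rw [hCC]
    exact Nat.le_mul_of_pos_right _ (by omega)
  have hCCx : 8 * x + C₁ + N₁ ≤ CC := by
    rw [hCC]
    nlinarith [Nat.zero_le (C₁ * u), Nat.zero_le (C₁ * x), Nat.zero_le (N₁ * u),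
      Nat.zero_le (N₁ * x), Nat.zero_le (N₂ * u), Nat.zero_le (N₂ * x), Nat.zero_le N₂]
  have hCCu : N₂ + u + x + 2 ≤ CC := by
    rw [hCC]
    nlinarith [Nat.zero_le (C₁ * u), Nat.zero_le (C₁ * x), Nat.zero_le (N₁ * u),
      Nat.zero_le (N₁ * x), Nat.zero_le (N₂ * u), Nat.zero_le (N₂ * x), Nat.zero_le C₁,
      Nat.zero_le N₁]
  have h1J : o 1 ≤ J := by have := W.oJ; have := W.o3; have := W.o2; omega
  have h2J : o 2 ≤ J := by have := W.oJ; have := W.o3; omega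
  have h02 : o 0 ≤ o 2 := by have := W.o1; have := W.o2; omega
  have h12 : o 1 ≤ o 2 := by have := W.o2; omega
  obtain ⟨g', hg'⟩ : ∃ g' : ℕ → ℕ, g' = fun l => g 0 l + (o 2 - o 0) := ⟨_, rfl⟩
  have hg1 : ∀ j < r, g' j ≤ s j + Q + x := fun j hj => by
    rw [hg']
    exact W.n2d j hj
  have hg2 : ∀ j < r, s j + Q ≤ g' j + 2 * x := fun j hj => by
    rw [hg']
    have h3 := W.n2b j hj
    have h4 := W.n2c j hj
    show s j + Q ≤ g 0 j + (o 2 - o 0) + 2 * x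
    omega
  have hdeg : ∀ (y : Pool.GEN.PtT F) (l : ℕ), (Pool.GEN.Gno (c l) J J (fun y => G 0 y l) y).totalDegree ≤ D :=
    fun y l => W.rad0.degG y l
  have hdep : ∀ (y : Pool.GEN.PtT F) (l : ℕ), Pool.GEN.DepC c l (Pool.GEN.Gno (c l) J J (fun y => G 0 y l) y) :=
    fun y l => W.rad0.depG y l
  -- rounding of one height
  have hrh : ∀ ω ω', B₁ ω → B₁ ω' → Pool.PB.ptr F J ω = Pool.PB.ptr F J ω' → ∀ j < r,
      |2 ^ s j * (Pool.GEN.bt F ω' (some (c j)) - eval (Pool.GEN.bt F ω') (G 0 (Pool.PB.ptr F J ω) j)) -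
        2 ^ s j * (Pool.GEN.bt F ω (some (c j)) - eval (Pool.GEN.bt F ω) (G 0 (Pool.PB.ptr F J ω) j))| ≤
      (1 + ((r : ℝ) + 1) ^ 2) * (1 / 2 ^ (Q + (N + Gn + N₁ + 1))) := by
    intro ω ω' hω hω' hpp j hj
    obtain ⟨-, hn0, hxk⟩ := Pool.D2R.bt_near hpp
    have h3 := hrnd (J := J) (c := c) (a := o 2) (e := e) (V := N + Gn + N₁ + 1 + 2 * x) (g := g')
      (G := fun l => Pool.GEN.Gno (c l) J J (fun y => G 0 y l) (Pool.PB.ptr F J ω)) (x := Pool.GEN.bt F ω)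
      (x' := Pool.GEN.bt F ω') W.hcr (hdeg _) (hdep _) (fun l hl b hb k hk => by
        rw [hg']
        rw [hg'] at hb
        exact W.rad0.lip ω (hB ω hω) l (by omega) b hb k hk) (fun l hl => by
        rw [hg']
        exact W.rad0.pos ω (hB ω hω) l (by omega)) hn0.symm (fun k => by
        rw [abs_sub_comm]
        exact hxk k) (fun l hl => by
        have h4 := hJ l hl
        have h5 := hg1 l hl
        omega) j hj
    have e1 : ∀ b : Option (Fin m) → ℝ, eval b (Pool.GEN.Gno (c j) J J (fun y => G 0 y j) (Pool.PB.ptr F J ω)) =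
        eval b (G 0 (Pool.PB.ptr F J ω) j) + (((Pool.PB.ptr F J ω).1 (c j) : ℝ) / 2 ^ J -
          eval (Pool.GEN.bho J J (Pool.PB.ptr F J ω)) (G 0 (Pool.PB.ptr F J ω) j)) := fun b => by
      unfold Pool.GEN.Gno
      rw [map_add, eval_C]
    beta_reduce at h3
    rw [e1, e1] at h3
    have h4 : |Pool.GEN.bt F ω' (some (c j)) - Pool.GEN.bt F ω (some (c j))| ≤ 1 / 2 ^ J := by
      rw [abs_sub_comm]
      exact hxk (c j)
    obtain ⟨P1, hP1⟩ : ∃ P1, P1 = eval (Pool.GEN.bt F ω') (G 0 (Pool.PB.ptr F J ω) j) := ⟨_, rfl⟩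
    obtain ⟨P0, hP0⟩ : ∃ P0, P0 = eval (Pool.GEN.bt F ω) (G 0 (Pool.PB.ptr F J ω) j) := ⟨_, rfl⟩
    obtain ⟨K, hK⟩ : ∃ K : ℝ, K = ((Pool.PB.ptr F J ω).1 (c j) : ℝ) / 2 ^ J -
      eval (Pool.GEN.bho J J (Pool.PB.ptr F J ω)) (G 0 (Pool.PB.ptr F J ω) j) := ⟨_, rfl⟩
    rw [← hP1, ← hP0, ← hK] at h3
    rw [← hP1, ← hP0]
    have e2 : P1 + K - (P0 + K) = P1 - P0 := by ring
    rw [e2] at h3
    have hsj : (0 : ℝ) < 2 ^ s j := by positivity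
    rw [← mul_sub, abs_mul, abs_of_pos hsj]
    have e3 : Pool.GEN.bt F ω' (some (c j)) - P1 - (Pool.GEN.bt F ω (some (c j)) - P0) =
        (Pool.GEN.bt F ω' (some (c j)) - Pool.GEN.bt F ω (some (c j))) - (P1 - P0) := by ring
    rw [e3]
    have h5 := (abs_sub (Pool.GEN.bt F ω' (some (c j)) - Pool.GEN.bt F ω (some (c j))) (P1 - P0)).trans
      (add_le_add h4 h3)
    have h6 : (2 : ℝ) ^ s j * (1 / 2 ^ J) ≤ 1 / 2 ^ (Q + (N + Gn + N₁ + 1)) := by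
      rw [mul_one_div, div_le_div_iff₀ (by positivity) (by positivity), one_mul, ← pow_add]
      refine pow_le_pow_right₀ (by norm_num) ?_
      have := hJ j hj
      omega
    have h7 : (2 : ℝ) ^ s j * (1 / 2 ^ (g' j + (N + Gn + N₁ + 1 + 2 * x))) ≤
        1 / 2 ^ (Q + (N + Gn + N₁ + 1)) := by
      rw [mul_one_div, div_le_div_iff₀ (by positivity) (by positivity), one_mul, ← pow_add]
      refine pow_le_pow_right₀ (by norm_num) ?_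
      have := hg2 j hj
      omega
    have h8 := mul_le_mul_of_nonneg_left h5 hsj.le
    have h9 := mul_le_mul_of_nonneg_left h7 (by positivity : (0 : ℝ) ≤ ((r : ℝ) + 1) ^ 2)
    refine h8.trans ?_
    have e4 : (2 : ℝ) ^ s j * (1 / 2 ^ J + ((r : ℝ) + 1) ^ 2 *
        (1 / 2 ^ (g' j + (N + Gn + N₁ + 1 + 2 * x)))) = 2 ^ s j * (1 / 2 ^ J) +
        ((r : ℝ) + 1) ^ 2 * (2 ^ s j * (1 / 2 ^ (g' j + (N + Gn + N₁ + 1 + 2 * x)))) := by ring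
    rw [e4]
    linarith
  -- rounding of the form
  have hrf : ∀ ω ω', B₁ ω → B₁ ω' → Pool.PB.ptr F J ω = Pool.PB.ptr F J ω' →
      |Pool.NHZ.fvl c s (o 1) i (Pool.NHZ.vN (v (Z ω))) (G 0 (Pool.PB.ptr F J ω)) (Pool.GEN.bt F ω') -
        Pool.NHZ.fvl c s (o 1) i (Pool.NHZ.vN (v (Z ω))) (G 0 (Pool.PB.ptr F J ω)) (Pool.GEN.bt F ω)| ≤
      1 / 2 ^ (Q + Gn + 1) := by
    intro ω ω' hω hω' hpp
    obtain ⟨-, hn0, -⟩ := Pool.D2R.bt_near hpp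
    obtain ⟨a, ha⟩ : ∃ a : ℕ → ℝ, a = fun j =>
      2 ^ s j * (Pool.GEN.bt F ω' (some (c j)) - eval (Pool.GEN.bt F ω') (G 0 (Pool.PB.ptr F J ω) j)) := ⟨_, rfl⟩
    obtain ⟨b, hb⟩ : ∃ b : ℕ → ℝ, b = fun j =>
      2 ^ s j * (Pool.GEN.bt F ω (some (c j)) - eval (Pool.GEN.bt F ω) (G 0 (Pool.PB.ptr F J ω) j)) := ⟨_, rfl⟩
    obtain ⟨ρ, hρ⟩ : ∃ ρ : ℝ, ρ = (1 + ((r : ℝ) + 1) ^ 2) *
      (1 / 2 ^ (Q + (N + Gn + N₁ + 1))) := ⟨_, rfl⟩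
    have hρ0 : 0 ≤ ρ := by
      rw [hρ]
      positivity
    have hab : ∀ j < r, |a j - b j| ≤ ρ := fun j hj => by
      rw [ha, hb, hρ]
      exact hrh ω ω' hω hω' hpp j hj
    have e1 : Pool.NHZ.fvl c s (o 1) i (Pool.NHZ.vN (v (Z ω))) (G 0 (Pool.PB.ptr F J ω)) (Pool.GEN.bt F ω') -
        Pool.NHZ.fvl c s (o 1) i (Pool.NHZ.vN (v (Z ω))) (G 0 (Pool.PB.ptr F J ω)) (Pool.GEN.bt F ω) =
        (a i - b i) - ∑ j ∈ range i, Pool.NHZ.vN (v (Z ω)) (j + 1) * (a j - b j) := by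
      unfold Pool.NHZ.fvl
      rw [← hn0, ha, hb]
      have e2 : ∀ a b : ℕ → ℝ, ∑ j ∈ range i, Pool.NHZ.vN (v (Z ω)) (j + 1) * (a j - b j) =
          ∑ j ∈ range i, Pool.NHZ.vN (v (Z ω)) (j + 1) * a j -
            ∑ j ∈ range i, Pool.NHZ.vN (v (Z ω)) (j + 1) * b j := by
        intro a b
        rw [← Finset.sum_sub_distrib]
        exact Finset.sum_congr rfl fun j _ => by ring
      rw [e2]
      ring
    rw [e1]
    have h3 : |∑ j ∈ range i, Pool.NHZ.vN (v (Z ω)) (j + 1) * (a j - b j)| ≤ r * (2 ^ N * ρ) := by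
      refine (Finset.abs_sum_le_sum_abs _ _).trans ?_
      have h5 : ∀ j ∈ range i, |Pool.NHZ.vN (v (Z ω)) (j + 1) * (a j - b j)| ≤ 2 ^ N * ρ := by
        intro j hj
        rw [abs_mul]
        exact mul_le_mul (Pool.NHZ.vN_le (by positivity) (hv ω hω) _)
          (hab j ((Finset.mem_range.1 hj).trans i.isLt)) (abs_nonneg _) (by positivity)
      refine (Finset.sum_le_sum h5).trans ?_
      rw [Finset.sum_const, Finset.card_range, nsmul_eq_mul]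
      refine mul_le_mul_of_nonneg_right ?_ (by positivity)
      exact_mod_cast i.isLt.le
    have h4 := (abs_sub (a i - b i) (∑ j ∈ range i, Pool.NHZ.vN (v (Z ω)) (j + 1) * (a j - b j))).trans
      (add_le_add (hab i i.isLt) h3)
    refine h4.trans ?_
    have hN1 : (1 : ℝ) ≤ 2 ^ N := one_le_pow₀ (by norm_num)
    have h5 : ρ + r * (2 ^ N * ρ) ≤ (1 + r) * 2 ^ N * ρ := by
      have h6 : ρ ≤ 2 ^ N * ρ := le_mul_of_one_le_left hρ0 hN1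
      have e2 : (1 + (r : ℝ)) * 2 ^ N * ρ = 2 ^ N * ρ + r * (2 ^ N * ρ) := by ring
      rw [e2]
      linarith
    refine h5.trans ?_
    have e3 : (1 + (r : ℝ)) * 2 ^ N * ρ = ((1 + ((r : ℝ) + 1) ^ 2) * (1 + r)) *
        (2 ^ N / 2 ^ (Q + (N + Gn + N₁ + 1))) := by
      rw [hρ]
      ring
    rw [e3]
    refine (mul_le_mul_of_nonneg_right hN₁.le (by positivity)).trans (le_of_eq ?_)
    rw [← mul_div_assoc, ← pow_add, div_eq_div_iff (by positivity) (by positivity), one_mul,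
      ← pow_add]
    congr 1
    omega
  -- the own line
  have hof : ∀ ω ω', B₁ ω → B₁ ω' → Pool.KSAT.slam F w ω = Pool.KSAT.slam F w ω' →
      |Pool.NHZ.fvl c s (o 1) i (Pool.NHZ.vN (v (Z ω))) (G 0 (Pool.PB.ptr F J ω)) (Pool.GEN.bt F ω) -
        Pool.NHZ.fvl c s (o 1) i (Pool.NHZ.vN (v (Z ω))) (G 0 (Pool.PB.ptr F J ω')) (Pool.GEN.bt F ω')| ≤ 1 / 2 ^ (Q + Gn + 1) := by
    intro ω ω' hω hω' hsl'
    have hsl : Pool.KSAT.slam F (o 2) ω = Pool.KSAT.slam F (o 2) ω' := by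
      rw [Pool.PB.slam_coarse F hw2 hwJ ω, Pool.PB.slam_coarse F hw2 hwJ ω', hsl']
    refine (hown W (hB ω hω) (hB ω' hω') hsl i (v (Z ω)) (Mv := 2 ^ N) (by positivity) (hv ω hω)
      (hX ω hω)).trans ?_
    have hq0 := W.q0M
    have h3 : C₀ * 2 ^ (u + x) / 2 ^ q₀ + 1 / 2 ^ (MB + Q) ≤
        (C₀ + 1) * (2 ^ (u + x) / 2 ^ (MB + Q)) := by
      have h4 : C₀ * 2 ^ (u + x) / 2 ^ q₀ ≤ C₀ * (2 ^ (u + x) / 2 ^ (MB + Q)) := by
        rw [mul_div_assoc]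
        refine mul_le_mul_of_nonneg_left ?_ (by linarith)
        exact div_le_div_of_nonneg_left (by positivity) (by positivity)
          (pow_le_pow_right₀ (by norm_num) hq0)
      have h5 : (1 : ℝ) / 2 ^ (MB + Q) ≤ 2 ^ (u + x) / 2 ^ (MB + Q) :=
        div_le_div_of_nonneg_right (one_le_pow₀ (by norm_num)) (by positivity)
      linarith
    have h4 : (1 + (r : ℝ) * 2 ^ N) * (C₀ * 2 ^ (u + x) / 2 ^ q₀ + 1 / 2 ^ (MB + Q)) ≤
        1 / 2 ^ (Gn + 2) := by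
      have hN1 : (1 : ℝ) ≤ 2 ^ N := one_le_pow₀ (by norm_num)
      have h5 : 1 + (r : ℝ) * 2 ^ N ≤ (1 + r) * 2 ^ N := by linarith
      have h6 : (1 + (r : ℝ) * 2 ^ N) * (C₀ * 2 ^ (u + x) / 2 ^ q₀ + 1 / 2 ^ (MB + Q)) ≤
          (1 + r) * 2 ^ N * ((C₀ + 1) * (2 ^ (u + x) / 2 ^ (MB + Q))) :=
        mul_le_mul h5 h3 (by positivity) (by positivity)
      refine h6.trans ?_
      have e3 : (1 + (r : ℝ)) * 2 ^ N * ((C₀ + 1) * (2 ^ (u + x) / 2 ^ (MB + Q))) =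
          (C₀ + 1) * (1 + r) * (2 ^ N * 2 ^ (u + x) / 2 ^ (MB + Q)) := by ring
      rw [e3]
      refine (mul_le_mul_of_nonneg_right hN₂.le (by positivity)).trans ?_
      rw [← mul_div_assoc, ← pow_add, ← pow_add, div_le_div_iff₀ (by positivity) (by positivity),
        ← pow_add, one_mul]
      refine pow_le_pow_right₀ (by norm_num) ?_
      omega
    have h5 : (1 : ℝ) / 2 ^ (Gn + 2) + 1 / 2 ^ (Gn + 2) = 1 / 2 ^ (Gn + 1) := by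
      rw [pow_succ 2 (Gn + 1)]
      field_simp
      norm_num
    have h6 : (1 : ℝ) / 2 ^ (Gn + 2) + (1 + r * 2 ^ N) * (C₀ * 2 ^ (u + x) / 2 ^ q₀ +
        1 / 2 ^ (MB + Q)) ≤ 1 / 2 ^ (Gn + 1) := by linarith
    refine (div_le_div_of_nonneg_right h6 (by positivity)).trans (le_of_eq ?_)
    rw [div_div, ← pow_add]
    congr 2
    omega
  -- the label
  obtain ⟨Gt, hGt⟩ : ∃ Gt : Pool.GEN.PtT F → MvPolynomial (Option (Fin m)) ℝ, Gt = fun y =>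
    if hy : ∃ ω, B₁ ω ∧ Pool.PB.ptr F J ω = y then Pool.NHZ.LPl c s (o 1) i (Pool.NHZ.vN (v (Z hy.choose)))
      (G 0 (Pool.PB.ptr F J hy.choose)) (Pool.NHZ.fvl c s (o 1) i (Pool.NHZ.vN (v (Z hy.choose)))
        (G 0 (Pool.PB.ptr F J hy.choose)) (Pool.GEN.bt F hy.choose)) else 0 := ⟨_, rfl⟩
  obtain ⟨Hs, hHs⟩ : ∃ Hs : Pool.GEN.LnT F → MvPolynomial (Option (Fin m)) ℝ, Hs = fun y =>
    if hy : ∃ ω, B₁ ω ∧ Pool.KSAT.slam F w ω = y then Pool.NHZ.LPl c s (o 1) i (Pool.NHZ.vN (v (Z hy.choose)))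
      (G 0 (Pool.PB.ptr F J hy.choose)) (Pool.NHZ.fvl c s (o 1) i (Pool.NHZ.vN (v (Z hy.choose)))
        (G 0 (Pool.PB.ptr F J hy.choose)) (Pool.GEN.bt F hy.choose)) else 0 := ⟨_, rfl⟩
  have hGe : ∀ ω, B₁ ω → ∃ ω', B₁ ω' ∧ Pool.PB.ptr F J ω' = Pool.PB.ptr F J ω ∧ Gt (Pool.PB.ptr F J ω) =
      Pool.NHZ.LPl c s (o 1) i (Pool.NHZ.vN (v (Z ω))) (G 0 (Pool.PB.ptr F J ω)) (Pool.NHZ.fvl c s (o 1) i (Pool.NHZ.vN (v (Z ω)))
        (G 0 (Pool.PB.ptr F J ω)) (Pool.GEN.bt F ω')) := by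
    intro ω hω
    have hy : ∃ ω', B₁ ω' ∧ Pool.PB.ptr F J ω' = Pool.PB.ptr F J ω := ⟨ω, hω, rfl⟩
    obtain ⟨k1, k2⟩ := hy.choose_spec
    refine ⟨hy.choose, k1, k2, ?_⟩
    rw [hGt]
    beta_reduce
    rw [dif_pos hy, hZp _ _ k1 hω k2, k2]
  have hHe : ∀ ω, B₁ ω → ∃ ω', B₁ ω' ∧ Pool.KSAT.slam F w ω' = Pool.KSAT.slam F w ω ∧
      Hs (Pool.KSAT.slam F w ω) = Pool.NHZ.LPl c s (o 1) i (Pool.NHZ.vN (v (Z ω))) (G 0 (Pool.PB.ptr F J ω))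
        (Pool.NHZ.fvl c s (o 1) i (Pool.NHZ.vN (v (Z ω))) (G 0 (Pool.PB.ptr F J ω')) (Pool.GEN.bt F ω')) := by
    intro ω hω
    have hy : ∃ ω', B₁ ω' ∧ Pool.KSAT.slam F w ω' = Pool.KSAT.slam F w ω := ⟨ω, hω, rfl⟩
    obtain ⟨k1, k2⟩ := hy.choose_spec
    refine ⟨hy.choose, k1, k2, ?_⟩
    rw [hHs]
    beta_reduce
    rw [dif_pos hy, hZs _ _ k1 hω k2]
    refine Pool.NHZ.LPl_congr (fun j hj => ?_) _
    have hjr : j < r := lt_of_le_of_lt hj i.isLt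
    rw [W.cl0 _ (hB _ k1) j hjr, W.cl0 _ (hB _ hω) j hjr,
      Pool.PB.slam_coarse F (h02.trans hw2) hwJ hy.choose, Pool.PB.slam_coarse F (h02.trans hw2) hwJ ω, k2]
  have hsi : (0 : ℝ) < 2 ^ s i.val := by positivity
  refine ⟨Gt, Hs, ?_, ?_, ?_, ?_, ?_, ?_, ?_⟩
  · intro y
    rw [hGt]
    beta_reduce
    split_ifs with hy
    · exact Pool.NHZ.deg_LPl c s (o 1) i _ _ (fun j => W.dG 0 _ j) _
    · rw [totalDegree_zero]
      exact Nat.zero_le _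
  · intro y
    rw [hHs]
    beta_reduce
    split_ifs with hy
    · exact Pool.NHZ.deg_LPl c s (o 1) i _ _ (fun j => W.dG 0 _ j) _
    · rw [totalDegree_zero]
      exact Nat.zero_le _
  · intro y
    rw [hGt]
    beta_reduce
    split_ifs with hy
    · exact Pool.NHZ.dep_LPl c s (o 1) i _ _ (fun j => W.pG 0 _ j) _
    · intro b b' _ _
      rw [map_zero, map_zero]
  · intro y
    rw [hHs]
    beta_reduce
    split_ifs with hy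
    · exact Pool.NHZ.dep_LPl c s (o 1) i _ _ (fun j => W.pG 0 _ j) _
    · intro b b' _ _
      rw [map_zero, map_zero]
  · intro ω hω
    obtain ⟨ω', k1, k2, k3⟩ := hGe ω hω
    rw [k3]
    show |Pool.GEN.bt F ω (some (c i)) - _| ≤ _
    rw [Pool.NHZ.eval_LPl, abs_div, abs_of_pos hsi, abs_sub_comm]
    refine (div_le_div_of_nonneg_right (hrf ω ω' hω k1 k2.symm) hsi.le).trans ?_
    rw [div_div, ← pow_add]
    exact one_div_le_one_div_of_le (by positivity) (pow_le_pow_right₀ (by norm_num) (by omega))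
  · intro ω hω b _
    obtain ⟨ω', k1, k2, k3⟩ := hGe ω hω
    obtain ⟨ω'', k4, k5, k6⟩ := hHe ω hω
    rw [k3, k6]
    have e1 := Pool.NHZ.eval_LPl c s (o 1) i (Pool.NHZ.vN (v (Z ω))) (G 0 (Pool.PB.ptr F J ω))
      (Pool.NHZ.fvl c s (o 1) i (Pool.NHZ.vN (v (Z ω))) (G 0 (Pool.PB.ptr F J ω)) (Pool.GEN.bt F ω')) b
    have e2 := Pool.NHZ.eval_LPl c s (o 1) i (Pool.NHZ.vN (v (Z ω))) (G 0 (Pool.PB.ptr F J ω))
      (Pool.NHZ.fvl c s (o 1) i (Pool.NHZ.vN (v (Z ω))) (G 0 (Pool.PB.ptr F J ω'')) (Pool.GEN.bt F ω'')) b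
    have e3 : ∀ X Y : MvPolynomial (Option (Fin m)) ℝ, eval b X - eval b Y =
        (b (some (c i)) - eval b Y) - (b (some (c i)) - eval b X) := fun X Y => by ring
    rw [e3, e1, e2, ← sub_div, abs_div, abs_of_pos hsi]
    have h3 := hrf ω ω' hω k1 k2.symm
    have h4 := hof ω ω'' hω k4 k5.symm
    obtain ⟨f, hf⟩ : ∃ f, f = Pool.NHZ.fvl c s (o 1) i (Pool.NHZ.vN (v (Z ω))) (G 0 (Pool.PB.ptr F J ω)) (Pool.GEN.bt F ω) := ⟨_, rfl⟩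
    obtain ⟨f1, hf1⟩ : ∃ f1, f1 = Pool.NHZ.fvl c s (o 1) i (Pool.NHZ.vN (v (Z ω))) (G 0 (Pool.PB.ptr F J ω))
      (Pool.GEN.bt F ω') := ⟨_, rfl⟩
    obtain ⟨f2, hf2⟩ : ∃ f2, f2 = Pool.NHZ.fvl c s (o 1) i (Pool.NHZ.vN (v (Z ω))) (G 0 (Pool.PB.ptr F J ω''))
      (Pool.GEN.bt F ω'') := ⟨_, rfl⟩
    obtain ⟨fb, hfb⟩ : ∃ fb, fb = Pool.NHZ.fvl c s (o 1) i (Pool.NHZ.vN (v (Z ω))) (G 0 (Pool.PB.ptr F J ω)) b := ⟨_, rfl⟩
    rw [← hf, ← hf1] at h3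
    rw [← hf, ← hf2] at h4
    rw [← hf1, ← hf2, ← hfb]
    have h5 : |fb - f2 - (fb - f1)| ≤ 1 / 2 ^ (Q + Gn) := by
      have e4 : fb - f2 - (fb - f1) = (f1 - f) + (f - f2) := by ring
      rw [e4]
      refine (abs_add_le _ _).trans ((add_le_add h3 h4).trans (le_of_eq ?_))
      rw [pow_succ]
      field_simp
      norm_num
    refine (div_le_div_of_nonneg_right h5 hsi.le).trans (le_of_eq ?_)
    rw [div_div, ← pow_add]
    congr 2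
    omega
  · intro ω hω b hb l hl
    obtain ⟨ω', k1, k2, k3⟩ := hGe ω hω
    rw [k3]
    have h3 := Pool.W.NHZ.lip_LPl (e := e) (Q := Q) (x := x) (s := s) (r := r) (i := i.val) (N := N) (Gn := Gn)
      (v := Pool.NHZ.vN (v (Z ω))) (P := G 0 (Pool.PB.ptr F J ω)) (g' := g') (w := o 1) (b := b) (l := l)
      (W.hc.mono (Set.Iio_subset_Iio (by have := i.isLt; omega))) (fun j => W.pG 0 _ j)
      (Pool.NHZ.vN_le (by positivity) (hv ω hω)) (fun j hj => hg1 j (lt_of_le_of_lt hj i.isLt))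
      (fun j hj => hg2 j (lt_of_le_of_lt hj i.isLt))
      (Pool.NHZ.fvl c s (o 1) i (Pool.NHZ.vN (v (Z ω))) (G 0 (Pool.PB.ptr F J ω)) (Pool.GEN.bt F ω')) (fun j hj k hk => by
        have h4 := W.rad0.lip ω (hB ω hω) j (by have := i.isLt; omega) b
          (Pool.GEN.NBx.mono hb hw2 hj) k hk
        beta_reduce at h4
        rw [Pool.NHZ.pd_Gno] at h4
        rw [hg']
        exact h4) i.isLt hl
    rw [hg'] at h3
    exact h3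

/-- **The velocities are natural.** -/
theorem xe_bd (D : ℕ) : ∃ C : ℕ, ∀ {m J : ℕ} {F : Pool.KA.Fam m J} {c : ℕ → Fin m}
    {r MB q₀ Q x u e : ℕ} {s : ℕ → ℕ} {qe : Fin r → ℕ} {o : ℕ → ℕ}
    {g g₀ : ℕ → ℕ → ℕ} {B : F.Ω → Prop}
    {G : ℕ → Pool.GEN.PtT F → ℕ → MvPolynomial (Option (Fin m)) ℝ}
    {H : ℕ → Pool.GEN.LnT F → ℕ → MvPolynomial (Option (Fin m)) ℝ},
    Pool.W.NHN.FrN F c r D MB q₀ Q x u e s qe o g g₀ B G H →
    ∀ {ω : F.Ω}, B ω → ∀ j, |Pool.V1E.Xe r qe (Pool.V1E.eL c s r (o 1) qe (Pool.V1E.frH F r q₀ (H 0) (Pool.KSAT.slam F (o 1) ω))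
      (Pool.KSAT.slam F (o 1) ω)) j| ≤ 2 ^ (C + u + x) := by
  obtain ⟨C₀, hC₀, hhn⟩ := Pool.V1E.hL_near D
  obtain ⟨C, hC⟩ := pow_unbounded_of_one_lt (C₀ + 1) (one_lt_two (α := ℝ))
  refine ⟨C, ?_⟩
  intro m J F c r MB q₀ Q x u e s qe o g g₀ B G H W ω hω j
  have h1J : o 1 ≤ J := by have := W.oJ; have := W.o3; have := W.o2; omega
  obtain ⟨L, hL'⟩ : ∃ L, L = Pool.KSAT.slam F (o 1) ω := ⟨_, rfl⟩
  obtain ⟨P, hP⟩ : ∃ P, P = Pool.V1E.frH F r q₀ (H 0) L := ⟨_, rfl⟩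
  rw [← hL', ← hP]
  refine Fin.cases ?_ (fun j => ?_) j
  · show |(1 : ℝ)| ≤ _
    rw [abs_one]
    exact one_le_pow₀ (by norm_num)
  have hcoL : Pool.D2R.co q₀ L = Pool.KSAT.slam F (o 0) ω := by
    have h2 := Pool.D2R.co_slam F (w := o 0) (a := o 1) (by have := W.o1; omega) h1J ω
    rw [hL']
    rwa [W.o1, Nat.add_sub_cancel_left, ← W.o1] at h2
  have h3 := (hhn (F := F) (c := c) (s := s) (d := r) (wb := o 0) (q₀ := q₀) (H₀ := H 0)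
    (L := L) (M := 2 ^ u / 2 ^ g₀ 0 j) (i := j) (W.dH 0 _ _) (by
      rw [hcoL]
      exact W.own0 ω hω j j.isLt) 0 ⟨le_rfl, zero_le_one⟩).1
  rw [← W.o1, ← hP] at h3
  obtain ⟨f, hf⟩ : ∃ f, f = (Polynomial.derivative (Pool.V1E.hL c s r (o 1) P L (some j))).eval 0 :=
    ⟨_, rfl⟩
  rw [← hf] at h3
  have h4 : C₀ * (2 ^ s j.val * (2 ^ u / 2 ^ g₀ 0 j) / 2 ^ q₀) ≤ C₀ * 2 ^ (u + x) := by
    refine mul_le_mul_of_nonneg_left ?_ (by linarith)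
    rw [← mul_div_assoc, div_div, ← pow_add, ← pow_add, div_le_iff₀ (by positivity), ← pow_add]
    refine pow_le_pow_right₀ (by norm_num) ?_
    have := W.n0 j j.isLt
    omega
  show |((⌊2 ^ qe j * (Polynomial.derivative (Pool.V1E.hL c s r (o 1) P L (some j))).eval 0⌋ : ℤ) : ℝ) /
    2 ^ qe j| ≤ _
  rw [← hf]
  have h5 := Int.floor_le ((2 : ℝ) ^ qe j * f)
  have h6 := (Int.lt_floor_add_one ((2 : ℝ) ^ qe j * f)).le
  have h7 : (1 : ℝ) ≤ 2 ^ qe j := one_le_pow₀ (by norm_num)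
  have h8 : |((⌊2 ^ qe j * f⌋ : ℤ) : ℝ) / 2 ^ qe j - f| ≤ 1 := by
    have e2 : ((⌊2 ^ qe j * f⌋ : ℤ) : ℝ) / 2 ^ qe j - f =
        (((⌊2 ^ qe j * f⌋ : ℤ) : ℝ) - 2 ^ qe j * f) / 2 ^ qe j := by
      field_simp
    rw [e2, abs_div, abs_of_pos (by linarith : (0 : ℝ) < 2 ^ qe j), div_le_one (by linarith)]
    refine le_trans ?_ h7
    rw [abs_le]
    constructor <;> linarith
  have h9 := abs_add_le (((⌊2 ^ qe j * f⌋ : ℤ) : ℝ) / 2 ^ qe j - f) f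
  rw [sub_add_cancel] at h9
  have h10 : (1 : ℝ) ≤ 2 ^ (u + x) := one_le_pow₀ (by norm_num)
  have h11 : (C₀ + 1) * 2 ^ (u + x) ≤ 2 ^ C * 2 ^ (u + x) :=
    mul_le_mul_of_nonneg_right hC.le (by positivity)
  rw [← pow_add] at h11
  have e3 : C + u + x = C + (u + x) := by ring
  rw [e3]
  linarith

/-- **The velocities are in no closed hyperplane.** -/
theorem hyp_frm (D r : ℕ) : ∃ C : ℕ, ∀ {m : ℕ} {θ : ℝ} {S : Pool.PB.PCl m}
    {P : List (Fin m) × Fin m → ℝ → ℝ → ℝ} (_ : Pool.LBT.ThrOf (Pool.W.CHT.chsys m θ) S P) (c : ℕ → Fin m) (a : ℚ)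
    (e h : ℝ), 0 ≤ a → a ≤ 1 → e < θ * a → 0 < h → (∀ l < r, Pool.CHT.bet P c l a a + h ≤ 1) →
    ∃ δ : ℝ, 0 < δ ∧ Pool.S6C.Bas S (fun J F A => ∀ {MB q₀ Q x u e₀ : ℕ} {s : ℕ → ℕ}
      {qe : Fin r → ℕ} {o : ℕ → ℕ} {g g₀ : ℕ → ℕ → ℕ} {B : F.Ω → Prop}
      {G : ℕ → Pool.GEN.PtT F → ℕ → MvPolynomial (Option (Fin m)) ℝ}
      {H : ℕ → Pool.GEN.LnT F → ℕ → MvPolynomial (Option (Fin m)) ℝ},
      Pool.W.NHN.FrN F c r D MB q₀ Q x u e₀ s qe o g g₀ B G H →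
      ∀ {Gn N₀ w : ℕ}, N₀ = C * (u + x + Gn + 1) → o 2 ≤ w → w ≤ ⌊(a : ℝ) * J⌋₊ → N₀ ≤ MB →
      e₀ + N₀ ≤ ⌊e * J⌋₊ → (∀ l < r, e₀ + s l + Q + N₀ ≤ J) →
      (∀ l < r, ⌊(Pool.CHT.bet P c l a a + h) * J⌋₊ + w ≤ s l + Q + Gn + ⌊(a : ℝ) * J⌋₊) →
      ∀ {q : F.Ω → ℝ} {Mq : ℝ}, Pool.STK.IsLaw q → 0 ≤ Mq → (∀ ω, 0 < q ω → A ω ∧ B ω) →
      (∀ ω, q ω * Pool.K2S.Pe F.p A ≤ Mq * F.p ω) →
      ∀ {ζ : Type} {Z : F.Ω → ζ}, Pool.Agent.H49.Ent.Det q (fun ω => Pool.PB.ptr F J ω) Z → Pool.Agent.H49.Ent.Det q (Pool.KSAT.slam F w) Z →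
      Pool.D2Con.NoHyp q (fun ω => Pool.V1E.Xe r qe (Pool.V1E.eL c s r (o 1) qe (Pool.V1E.frH F r q₀ (H 0) (Pool.KSAT.slam F (o 1) ω))
        (Pool.KSAT.slam F (o 1) ω))) Z (1 / 2 ^ N₀) (r * (Mq * Real.exp (-(δ * J))))) := by
  classical
  obtain ⟨C₁, hlab⟩ := Pool.W.NHN.frm_lab D r
  obtain ⟨C₂, hxb⟩ := Pool.W.NHN.xe_bd D
  obtain ⟨C, hCd⟩ : ∃ C, C = C₁ + (r + 1) * (C₂ + r + 5) + 8 := ⟨_, rfl⟩
  refine ⟨C, ?_⟩
  intro m θ S P hP c a e h ha0 ha he hh h1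
  choose δl hδl τl hτl Jl hvl using fun l : Fin r =>
    Pool.W.NLB46.lab_ev hP c l (D + 1) a a e h ha0 le_rfl ha he hh (h1 l l.isLt)
  choose τp hτp Jp hvp using fun l : Fin r =>
    Pool.W.VIS24.pos_thr hP c l a a e h ha0 le_rfl ha he hh (h1 l l.isLt)
  obtain ⟨δ, hδ, hδle⟩ := Pool.D2Con.fin_pos δl hδl
  obtain ⟨τ, hτ, hτle⟩ := Pool.D2Con.fin_pos (fun l => min (τl l) (τp l)) fun l => lt_min (hτl l) (hτp l)
  refine ⟨δ, hδ, τ, hτ, max (Finset.univ.sup Jl) (Finset.univ.sup Jp), ?_⟩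
  intro J hJ F A hA MB q₀ Q x u e₀ s qe o g g₀ B G H W Gn N₀ w hN₀ hw2 hoa
    hNM heN hJN hbN q Mq hq hMq hqA hqM ζ Z hZp hZs
  have hJl : ∀ l, J ≥ Jl l := fun l =>
    (Finset.le_sup (Finset.mem_univ l)).trans ((le_max_left _ _).trans hJ)
  have hJp : ∀ l, J ≥ Jp l := fun l =>
    (Finset.le_sup (Finset.mem_univ l)).trans ((le_max_right _ _).trans hJ)
  have hJ0 : (0 : ℝ) ≤ J := Nat.cast_nonneg J
  have hwJ : w ≤ J := hoa.trans (Nat.floor_le_of_le (by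
    have h3 : (a : ℝ) ≤ 1 := by exact_mod_cast ha
    nlinarith))
  -- the numbers
  obtain ⟨k, hk⟩ : ∃ k, k = C₂ + u + x := ⟨_, rfl⟩
  obtain ⟨n₁, hn₁⟩ : ∃ n₁, n₁ = k + r + Gn + 3 := ⟨_, rfl⟩
  obtain ⟨N, hN⟩ : ∃ N, N = r * n₁ := ⟨_, rfl⟩
  have hNle : N ≤ (r + 1) * (C₂ + r + 5) * (u + x + Gn + 1) := by
    rw [hN, hn₁, hk]
    have e1 : r * (C₂ + u + x + r + Gn + 3) ≤ (r + 1) * (C₂ + u + x + r + Gn + 3) :=
      Nat.mul_le_mul_right _ (Nat.le_succ r)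
    refine e1.trans ?_
    rw [mul_assoc]
    refine Nat.mul_le_mul_left _ ?_
    nlinarith [Nat.zero_le (C₂ * u), Nat.zero_le (C₂ * x), Nat.zero_le (C₂ * Gn),
      Nat.zero_le (r * u), Nat.zero_le (r * x), Nat.zero_le (r * Gn)]
  have hN₀a : C₁ * (u + x + 1) + N + Gn + 8 ≤ N₀ := by
    rw [hN₀, hCd]
    have e1 : C₁ * (u + x + 1) ≤ C₁ * (u + x + Gn + 1) := Nat.mul_le_mul_left _ (by omega)
    have e2 : Gn + 8 ≤ 8 * (u + x + Gn + 1) := by omega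
    calc C₁ * (u + x + 1) + N + Gn + 8 ≤ C₁ * (u + x + Gn + 1) +
          (r + 1) * (C₂ + r + 5) * (u + x + Gn + 1) + 8 * (u + x + Gn + 1) := by omega
      _ = _ := by ring
  have hN₀b : N + Gn + 3 * x + r ≤ N₀ := by
    rw [hN₀, hCd]
    have e2 : Gn + 3 * x + r ≤ (8 + r) * (u + x + Gn + 1) := by
      nlinarith [Nat.zero_le (r * u), Nat.zero_le (r * x), Nat.zero_le (r * Gn)]
    have e3 : N + r * (u + x + Gn + 1) ≤ (r + 1) * (C₂ + r + 5) * (u + x + Gn + 1) := by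
      rw [hN, hn₁, hk]
      have e1 : r * (C₂ + u + x + r + Gn + 3) + r * (u + x + Gn + 1) =
          r * (C₂ + u + x + r + Gn + 3 + (u + x + Gn + 1)) := by ring
      rw [e1]
      have e4 : r * (C₂ + u + x + r + Gn + 3 + (u + x + Gn + 1)) ≤
          (r + 1) * (C₂ + u + x + r + Gn + 3 + (u + x + Gn + 1)) :=
        Nat.mul_le_mul_right _ (Nat.le_succ r)
      refine e4.trans ?_
      rw [mul_assoc]
      refine Nat.mul_le_mul_left _ ?_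
      nlinarith [Nat.zero_le (C₂ * u), Nat.zero_le (C₂ * x), Nat.zero_le (C₂ * Gn),
        Nat.zero_le (r * u), Nat.zero_le (r * x), Nat.zero_le (r * Gn)]
    calc N + Gn + 3 * x + r ≤ N + r * (u + x + Gn + 1) + 8 * (u + x + Gn + 1) := by
          nlinarith [e2]
      _ ≤ (r + 1) * (C₂ + r + 5) * (u + x + Gn + 1) + 8 * (u + x + Gn + 1) := by omega
      _ ≤ _ := by nlinarith [Nat.zero_le (C₁ * (u + x + Gn + 1))]
  -- the pivots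
  obtain ⟨ν, hν⟩ : ∃ ν : ℝ, ν = 1 / 2 ^ n₁ := ⟨_, rfl⟩
  have hν0 : 0 < ν := by rw [hν]; positivity
  have hνr : 1 / ν ^ r = 2 ^ N := by
    rw [hν, one_div_pow, one_div_one_div, ← pow_mul, hN, mul_comm]
  have hrY : (r : ℝ) * (ν * 2 ^ k) ≤ 1 / 2 ^ (Gn + 3) := by
    have h2 : (r : ℝ) ≤ 2 ^ r := by exact_mod_cast (Nat.lt_two_pow_self (n := r)).le
    have e1 : ν * 2 ^ k = 1 / 2 ^ (r + Gn + 3) := by
      rw [hν, hn₁, div_mul_eq_mul_div, one_mul, div_eq_div_iff (by positivity) (by positivity),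
        one_mul, ← pow_add]
      congr 1
      omega
    rw [e1]
    refine (mul_le_mul_of_nonneg_right h2 (by positivity)).trans (le_of_eq ?_)
    rw [mul_one_div, div_eq_div_iff (by positivity) (by positivity), one_mul, ← pow_add]
    congr 1
  have hη : (1 : ℝ) / 2 ^ N₀ / ν ^ r ≤ 1 / 2 ^ (Gn + 3) := by
    rw [div_eq_mul_one_div (1 / 2 ^ N₀ : ℝ), hνr, div_mul_eq_mul_div, one_mul,
      div_le_div_iff₀ (by positivity) (by positivity), one_mul, ← pow_add]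
    refine pow_le_pow_right₀ (by norm_num) ?_
    omega
  have hsm : (1 : ℝ) / 2 ^ (Gn + 3) ≤ 1 / 8 := by
    refine one_div_le_one_div_of_le (by norm_num) ?_
    have : (2 : ℝ) ^ 3 ≤ 2 ^ (Gn + 3) := pow_le_pow_right₀ (by norm_num) (by omega)
    linarith
  have hN0s : (1 : ℝ) / 2 ^ N₀ ≤ 1 / 2 := by
    refine one_div_le_one_div_of_le (by norm_num) ?_
    have : (2 : ℝ) ^ 1 ≤ 2 ^ N₀ := pow_le_pow_right₀ (by norm_num) (by omega)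
    linarith
  refine Pool.D2Con.noHyp_piv hq (Y := 2 ^ k) (ν := ν) (ε := 1 / 2 ^ (Gn + 2)) (fun ω _ => rfl)
    (fun ω hω j => by
      rw [hk]
      exact hxb W (hqA ω hω).2 j) hν0 ?_ (by positivity) ?_ ?_ fun l v => ?_
  · rw [hν]
    exact (div_le_one (by positivity)).2 (one_le_pow₀ (by norm_num))
  · linarith
  · have e1 : (1 : ℝ) / 2 ^ (Gn + 3) + 1 / 2 ^ (Gn + 3) = 1 / 2 ^ (Gn + 2) := by
      rw [pow_succ 2 (Gn + 2)]
      field_simp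
      norm_num
    linarith
  · have hev := hvl l J (hJl l) F A (S.mono ((hτle l).trans (min_le_left _ _)) hA)
    have hA0 := hvp l J (hJp l) F A (S.mono ((hτle l).trans (min_le_right _ _)) hA)
    obtain ⟨E, hE⟩ : ∃ E : F.Ω → Prop, E = fun ω => (∀ j, |v (Z ω) j| ≤ 1 / ν ^ r) ∧
      |Pool.V1E.Xe r qe (Pool.V1E.eL c s r (o 1) qe (Pool.V1E.frH F r q₀ (H 0) (Pool.KSAT.slam F (o 1) ω)) (Pool.KSAT.slam F (o 1) ω)) l.succ -
        ∑ j, (if j < l.succ then v (Z ω) j * Pool.V1E.Xe r qe (Pool.V1E.eL c s r (o 1) qe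
          (Pool.V1E.frH F r q₀ (H 0) (Pool.KSAT.slam F (o 1) ω)) (Pool.KSAT.slam F (o 1) ω)) j else 0)| ≤
        1 / 2 ^ (Gn + 2) := ⟨_, rfl⟩
    show Pool.Agent.H49.Ent.law q _ True ≤ _
    rw [← hE]
    refine (Pool.NHZ.law_le_mass hq.nonneg (X := Real.exp (-(δl l * J))) hA0 hMq hqM
      (fun ω => F.isLaw.nonneg ω) ?_).trans (mul_le_mul_of_nonneg_left
        (Real.exp_le_exp.mpr (by
          have := mul_le_mul_of_nonneg_right (hδle l) hJ0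
          linarith only [this])) hMq)
    obtain ⟨B₁, hB₁⟩ : ∃ B₁ : F.Ω → Prop, B₁ = fun ω => 0 < q ω ∧ E ω := ⟨_, rfl⟩
    rw [← hB₁]
    have hBq : ∀ ω, B₁ ω → 0 < q ω ∧ E ω := fun ω hω => by
      rw [hB₁] at hω
      exact hω
    have hBB : Pool.K2S.Sub B₁ B := fun ω hω => (hqA ω (hBq ω hω).1).2
    obtain ⟨Gt, Ht', hL⟩ := hlab W hBB hw2 hwJ (Z := Z) (fun ω ω' k1 k2 k3 =>
      hZp ω ω' (hBq ω k1).1 (hBq ω' k2).1 k3) (fun ω ω' k1 k2 k3 =>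
      hZs ω ω' (hBq ω k1).1 (hBq ω' k2).1 k3) l v (N := N) (Gn := Gn) (fun ω hω j => by
        have h3 := (hBq ω hω).2
        rw [hE] at h3
        rw [← hνr]
        exact h3.1 j) (fun ω hω => by
        have h3 := (hBq ω hω).2
        rw [hE] at h3
        exact h3.2) (by omega) (fun l hl => by
        have := hJN l hl
        omega)
    have hch := Pool.W.NHN.frm_ch W (i := l) (e' := e₀ + (N + Gn + 3 * x + r)) l.isLt.le hBB (by omega) hw2 hwJ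
    refine hev w w (e₀ + (N + Gn + 3 * x + r)) (s l + Q + Gn) (fun _ => D)
      (fun l => g 0 l + (o 2 - o 0)) _ _ Gt Ht' le_rfl hoa hoa (by omega)
      (fun _ => Nat.le_succ D) (fun j hj => ?_) ?_ (hbN l l.isLt) B₁
      (fun ω hω => (hqA ω (hBq ω hω).1).1) hch hL
    · have h3 := hJN j (hj.trans l.isLt)
      have h4 := W.n2d j (hj.trans l.isLt)
      show g 0 j + (o 2 - o 0) ≤ J
      omega
    · have h3 := hJN l l.isLt
      omega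

end Pool.W.NHN
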