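import Pool.Agent.H42.D2.Nhp
import Pool.Agent.H31.W.H42.D2.Nho
import Pool.Agent.H31.W.H73.D2.Tml
import Pool.Agent.H31.W1.H2.GEN.ChT
import Pool.Agent.H31.W1.H23.D2.Bln
import Pool.Agent.H31.W1.H80.GEN.Chn

/-!
# The hypothesis `NhN`: the velocities are in no hyperplane, target `N - P(p, u)`

`WN.frn`: the frame of `WN`. `nhN_cls`: in a class with thresholds and full time, for the windows `WN`
with a deeper chain window `o d`.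
-/

set_option autoImplicit false

namespace Pool.W.NHN

open Pool.NHN

open Finset Real MvPolynomial
open Pool.Agent.H49.Ent Pool.Agent.H32.Dense Pool.STK Pool.KA Pool.KSAT Pool.K2S Pool.PB
open Pool.S6C Pool.GEN Pool.D2R Pool.D2Z Pool.D2F Pool.D2G30 Pool.ISO Pool.CHT Pool.CHX Pool.V1E
open Pool.D2Con Pool.RCD Pool.NHZ
open Pool.LBT (ThrOf)


/-- **The hypothesis `NhN`**. -/
theorem nhN_cls (Dw r : ℕ) (hr : 1 ≤ r) : ∃ C' : ℝ, 1 ≤ C' ∧ ∀ {m D Dr N N₂ d : ℕ} {S : Pool.PB.PCl m}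
    {R : ℕ → Prop} {P : List (Fin m) × Fin m → ℝ → ℝ → ℝ} {θ : ℝ} {c : ℕ → Fin m}
    {C a Eb ε₀ η₀ ζ χ mb : ℝ} {Pt : ℝ → ℝ → ℝ} {o : ℕ → ℝ} {lv be : ℕ → ℕ → ℝ} {κ : ℝ}
    {qf : ℕ → Fin r → ℕ} {δ : ℝ} {aq : ℚ} {e h gn : ℝ}, d ≤ N₂ → Pool.LBT.ThrOf (Pool.W.CHT.chsys m θ) S P →
    (∀ ψ : ℝ, 0 < ψ → Pool.S6C.Bas S (fun J F A => 0 < Pool.K2S.Pe F.p A ∧ (J : ℝ) * Real.log 2 - ψ * J ≤
      Pool.Agent.H49.Ent.CH (Pool.Agent.H49.Ent.cond F.p A True) F.T (fun ω => (F.l ω, F.Z ω)))) →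
    Pool.NHN.NhNN r d P c θ C Eb η₀ ζ χ δ C' o lv aq e h gn →
    Pool.W.V1E.NhN S c r D Dw Dr N N₂ R C a Eb ε₀ η₀ χ mb Pt o lv be κ qf δ := by
  obtain ⟨C₁, hnh⟩ := Pool.W.NHN.nh_frn Dw r hr
  refine ⟨2 * C₁ + 32, by
    have : (0 : ℝ) ≤ C₁ := Nat.cast_nonneg _
    linarith, ?_⟩
  intro m D Dr N N₂ d S R P θ c C a Eb ε₀ η₀ ζ χ mb Pt o lv be κ qf δ aq e h gn hd hP htm Nn
  have No3d := Nn.o3d
  have Nsm := Nn.sm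
  have Ne2 := Nn.e2
  have Ntop := Nn.top
  have hC := Nn.C1
  have hη := Nn.η0
  have hζ := Nn.ζ0
  have hχ := Nn.χ0
  have hχ0 : 0 < χ := by linarith
  have hgn := Nn.gn0
  have hC₁ : (0 : ℝ) ≤ C₁ := Nat.cast_nonneg _
  have ho2 := Nn.o2
  have ho20 := Nn.o20
  have ho03 := Nn.o03
  obtain ⟨k, hk⟩ : ∃ k : ℝ, k = 22 * C₁ + 60 := ⟨_, rfl⟩
  have hodq := Nn.oda
  have ho3d : o 3 < o d := by
    have h3 : 0 ≤ (C + 1) * η₀ := mul_nonneg (by linarith) hη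
    linarith
  have haq0 : (0 : ℝ) ≤ aq := by linarith
  obtain ⟨ψ, hψ, hcl⟩ := hnh hP c aq e h 1 δ (by exact_mod_cast haq0) (by exact_mod_cast Nn.a1)
    Nn.ea Nn.h0 Nn.b1
    one_pos Nn.δ0
  obtain ⟨J₁, hJ₁⟩ := Pool.V1E.lin_lt No3d k
  obtain ⟨J₂, hJ₂⟩ := Pool.V1E.lin_lt Nsm k
  obtain ⟨J₃, hJ₃⟩ := Pool.V1E.lin_lt Ne2 k
  obtain ⟨J₄, hJ₄⟩ := Pool.V1E.lin_fam (n := r) (A := fun l => Eb + 2 * η₀ + lv 0 l + (o 3 - o 0) +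
    (2 * C₁ + 32) * (χ + gn)) (B := fun _ => 1) (fun l hl => Ntop l hl) k
  obtain ⟨J₅, hJ₅⟩ := Pool.V1E.lin_fam (n := r) (A := fun l => Pool.CHT.bet P c l aq aq + h + o d)
    (B := fun l => lv 0 l + (o 3 - o 0) + gn + aq) Nn.gain k
  obtain ⟨J₆, hJ₆⟩ := Pool.V1E.lin_lt (show (0 : ℝ) < o 3 - o 0 by linarith) k
  obtain ⟨J₇, hJ₇⟩ := Pool.V1E.lin_lt hχ k
  refine Pool.S6C.Bas.mono (max (max (max J₁ J₂) (max J₃ J₄)) (max (max J₅ J₆) J₇)) (hcl.and (htm ψ hψ)) ?_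
  rintro J hJ F A ⟨hcl, hA, hT⟩ b z gc gT g₀ G H T TH Gt Ht CL Cp W V V' v v' hv hv'
  have hN₂ := W.n3
  have hWB := W.wg.wb
  have hz0d := W.wg.zz 2 (by omega) d hd Nn.o2d
  have j1 := hJ₁ J (by omega)
  have j2 := hJ₂ J (by omega)
  have j3 := hJ₃ J (by omega)
  have j4 := hJ₄ J (by omega)
  have j5 := hJ₅ J (by omega)
  have j6 := hJ₆ J (by omega)
  have j7 := hJ₇ J (by omega)
  clear hJ₁ hJ₂ hJ₃ hJ₄ hJ₅ hJ₆ hJ₇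
  have hJ0 : (0 : ℝ) ≤ J := Nat.cast_nonneg J
  have mulJ : ∀ {x y : ℝ}, x ≤ y → x * J ≤ y * J := fun h => mul_le_mul_of_nonneg_right h hJ0
  have hqA : ∀ ω, 0 < Pool.Agent.H49.Ent.cond F.p A True ω → A ω := fun ω hω =>
    of_eq_true ((Pool.Agent.H49.Ent.cond_pos_iff F.isLaw.nonneg A True ω).1 hω).2
  have hE := Nn.E0
  have Wd := W.nw
  have l01 : ⌊o 2 * J⌋₊ ≤ ⌊o 0 * J⌋₊ := Nat.floor_le_floor (mulJ ho20)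
  have f0 := Pool.V1E.flo (mul_nonneg ho2 hJ0)
  have f1 := Pool.V1E.flo (mul_nonneg (ho2.trans ho20) hJ0)
  have f2 := Pool.V1E.flo (mul_nonneg ((ho2.trans ho20).trans ho03.le) hJ0)
  have f4 := Pool.V1E.flo (mul_nonneg (((ho2.trans ho20).trans ho03.le).trans ho3d.le) hJ0)
  have fa := Pool.V1E.flo (mul_nonneg haq0 hJ0)
  have fg := Pool.V1E.flo (mul_nonneg hgn hJ0)
  have fx := Pool.V1E.flo (mul_nonneg hχ0.le hJ0)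
  have fc := Pool.V1E.flo (mul_nonneg (by linarith : (0 : ℝ) ≤ C) (mul_nonneg hη hJ0))
  have l12 : ⌊o 0 * J⌋₊ ≤ ⌊o 3 * J⌋₊ := Nat.floor_le_floor (mulJ ho03.le)
  have l24 : ⌊o 3 * J⌋₊ ≤ ⌊o d * J⌋₊ := Nat.floor_le_floor (mulJ ho3d.le)
  have l4a : ⌊o d * J⌋₊ ≤ ⌊(aq : ℝ) * J⌋₊ := Nat.floor_le_floor (mulJ Nn.oda)
  have laJ : ⌊(aq : ℝ) * J⌋₊ ≤ J := Nat.floor_le_of_le (by
    have h3 := mulJ Nn.a1
    linarith)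
  have fe := Pool.V1E.flo (mul_nonneg (by linarith : (0 : ℝ) ≤ Eb + 2 * η₀) hJ0)
  have hg4 := fun l (hl : l < r) => (hWB.g_num (k := d) (l := l) hd (by omega)).2.2.1
  have hg0 := fun l (hl : l < r) => (hWB.g_num (k := 2) (l := l) (by omega) (by omega)).1
  have hg0' := fun l (hl : l < r) => (hWB.g_num (k := 2) (l := l) (by omega) (by omega)).2.1
  have c3 := (hWB.ev 3 (by omega)).cls
  have c4 := (hWB.ev d hd).cls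
  have p4 := (hWB.ev d hd).ball.pos
  have b4 := hWB.bal 2 (by omega) d hd d hd (l01.trans (l12.trans l24)) hz0d
  obtain ⟨Q, hQ⟩ : ∃ Q : ℕ, Q = ⌊o 3 * J⌋₊ - ⌊o 0 * J⌋₊ := ⟨_, rfl⟩
  obtain ⟨q₀, hq₀⟩ : ∃ q₀ : ℕ, q₀ = ⌊o 0 * J⌋₊ - ⌊o 2 * J⌋₊ := ⟨_, rfl⟩
  obtain ⟨x, hx⟩ : ∃ x : ℕ, x = ⌊χ * J⌋₊ := ⟨_, rfl⟩
  obtain ⟨e₀, he⟩ : ∃ e₀ : ℕ, e₀ = ⌊(Eb + 2 * η₀) * J⌋₊ := ⟨_, rfl⟩
  obtain ⟨s, hs⟩ : ∃ s : ℕ → ℕ, s = Pool.V1E.sN (lv 0) J r := ⟨_, rfl⟩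
  obtain ⟨uB, huB⟩ : ∃ uB : ℕ, uB = ⌊C * (η₀ * J)⌋₊ := ⟨_, rfl⟩
  obtain ⟨q₁, hq₁, hzq₁⟩ := Wd.z02
  have hrad := (hWB.ev 2 (by omega)).rad q₁ hq₁
  rw [← hs] at Wd ⊢
  rw [← hQ, ← hq₀] at Wd ⊢
  rw [← hx, ← he] at Wd
  rw [← he] at fe
  rw [← hx] at fx
  rw [← huB] at fc b4
  have hsl : ∀ l < r, (s l : ℝ) ≤ lv 0 l * J ∧ lv 0 l * J - 1 ≤ s l := fun l hl => by
    rw [hs, Pool.V1E.sN_lt hl]
    exact Pool.V1E.flo (mul_nonneg (Nn.l0 l hl) hJ0)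
  have hQr : (Q : ℝ) = ⌊o 3 * J⌋₊ - ⌊o 0 * J⌋₊ := by rw [hQ, Nat.cast_sub l12]
  have hQl : (o 3 - o 0) * J - 1 ≤ Q := by rw [hQr]; linarith [f1.2, f2.2, f1.1, f2.1]
  have hQu : (Q : ℝ) ≤ (o 3 - o 0) * J + 1 := by rw [hQr]; linarith [f1.2, f2.2, f1.1, f2.1]
  obtain ⟨Gn, hGn⟩ : ∃ Gn : ℕ, Gn = ⌊gn * J⌋₊ := ⟨_, rfl⟩
  rw [← hGn] at fg
  obtain ⟨N₀, hN₀⟩ : ∃ N₀ : ℕ, N₀ = C₁ * (x + x + Gn + 1) := ⟨_, rfl⟩
  have hXJ : 0 ≤ χ * J := mul_nonneg hχ0.le hJ0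
  have hgJ : 0 ≤ gn * J := mul_nonneg hgn hJ0
  have hN₀r : (N₀ : ℝ) ≤ (2 * C₁ + 32) * (χ + gn) * J + 22 * C₁ := by
    rw [hN₀]
    push_cast
    have h4 : (x : ℝ) + x + Gn + 1 ≤ 2 * (χ * J) + 22 + gn * J := by linarith [fg.1, fx.1]
    have h5 := mul_le_mul_of_nonneg_left h4 hC₁
    have h6 : 0 ≤ (C₁ : ℝ) * (gn * J) := mul_nonneg hC₁ hgJ
    have e1 : (2 * (C₁ : ℝ) + 32) * (χ + gn) * J + 22 * C₁ =
        C₁ * (2 * (χ * J) + 22 + gn * J) + 32 * (χ * J) + C₁ * (gn * J) + 32 * (gn * J) := by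
      ring
    rw [e1]
    linarith
  have hN₀Q : (N₀ : ℝ) ≤ δ * Q := by
    have h4 := mul_le_mul_of_nonneg_left hQl Nn.δ0.le
    rw [hk] at j2
    linarith [Nn.δ1]
  have hN₀Q' : N₀ ≤ Q := by
    have h4 : (N₀ : ℝ) ≤ Q := hN₀Q.trans (by
      have := mul_le_mul_of_nonneg_right Nn.δ1 (Nat.cast_nonneg Q : (0 : ℝ) ≤ Q)
      linarith)
    exact_mod_cast h4
  have hdet : ∀ {Y : Type} {y : F.Ω → Y} {w : ℝ}, w ≤ o d → Pool.RCD.Cl2 (Pool.PB.ptr F J) (Pool.RCD.vg w J F) A y →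
      Pool.Agent.H49.Ent.Det (Pool.Agent.H49.Ent.cond F.p A True) (fun ω => Pool.PB.ptr F J ω) y ∧
      Pool.Agent.H49.Ent.Det (Pool.Agent.H49.Ent.cond F.p A True) (Pool.KSAT.slam F ⌊o d * J⌋₊) y := by
    intro Y y w hw hy
    obtain ⟨⟨φ, hφ⟩, χ', hχ'⟩ := hy
    refine ⟨fun ω ω' hω hω' hh => ?_, fun ω ω' hω hω' hh => ?_⟩
    · rw [hφ ω (hqA ω hω), hφ ω' (hqA ω' hω')]
      exact congrArg φ hh
    · rw [hχ' ω (hqA ω hω), hχ' ω' (hqA ω' hω')]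
      have h4 : ⌊w * J⌋₊ ≤ ⌊o d * J⌋₊ := Nat.floor_le_floor (mulJ hw)
      have h5 : ⌊o d * J⌋₊ ≤ J := l4a.trans laJ
      show χ' (Pool.KSAT.slam F ⌊w * J⌋₊ ω) = χ' (Pool.KSAT.slam F ⌊w * J⌋₊ ω')
      rw [Pool.PB.slam_coarse F h4 h5 ω, Pool.PB.slam_coarse F h4 h5 ω', hh]
  obtain ⟨dv1, dv2⟩ := hdet (ho03.le.trans ho3d.le) hv
  obtain ⟨dw1, dw2⟩ := hdet ho3d.le hv'
  have hn4 : ∀ l < r, s l + Q + 2 + uB ≤ g₀ d l := by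
    intro l hl
    have h4 : ((s l + Q + 2 + uB : ℕ) : ℝ) ≤ g₀ d l := by
      push_cast
      refine le_trans ?_ (hg4 l hl)
      have h5 := (hsl l hl).1
      have h6 := mulJ (Nn.lvd l hl)
      have h7 := fc.1
      rw [hk] at j1
      linarith
    exact_mod_cast h4
  have hn0 : ∀ l < r, s l + Q + 2 + uB ≤ ⌊b 2 l * J⌋₊ + (⌊o d * J⌋₊ - ⌊o 2 * J⌋₊) := by
    intro l hl
    have h4 : ((s l + Q + 2 + uB : ℕ) : ℝ) ≤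
        ((⌊b 2 l * J⌋₊ + (⌊o d * J⌋₊ - ⌊o 2 * J⌋₊) : ℕ) : ℝ) := by
      rw [Nat.cast_add (⌊b 2 l * J⌋₊), Nat.cast_sub (l01.trans (l12.trans l24))]
      push_cast
      have h5 := (hsl l hl).1
      have h6 := mulJ (Nn.lv2 l hl)
      have h7 := fc.1
      have h8 := hg0 l hl
      rw [hk] at j1
      linarith [f0.1, f4.2]
    exact_mod_cast h4
  have hn2d : ∀ l < r, ⌊b 2 l * J⌋₊ + (⌊o 3 * J⌋₊ - ⌊o 2 * J⌋₊) ≤ s l + Q + x := by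
    intro l hl
    have h4 : ((⌊b 2 l * J⌋₊ + (⌊o 3 * J⌋₊ - ⌊o 2 * J⌋₊) : ℕ) : ℝ) ≤
        ((s l + Q + x : ℕ) : ℝ) := by
      rw [Nat.cast_add (⌊b 2 l * J⌋₊), Nat.cast_sub (l01.trans l12)]
      push_cast
      have h5 := (hsl l hl).2
      have h6 := mulJ (Nn.lv2' l hl)
      have h7 := fx.2
      have h8 := hg0' l hl
      rw [hk] at j7
      linarith [f0.2, f2.1]
    exact_mod_cast h4
  have hoq : ⌊o 2 * J⌋₊ + z 2 q₁ = ⌊o 3 * J⌋₊ := by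
    have h3 : z 2 q₁ = ⌊o 3 * J⌋₊ - ⌊o 2 * J⌋₊ := hzq₁
    rw [h3]
    omega
  have hzq : z 2 q₁ = ⌊o 3 * J⌋₊ - ⌊o 2 * J⌋₊ := hzq₁
  have hee : ⌊(Eb + η₀ + η₀) * J⌋₊ = e₀ := by
    rw [he]
    congr 2
    ring
  have FN : Pool.W.NHN.FrN F c r Dw ⌊mb * J⌋₊ q₀ Q x x e₀ s (qf J) (fun k => ⌊o (Pool.V1E.fr4 k) * J⌋₊)
      (fun k l => ⌊b (Pool.V1E.fr4 k) l * J⌋₊) (fun k => g₀ (Pool.V1E.fr4 k)) A (fun k => G (Pool.V1E.fr4 k))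
      (fun k => H (Pool.V1E.fr4 k)) :=
    { hc := Wd.hc.mono (Set.Iio_subset_Iio (by omega))
      o1 := Wd.o1
      o2 := Wd.o2
      o3 := Wd.o3
      oJ := Wd.oJ
      dG := Wd.dG
      pG := Wd.pG
      dH := Wd.dH
      cl0 := Wd.cl0
      own0 := Wd.own0
      n0 := Wd.n0
      n2b := Wd.n2b
      n2c := Wd.n2c
      n2d := hn2d
      q0M := Wd.q0M
      qeM := Wd.qeM
      rad0 := by
        have h3 := hrad.mono le_rfl (fun _ => W.DD) le_rfl (le_of_eq hee)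
        have h4 : ⌊o 2 * J⌋₊ + z 2 q₁ = (fun k => ⌊o (Pool.V1E.fr4 k) * J⌋₊) 2 := hoq
        rw [h4, hzq] at h3
        exact ⟨h3.degG, h3.degH, h3.depG, h3.depH, fun ω hω l hl => h3.pos ω hω l (by omega),
          fun ω hω l hl => h3.agr ω hω l (by omega), fun ω hω l hl => h3.lip ω hω l (by omega)⟩ }
  -- the closed charts of the target
  have hnW : ∀ {P P' : ℕ → MvPolynomial (Option (Fin m)) ℝ} {K K' : MvPolynomial (Option (Fin m)) ℝ},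
      P r = P' r → P (r + 1) = P' (r + 1) → K = K' → Pool.V1E.nW c r P K = Pool.V1E.nW c r P' K' := by
    intro P P' K K' h1 h2 h3
    unfold Pool.V1E.nW Pool.V1E.nfw
    rw [h1, h2, h3]
  have h3J : ⌊o 3 * J⌋₊ ≤ J := l24.trans (l4a.trans laJ)
  have hco : ∀ ω, Pool.D2R.co (⌊o 3 * J⌋₊ - ⌊o 0 * J⌋₊) (Pool.KSAT.slam F ⌊o 3 * J⌋₊ ω) = Pool.KSAT.slam F ⌊o 0 * J⌋₊ ω :=
    fun ω => Pool.D2R.co_slam F l12 h3J ω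
  have hCp : ∀ ω, A ω → Cp (Pool.PB.ptr F J ω) = CL (Pool.KSAT.slam F ⌊o 0 * J⌋₊ ω) := Wd.clC
  have hG0 : ∀ ω, A ω → ∀ l ≤ r + 1, G 0 (Pool.PB.ptr F J ω) l = H 0 (Pool.KSAT.slam F ⌊o 0 * J⌋₊ ω) l := Wd.cl1
  have hA₁ : ∀ ω, A ω → (fun y => Pool.V1E.nW c r (G 0 y) (Cp y)) (Pool.PB.ptr F J ω) =
      (fun s => Pool.V1E.nW c r (H 0 (Pool.D2R.co (⌊o 3 * J⌋₊ - ⌊o 0 * J⌋₊) s))
        (CL (Pool.D2R.co (⌊o 3 * J⌋₊ - ⌊o 0 * J⌋₊) s))) (Pool.KSAT.slam F ⌊o 3 * J⌋₊ ω) := by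
    intro ω hω
    beta_reduce
    rw [hco]
    exact hnW (hG0 ω hω r (by omega)) (hG0 ω hω (r + 1) le_rfl) (hCp ω hω)
  have hA₂ : ∀ ω, A ω → (fun y => Pool.V1E.nW c r (G 3 y) (Cp y)) (Pool.PB.ptr F J ω) =
      (fun s => Pool.V1E.nW c r (H 3 s) (CL (Pool.D2R.co (⌊o 3 * J⌋₊ - ⌊o 0 * J⌋₊) s))) (Pool.KSAT.slam F ⌊o 3 * J⌋₊ ω) := by
    intro ω hω
    beta_reduce
    rw [hco]
    exact hnW (c3 ω hω r (by omega)) (c3 ω hω (r + 1) (by omega)) (hCp ω hω)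
  refine hcl FN (fun _ hω => hω) (by rw [one_mul]) (A₁ := fun y => Pool.V1E.nW c r (G 0 y) (Cp y))
    (A₂ := fun y => Pool.V1E.nW c r (G 3 y) (Cp y))
    (R₁ := fun s => Pool.V1E.nW c r (H 0 (Pool.D2R.co (⌊o 3 * J⌋₊ - ⌊o 0 * J⌋₊) s))
      (CL (Pool.D2R.co (⌊o 3 * J⌋₊ - ⌊o 0 * J⌋₊) s)))
    (R₂ := fun s => Pool.V1E.nW c r (H 3 s) (CL (Pool.D2R.co (⌊o 3 * J⌋₊ - ⌊o 0 * J⌋₊) s))) hA₁ hA₂
    (w := ⌊o d * J⌋₊) (G' := G d) (H' := H d) (g' := g₀ d) l24 l4a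
    (fun ω hω l hl => c4 ω hω l (by omega)) (fun ω hω l hl => p4 ω hω l (by omega))
    (fun l hl => (by omega : s l + Q + 2 ≤ s l + Q + 2 + uB).trans (hn4 l hl))
    (fun ω hω l hl b' hb' => ?_) hN₀ (hN₀Q'.trans Wd.QM) ?_ (fun l hl => ?_)
    (fun l hl => ?_) dv1 dw1 dv2 dw2 hT _ hN₀Q
  · refine (b4 ω hω l (by omega) b' hb').trans ?_
    rw [div_le_div_iff₀ (by positivity) (by positivity), one_mul, ← pow_add]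
    refine pow_le_pow_right₀ (by norm_num) ?_
    rw [show uB + (s l + Q + 2) = s l + Q + 2 + uB by omega]
    exact le_min (hn0 l hl) (hn4 l hl)
  · refine Nat.le_floor ?_
    push_cast
    rw [hk] at j3
    have h4 := fe.1
    have e1 : (Eb + 2 * η₀ + (2 * (C₁ : ℝ) + 32) * (χ + gn)) * J = (Eb + 2 * η₀) * J +
      (2 * (C₁ : ℝ) + 32) * (χ + gn) * J := by ring
    rw [e1] at j3
    linarith
  · have h4 : ((e₀ + s l + Q + N₀ : ℕ) : ℝ) ≤ J := by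
      push_cast
      have h5 := j4 l hl
      rw [hk] at h5
      have e1 : (Eb + 2 * η₀ + lv 0 l + (o 3 - o 0) + (2 * (C₁ : ℝ) + 32) * (χ + gn)) * J =
        (Eb + 2 * η₀) * J + lv 0 l * J + (o 3 - o 0) * J +
        (2 * (C₁ : ℝ) + 32) * (χ + gn) * J := by ring
      rw [e1] at h5
      linarith [(hsl l hl).1, fe.1]
    exact_mod_cast h4
  · show ⌊(Pool.CHT.bet P c l aq aq + h) * J⌋₊ + ⌊o d * J⌋₊ ≤ s l + Q + Gn + ⌊(aq : ℝ) * J⌋₊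
    have h5 := j5 l hl
    have h6 := (hsl l hl).2
    rw [hk] at h5 j6
    have h7 : (0 : ℝ) ≤ s l := Nat.cast_nonneg _
    rcases le_total 0 (Pool.CHT.bet P c l aq aq + h) with h8 | h8
    · have h4 : ((⌊(Pool.CHT.bet P c l aq aq + h) * J⌋₊ + ⌊o d * J⌋₊ : ℕ) : ℝ) ≤
          ((s l + Q + Gn + ⌊(aq : ℝ) * J⌋₊ : ℕ) : ℝ) := by
        push_cast
        have h9 := (Pool.V1E.flo (mul_nonneg h8 hJ0)).1
        linarith [f4.1, fa.2, fg.2]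
      exact_mod_cast h4
    · have h9 : ⌊(Pool.CHT.bet P c l aq aq + h) * J⌋₊ = 0 :=
        Nat.floor_of_nonpos (mul_nonpos_of_nonpos_of_nonneg h8 hJ0)
      rw [h9]
      omega

end Pool.W.NHN
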