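import Pool.Agent.H42.D2.Nrb
import Pool.Agent.H31.W.H42.D2.Nra
import Pool.Agent.H31.W.H60.ALT.Nwc
import Pool.Agent.H31.W.H73.D2.Tnn
import Pool.Agent.H31.W.H73.D2.Tns
import Pool.Agent.H3.W.Bas
import Pool.Agent.H31.W1.H2.GEN.ChT
import Pool.Agent.H31.W1.H2.GEN.EvS
import Pool.Agent.H31.W1.H23.D2.Bln
import Pool.Agent.H31.W1.H80.GEN.Chn

/-!
# Closed labels of `N` which are closed at an earlier window, in a class

`hn_con`: `HnB` from the rows of `N` of a larger radius `au`, for an earlier window `b₁` and the deep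
window, and from `BlB` of the family `Θ` at the window `b₁`.
-/

set_option autoImplicit false

namespace Pool.W.V1E

open Pool.V1E

open Finset Real MvPolynomial
open Pool.Agent.H49.Ent Pool.Agent.H32.Dense Pool.STK Pool.KA Pool.KSAT Pool.K2S Pool.PB Pool.S6C
open Pool.GEN Pool.CHT Pool.CHX Pool.ISO Pool.D2R Pool.D2G30 Pool.END18 Pool.D2Con Pool.CR99
open Pool.LBT (ThrOf)
open Pool.LEV (Law)
open Pool.ALT
open Pool.LA91 (pos_bas)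
open Pool.BFL (Pb)
open Pool.GRD (LbP)
open Pool.PN18 (Fm2)
open Pool.PB.Trl (rt rt_mem t_rt)

/-- **Closed labels of `N`**, closed at the window `b₁`, from rows of `N` at the radius `au`, for the
windows `b₁` and `o 1`. -/
theorem hn_con (m r S₀ : ℕ) (hr : 1 ≤ r) (hS₀ : 1 ≤ S₀) : ∃ Du : ℕ, 1 ≤ Du ∧ ∀ D : ℕ, 1 ≤ D →
    ∀ C : ℝ, 1 ≤ C → ∃ C₁ : ℝ, 1 ≤ C₁ ∧ ∀ {S : Pool.PB.PCl m} {P : List (Fin m) × Fin m → ℝ → ℝ → ℝ}
    {θ : ℝ} {c : ℕ → Fin m} {Pt : ℝ → ℝ → ℝ} {R Rw : ℕ → Prop}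
    {a au Eb Eu ε₁ ε₀ η₀ χ mb b₁ w : ℝ} {o : ℕ → ℝ} {lv be : ℕ → ℕ → ℝ} {Θ : Pool.PN18.Fm2 m}
    {p₁ p₂ x₁ : ℝ} (Dr N N₂ : ℕ), 1 ≤ N → 3 ≤ N₂ →
    (∀ (τ : ℝ) (J : ℕ) (F : Pool.KA.Fam m J) (A : F.Ω → Prop), S.St τ J F A → 0 < Pool.K2S.Pe F.p A) →
    Pool.LBT.ThrOf (Pool.W.CHT.chsys m θ) S P → 0 < θ → Pool.CHT.TmH S → Set.InjOn c (Set.Iio (r + 2)) → Pool.LEV.Law Pt → 0 ≤ Eu →
    (∀ v : ℝ, v = b₁ ∨ v = o 1 → Pool.W.ISO.WinD S P θ c (r + 1) Pt au v S₀ Eu ε₀ Rw) →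
    (∀ l < r + 1, Rw l) → C₁ * ε₀ < η₀ → C₁ * η₀ ≤ χ →
    (∀ v : ℝ, v = b₁ ∨ v = o 1 → C₁ * η₀ ≤ v ∧ C₁ * η₀ ≤ Pt au v ∧
      C₁ * η₀ ≤ Pool.ISO.lvN P c (r + 1) Pt (r + 1) v v ∧ v + C₁ * η₀ ≤ au ∧
      (∀ l ≤ r + 1, Pool.ISO.lvN P c (r + 1) Pt l v v + (au - v) + (Eu + 2 * η₀) < 1) ∧
      ∀ l < r + 1, Pool.CHT.bet P c l au v + (Eu + 2 * η₀) < 1) → au ≤ 1 →
    (∀ l < r, R l) → 3 * (C * η₀) ≤ Pt a (o 0) → 0 ≤ lv 0 (r + 1) → o 1 + 4 * (C * η₀) ≤ a →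
    a ≤ 1 → (¬ R r → lv 1 r + (a - o 1) ≤ be 1 r + η₀) →
    mb + (o 3 - o 0) < o 0 - o 2 → o 3 - o 0 < mb → η₀ ≤ o 3 - o 0 → η₀ ≤ o 1 - o 3 →
    (∀ k ≤ 3, ∀ j < r, |lv k j - o k - (lv 0 j - o 0)| ≤ η₀) →
    lv 0 r + (o 3 - o 0) ≤ lv 3 r + η₀ → lv 3 r + (o 1 - o 3) ≤ lv 1 r + η₀ →
    lv 0 (r + 1) + mb ≤ lv 3 (r + 1) + η₀ →
    lv 0 (r + 1) + (o 1 - o 0) + (mb - (o 3 - o 0)) ≤ lv 1 (r + 1) + η₀ →
    lv 0 (r + 1) + (a - o 0) + (mb - (o 3 - o 0)) ≤ Pt a (o 0) + η₀ →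
    (∀ l ≤ r + 1, lv 1 l = Pool.ISO.lvN P c (r + 1) Pt l (o 1) (o 1)) →
    (∀ l ≤ r, o 1 - o 0 + C₁ * η₀ ≤ lv 1 l) →
    lv 1 (r + 1) + (au - o 1) ≤ Pt au b₁ + η₀ → b₁ ≤ o 0 → 0 ≤ b₁ →
    Pool.ALT.BlB S c r (c (r + 1)) w b₁ Du Du p₁ p₂ x₁ (Pool.ALT.Fm2.lab Θ) →
    p₁ < Pool.ISO.lvN P c (r + 1) Pt (r + 1) b₁ b₁ - η₀ → p₂ < Pool.ISO.lvN P c (r + 1) Pt r b₁ b₁ - η₀ →
    Pool.ISO.lvN P c (r + 1) Pt r b₁ b₁ + (au - b₁) + (mb - (o 3 - o 0)) + lv 0 (r + 1) ≤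
      Pt au b₁ + lv 0 r + η₀ →
    Pool.ISO.lvN P c (r + 1) Pt r b₁ b₁ + (mb - (o 3 - o 0)) + lv 0 (r + 1) ≤
      Pool.ISO.lvN P c (r + 1) Pt (r + 1) b₁ b₁ + lv 0 r + η₀ →
    x₁ + (mb - (o 3 - o 0)) + lv 0 (r + 1) + η₀ ≤ lv 0 r + χ →
    (∀ (J : ℕ) (F : Pool.KA.Fam m J) (A B : F.Ω → Prop) (V C : Type) (z : Pool.GEN.PtT F → V)
      (z' : Pool.GEN.LnT F → V) (G₁ G₂ : V → MvPolynomial (Option (Fin m)) ℝ) (cc : Pool.GEN.LnT F → C), Pool.K2S.Sub B A →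
      Θ J F A V C z z' G₁ G₂ cc → Θ J F B V C z z' G₁ G₂ cc) →
    ∃ K₄ : ℝ, 0 < K₄ ∧ ∀ κ : ℝ,
      Pool.W.V1E.HnB S c r D Du Dr N N₂ R C a Eb ε₁ η₀ χ mb Pt o lv be κ K₄ (Pool.ALT.XiF Θ w) := by
  classical
  obtain ⟨Du, hDu, hwg⟩ := Pool.W.V1E.wg_con m (r + 1) S₀ (by omega) hS₀
  refine ⟨Du, hDu, fun D hD C hC => ?_⟩
  obtain ⟨D₂, hD₂⟩ : ∃ D₂, D₂ = max D Du := ⟨_, rfl⟩
  have hD2 : D ≤ D₂ := by omega
  have hDu2 : Du ≤ D₂ := by omega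
  obtain ⟨C', hC', hwg⟩ := hwg D₂ hDu2
  obtain ⟨C₂, hC₂, htn⟩ := Pool.W.D2R.tn_dd D₂ (r + 1) (by omega)
  obtain ⟨C₃, hnup⟩ := Pool.W.V1E.nvp_nup D r
  have hC₂R : (1 : ℝ) ≤ C₂ := by exact_mod_cast hC₂
  have hC₃R : (0 : ℝ) ≤ C₃ := Nat.cast_nonneg _
  have hC'0 : 0 < C' := by linarith
  have hC0 : 0 < C := by linarith
  obtain ⟨C₁, hC₁⟩ : ∃ C₁ : ℝ, C₁ = C₂ * (4 * C' + 7 * C + 8) + C₃ * (7 * C + 4) + 4 * C' + 8 :=
    ⟨_, rfl⟩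
  have hC2C : 0 ≤ C₂ * (4 * C' + 7 * C + 8) := by positivity
  have hC3C : 0 ≤ C₃ * (7 * C + 4) := by positivity
  refine ⟨C₁, by linarith, ?_⟩
  intro S P θ c Pt R Rw a au Eb Eu ε₁ ε₀ η₀ χ mb b₁ w o lv be Θ p₁ p₂ x₁ Dr N N₂ hN hN₂ hpos hP
    hθ hS hinj hPt hEu hW hRw hεη hχ hw hau hR hPt0 hl0 hoa ha1 hbe h01 h12 h12' h23 hn hu2 hu3
    h2 h3 hPa hlv1 hd1 hrw hbo hb0 hBl hp1 hp2 hA1 hA2 hA3 hΘs
  have hε₀ : 0 ≤ ε₀ := (hW (o 1) (Or.inr rfl)).ε0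
  have hη0 : 0 < η₀ := lt_of_le_of_lt (mul_nonneg (by linarith) hε₀) hεη
  have hCη : 4 * (C' * η₀) ≤ C₁ * η₀ := by
    have : (4 * C') * η₀ ≤ C₁ * η₀ := mul_le_mul_of_nonneg_right (by linarith) hη0.le
    linarith
  have hCη0 : 0 < C' * η₀ := by positivity
  have hmb0 : 0 ≤ mb := by linarith
  have hcr : Set.InjOn c (Set.Iio (r + 1)) := hinj.mono fun y hy => by
    rw [Set.mem_Iio] at hy ⊢
    omega
  -- the windows of the new system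
  obtain ⟨o', ho'⟩ : ∃ o' : ℕ → ℝ, o' = fun k => if k = 0 then b₁ else o 1 := ⟨_, rfl⟩
  have o0 : o' 0 = b₁ := by simp [ho']
  have o1 : o' 1 = o 1 := by simp [ho']
  have hok : ∀ k, o' k = b₁ ∨ o' k = o 1 := fun k => by
    rw [ho']
    by_cases h : k = 0
    · left; simp [h]
    · right; simp [h]
  obtain ⟨K₁, b', hK₁, hwg⟩ := hwg (S := S) (P := P) (θ := θ) (c := c) (Pt := Pt) (R := Rw)
    (a := au) (Eb := Eu) (ε₀ := ε₀) (η₀ := η₀) (o := o') 1 1 le_rfl hP hθ hS hinj hPt hEu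
    (fun k _ => hW _ (hok k)) (fun k h1 h2 => absurd h1 (by omega))
    (lt_of_le_of_lt (mul_le_mul_of_nonneg_right (by linarith) hε₀) hεη)
    (fun k _ => by
      obtain ⟨h1, h2, h3, -⟩ := hw _ (hok k)
      exact ⟨by linarith, by linarith, by linarith⟩)
    (fun k _ => by
      obtain ⟨-, -, -, h4, -⟩ := hw _ (hok k)
      linarith) hau (fun k _ l hl => (hw _ (hok k)).2.2.2.2.1 l hl)
    (fun k _ l hl => (hw _ (hok k)).2.2.2.2.2 l hl)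
  obtain ⟨κ', hκ'⟩ : ∃ κ' : ℝ, κ' = 1 / (8 * 16 ^ (r + 1)) := ⟨_, rfl⟩
  have hκ'0 : 0 < κ' := by rw [hκ']; positivity
  have hκ'1 : κ' * (8 * 16 ^ (r + 1)) ≤ 1 := by
    rw [hκ', one_div_mul_eq_div, div_self (by positivity)]
  -- the vectors of the frame
  obtain ⟨χ', hχ'⟩ : ∃ χ' : ℝ, χ' = (7 * C + 4) * η₀ := ⟨_, rfl⟩
  have hχ'0 : 0 ≤ χ' := by rw [hχ']; positivity
  obtain ⟨J₀, hnv⟩ := Pool.W.V1E.wg_nvp (D := D) (Dr := Dr) (N := N) (N₂ := N₂) (R := R) (C := C) (a := a)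
    (Eb := Eb) (ε₀ := ε₁) (η₀ := η₀) (ζ := η₀) (χ := χ') (mb := mb) (Pt := Pt) (o := o) (lv := lv)
    (be := be) hN hN₂ hinj hR hC hη0 hPt0 (by
      have := hd1 r le_rfl
      linarith [h3]) hoa ha1 hbe h01 h12 h12' h23 hη0.le (by
      rw [hχ']
      have : (7 * C + 4) * η₀ = 7 * (C * η₀) + 4 * η₀ := by ring
      linarith) hn hu2 hu3 h2 h3 hPa
  obtain ⟨χ₁, hχ₁, hχ₁a, hχ₁b⟩ : ∃ χ₁ : ℝ, 0 < χ₁ ∧
      p₁ + χ₁ ≤ Pool.ISO.lvN P c (r + 1) Pt (r + 1) b₁ b₁ - η₀ ∧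
      p₂ + χ₁ ≤ Pool.ISO.lvN P c (r + 1) Pt r b₁ b₁ - η₀ := by
    refine ⟨min (Pool.ISO.lvN P c (r + 1) Pt (r + 1) b₁ b₁ - η₀ - p₁)
      (Pool.ISO.lvN P c (r + 1) Pt r b₁ b₁ - η₀ - p₂), lt_min (by linarith) (by linarith), ?_, ?_⟩
    · linarith [min_le_left (Pool.ISO.lvN P c (r + 1) Pt (r + 1) b₁ b₁ - η₀ - p₁)
        (Pool.ISO.lvN P c (r + 1) Pt r b₁ b₁ - η₀ - p₂)]
    · linarith [min_le_right (Pool.ISO.lvN P c (r + 1) Pt (r + 1) b₁ b₁ - η₀ - p₁)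
        (Pool.ISO.lvN P c (r + 1) Pt r b₁ b₁ - η₀ - p₂)]
  refine ⟨K₁ * (4 * 16 ^ (r + 1)) * 2, by positivity, fun κ => ?_⟩
  have big : ∀ {x y : ℝ}, 0 < x → ∃ J₀ : ℕ, ∀ J : ℕ, J₀ ≤ J → y ≤ x * J := by
    intro x y hx
    refine ⟨⌈y / x⌉₊, fun J hJ => ?_⟩
    have h1 : y / x ≤ J := (Nat.le_ceil _).trans (by exact_mod_cast hJ)
    rw [div_le_iff₀ hx] at h1
    linarith
  obtain ⟨J₁, hJ₁⟩ := big (x := η₀) (y := 7 * C₂ + C₃ + 20) hη0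
  refine Pool.S6C.Bas.mono (max J₀ J₁) ((hwg κ' hκ'0).and ((Pool.V1E.bas_big (hBl (1 / 2) χ₁ (by norm_num) hχ₁)
    (K₁ * (4 * 16 ^ (r + 1)))).and (Pool.LA91.pos_bas hpos))) ?_
  rintro J hJ F A ⟨w1, w2, hPA⟩ b z gc gT g₀ G H T TH Gt Ht CL Cp W hΞ
  have j1 := hJ₁ J (by omega)
  obtain ⟨B', z', gc', gT', g₀', G', H', T', TH', Gt', Ht', hB', hPB', W'⟩ := w1
  have hJ0 : (0 : ℝ) ≤ J := Nat.cast_nonneg J
  have mulJ : ∀ {x y : ℝ}, x ≤ y → x * J ≤ y * J := fun h => mul_le_mul_of_nonneg_right h hJ0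
  obtain ⟨E, hE⟩ : ∃ E : ℝ, E = η₀ * J := ⟨_, rfl⟩
  have hE0 : 0 ≤ E := by rw [hE]; exact mul_nonneg hη0.le hJ0
  rw [← hE] at j1
  have hCE : 0 ≤ C' * E := mul_nonneg hC'0.le hE0
  have hoN := W.win.ho 1 hN
  have ho00 : 0 ≤ o 0 := hb0.trans hbo
  have ho01 : o 0 ≤ o 1 := by linarith
  have ho1 : 0 ≤ o 1 := hoN.1
  have hb1o : b₁ ≤ o 1 := hbo.trans ho01
  have ho1au : o 1 ≤ au := by
    have h5 := (hw (o 1) (Or.inr rfl)).2.2.2.1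
    have h6 : 0 ≤ C₁ * η₀ := le_trans (by positivity) hCη
    linarith
  have hau0 : 0 ≤ au := ho1.trans ho1au
  -- the windows
  obtain ⟨aN, haN⟩ : ∃ n : ℕ, n = ⌊o 1 * J⌋₊ := ⟨_, rfl⟩
  obtain ⟨tN, htN⟩ : ∃ n : ℕ, n = ⌊b₁ * J⌋₊ := ⟨_, rfl⟩
  obtain ⟨uN, huN⟩ : ∃ n : ℕ, n = ⌊au * J⌋₊ := ⟨_, rfl⟩
  obtain ⟨n0, hn0⟩ : ∃ n : ℕ, n = ⌊o 0 * J⌋₊ := ⟨_, rfl⟩
  have htaN : tN ≤ aN := by rw [htN, haN]; exact Nat.floor_le_floor (mulJ hb1o)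
  have hauN : aN ≤ uN := by rw [haN, huN]; exact Nat.floor_le_floor (mulJ ho1au)
  have hn0a : n0 ≤ aN := by rw [hn0, haN]; exact Nat.floor_le_floor (mulJ ho01)
  have hau1 := hau
  have huJ : uN ≤ J := by
    rw [huN]
    have := Nat.floor_le_floor (mulJ hau)
    rw [one_mul, Nat.floor_natCast] at this
    exact this
  have fa := Pool.V1E.flo (mul_nonneg ho1 hJ0)
  have fu := Pool.V1E.flo (mul_nonneg hau0 hJ0)
  have ft := Pool.V1E.flo (mul_nonneg hb0 hJ0)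
  have f0 := Pool.V1E.flo (mul_nonneg ho00 hJ0)
  rw [← haN] at fa
  rw [← huN] at fu
  rw [← htN] at ft
  rw [← hn0] at f0
  -- the exponents
  obtain ⟨h, hh⟩ : ∃ h : ℕ, h = ⌊η₀ * J⌋₊ := ⟨_, rfl⟩
  obtain ⟨u', hu'⟩ : ∃ u : ℕ, u = ⌊C' * (η₀ * J)⌋₊ := ⟨_, rfl⟩
  obtain ⟨x', hx'⟩ : ∃ x : ℕ, x = ⌊χ' * J⌋₊ := ⟨_, rfl⟩
  obtain ⟨u, hu⟩ : ∃ u : ℕ, u = u' + x' := ⟨_, rfl⟩
  obtain ⟨xx, hxx⟩ : ∃ x : ℕ, x = ⌊3 * (C' * E) + 3 * E⌋₊ := ⟨_, rfl⟩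
  obtain ⟨x, hx⟩ : ∃ x : ℕ, x = xx + 6 := ⟨_, rfl⟩
  obtain ⟨d, hd⟩ : ∃ d : ℕ, d = C₃ * (x' + 1) + (aN - n0) := ⟨_, rfl⟩
  have fh := Pool.V1E.flo (show 0 ≤ η₀ * (J : ℝ) by rw [← hE]; exact hE0)
  have fC := Pool.V1E.flo (show 0 ≤ C' * (η₀ * (J : ℝ)) by rw [← hE]; exact hCE)
  have fx := Pool.V1E.flo (by positivity : (0 : ℝ) ≤ 3 * (C' * E) + 3 * E)
  have fx' := Pool.V1E.flo (mul_nonneg hχ'0 hJ0)
  rw [← hxx] at fx
  rw [← hh] at fh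
  rw [← hu'] at fC
  rw [← hx'] at fx'
  rw [← hE] at fh fC
  have hxR : (x : ℝ) = xx + 6 := by rw [hx]; push_cast; ring
  have fx2 : 3 * (C' * E) + 3 * E + 5 ≤ x := by linarith only [hxR, fx.2]
  have fx1 : (x : ℝ) ≤ 3 * (C' * E) + 3 * E + 6 := by linarith only [hxR, fx.1]
  have hxE : (x' : ℝ) ≤ (7 * C + 4) * E := by
    have : χ' * J = (7 * C + 4) * E := by rw [hχ', hE]; ring
    linarith only [this, fx'.1]
  have huR : (u : ℝ) = u' + x' := by rw [hu]; push_cast; ring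
  have hχJ : C₁ * E ≤ χ * J := by
    have := mulJ hχ
    rw [hE]
    linarith only [this]
  -- the two systems at the deep window
  have hnv' := hnv J (by omega) F b κ z (fun _ => ⌊mb * J⌋₊ + (⌊o 3 * J⌋₊ - ⌊o 0 * J⌋₊)) A gc gT
    g₀ G H T TH Gt Ht (fun _ => le_rfl) W
  have E1 := W'.win.evs 1 le_rfl
  have hball := E1.ball
  have hrel := E1.relb
  rw [o1, ← haN] at hball hrel
  have N1 := fun l (hl : l ≤ r + 1) => W'.win.g_num (k := 1) le_rfl hl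
  have N2 := fun l (hl : l < r + 1) => (W'.win.t_num (k := 1) le_rfl hl).1 (hRw l hl)
  have N0 := fun l (hl : l ≤ r + 1) => W'.win.g_num (k := 0) (by norm_num) hl
  have N3 := fun l (hl : l < r + 1) =>
    (W'.win.t_num (k := 0) (by norm_num) hl).1 (hRw l hl)
  simp only [o1] at N1 N2
  simp only [o0] at N0 N3
  rw [← haN, ← huN] at N1 N2
  rw [← htN, ← huN] at N0 N3
  have hN1' : 1 ≤ N₂ := by omega
  have N4 := fun l (hl : l ≤ r + 1) => W.wb.g_num (k := 1) (l := l) hN1' hl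
  -- the row label, against the deep window
  obtain ⟨P1, hP1⟩ : ∃ y : ℝ, y = (Pt au b₁ - 2 * (C' * η₀)) * J - C' * (η₀ * J) := ⟨_, rfl⟩
  obtain ⟨P2, hP2⟩ : ∃ y : ℝ, y = (gc' 1 (r + 1) : ℝ) - C' * (η₀ * J) := ⟨_, rfl⟩
  obtain ⟨P3, hP3⟩ : ∃ y : ℝ, y = (gc' 0 (r + 1) : ℝ) - C' * (η₀ * J) := ⟨_, rfl⟩
  have e1P : (Pt au b₁ - 2 * (C' * η₀)) * J - C' * (η₀ * J) = Pt au b₁ * J - 3 * (C' * E) := by
    rw [hE]; ring
  have hP10 : 0 ≤ P1 := by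
    have h1 := (hw _ (Or.inl rfl)).2.1
    have h2 : 4 * (C' * η₀) * J ≤ Pt au b₁ * J := mulJ (by linarith)
    have h3 : 4 * (C' * η₀) * J = 4 * (C' * E) := by rw [hE]; ring
    rw [hP1, e1P]
    linarith only [h2, h3, hCE]
  have hP20 : 0 ≤ P2 := by
    have h1 := W'.win.hgr 1 le_rfl
    rw [hP2]
    linarith only [h1]
  have hP30 : 0 ≤ P3 := by
    have h1 := W'.win.hgr 0 (by norm_num)
    rw [hP3]
    linarith only [h1]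
  obtain ⟨p, hp⟩ : ∃ p : ℕ, p = ⌊min P1 P2⌋₊ := ⟨_, rfl⟩
  have fp := Pool.V1E.flo (le_min hP10 hP20)
  rw [← hp] at fp
  have hpP1 : (p : ℝ) ≤ P1 := fp.1.trans (min_le_left _ _)
  have hpP2 : (p : ℝ) ≤ P2 := fp.1.trans (min_le_right _ _)
  obtain ⟨qn, hqn⟩ : ∃ p : ℕ, p = ⌊min P1 P3⌋₊ := ⟨_, rfl⟩
  have fq := Pool.V1E.flo (le_min hP10 hP30)
  rw [← hqn] at fq
  have hqP1 : (qn : ℝ) ≤ P1 := fq.1.trans (min_le_left _ _)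
  have hqP3 : (qn : ℝ) ≤ P3 := fq.1.trans (min_le_right _ _)
  have hrow := W'.win.row 0 (by norm_num) 1 le_rfl (by rw [o0, o1]; exact hb1o) p (by
      simp only [o0]
      rw [hP1] at hpP1
      linarith only [hpP1]) (by
      rw [hP2] at hpP2
      linarith only [hpP2])
  rw [o0, o1, ← haN, ← htN, ← huN, ← hu'] at hrow
  have hrow0 := W'.win.row 0 (by norm_num) 0 (by norm_num) le_rfl qn (by
      simp only [o0]
      rw [hP1] at hqP1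
      linarith only [hqP1]) (by
      rw [hP3] at hqP3
      linarith only [hqP3])
  rw [o0, ← htN, ← huN, ← hu'] at hrow0
  have cst : ∀ {i j : ℕ}, (i : ℝ) ≤ j → i ≤ j := fun h => by exact_mod_cast h
  have caN : ((uN - aN : ℕ) : ℝ) = uN - aN := by rw [Nat.cast_sub hauN]
  have cat : ((uN - tN : ℕ) : ℝ) = uN - tN := by rw [Nat.cast_sub (htaN.trans hauN)]
  have can : ((aN - n0 : ℕ) : ℝ) = aN - n0 := by rw [Nat.cast_sub hn0a]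
  have hdR : (d : ℝ) = C₃ * (x' + 1) + (aN - n0) := by
    rw [hd]
    push_cast
    rw [can]
  have hC3x : (C₃ : ℝ) * (x' + 1) ≤ C₃ * (7 * C + 4) * E + C₃ := by
    have := mul_le_mul_of_nonneg_left hxE hC₃R
    linarith only [this]
  -- the comparisons of the sides
  have q1 : ∀ l < r + 1, gT' 1 l ≤ g₀' 1 l + (uN - aN) + x := fun l hl => by
    refine cst ?_
    push_cast
    rw [caN]
    have h1 := (N2 l hl).2
    have h2 := (N1 l hl.le).2.2.1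
    linarith only [h1, h2, fx2, hCE, hE, hE0]
  have q2 : ∀ l < r + 1, g₀' 1 l ≤ g₀ 1 l + x := fun l hl => by
    refine cst ?_
    push_cast
    have h1 := (N1 l hl.le).2.2.2.1
    have h2 := (N4 l hl.le).2.2.1
    rw [hlv1 l hl.le] at h2
    linarith only [h1, h2, fx2, hCE, hE, hE0]
  have q3 : ∀ l ≤ r + 1, g₀ 1 l ≤ g₀' 1 l + x := fun l hl => by
    refine cst ?_
    push_cast
    have h1 := (N1 l hl).2.2.1
    have h2 := (N4 l hl).2.2.2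
    rw [hlv1 l hl] at h2
    linarith only [h1, h2, fx2, hCE, hE, hE0]
  have q4 : g₀ 1 (r + 1) + (uN - aN) ≤ p + x := by
    refine cst ?_
    push_cast
    rw [caN]
    have h1 := (N4 (r + 1) le_rfl).2.2.2
    have hA : (g₀ 1 (r + 1) : ℝ) + (uN - aN) ≤ P1 + 3 * (C' * E) + E + 2 := by
      rw [hP1, e1P]
      have h2 := mulJ hrw
      linarith only [h1, h2, fu.1, fa.2, hE]
    have hB : (g₀ 1 (r + 1) : ℝ) + (uN - aN) ≤ P2 + C' * E + E + 1 := by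
      have h2 := (N1 (r + 1) le_rfl).2.2.2.2.1
      rw [hP2, ← hE]
      rw [hlv1 _ le_rfl] at h1
      linarith only [h1, h2, hE]
    have hC : (g₀ 1 (r + 1) : ℝ) + (uN - aN) ≤ min P1 P2 + 3 * (C' * E) + E + 2 := by
      rcases min_choice P1 P2 with h | h <;> rw [h] <;> linarith only [hA, hB, hCE]
    linarith only [hC, fx2, fp.2, hE0]
  have q5 : ∀ l < r + 1, d ≤ g₀ 1 l := fun l hl => by
    refine cst ?_
    rw [hdR]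
    have h1 := (N4 l hl.le).2.2.1
    have h2 := mulJ (hd1 l (by omega))
    have h3 : C₁ * η₀ * J = C₂ * (4 * C' + 7 * C + 8) * E + C₃ * (7 * C + 4) * E +
        4 * (C' * E) + 8 * E := by
      rw [hC₁, hE]
      ring
    have h4 : 0 ≤ C₂ * (4 * C' + 7 * C + 8) * E := mul_nonneg hC2C hE0
    linarith only [h1, h2, h3, h4, hC3x, fa.1, f0.2, hE, j1, hCE, hC₂R, hC₃R]
  have hBB : Pool.K2S.Sub B' A := hB'
  have hch3 := hnv'.ch3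
  have hro3 := hnv'.ro
  have hcl1 := (W.wb.ev 1 hN1').cls
  rw [← haN] at hcl1
  have hf3 : Pool.V1E.fr4 3 = 1 := rfl
  have hf0 : Pool.V1E.fr4 0 = 2 := rfl
  have hf1 : Pool.V1E.fr4 1 = 0 := rfl
  obtain ⟨B₂, c1, c2, c3⟩ := htn (F := F) (c := c) (tN := tN) (aN := aN) (v := uN - aN) (p := p)
    (h := h) (u := u) (x := x) (d := d) (g₀ := g₀ 1) (g₁ := g₀' 1) (gT' := gT' 1)
    (κ := κ') (B₀ := B') (G' := G' 1) (H' := H' 1) (T' := T' 1) (TH' := TH' 1) (Ht := Ht' 0)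
    (G := G 1) (H := H 1) hinj (by omega) hκ'0.le hκ'1
    (hball.mono le_rfl (fun _ => hDu2) le_rfl le_rfl) (by rw [hh]; exact hrel)
    (hrow.mono le_rfl (by positivity) (pow_le_pow_right₀ (by norm_num) (by omega)))
    (fun l hl => ⟨q1 l hl, (E1.rgh l hl (hRw l hl)).2.2⟩)
    (by
      have h5 := (hch3.sub hBB).mono le_rfl (fun _ => hD2) le_rfl le_rfl
      rw [haN]
      exact h5) (hcl1.sub hBB)
    (fun ω hω V => by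
      have h5 := (hro3.dif ω (hBB ω hω) (r + 1) le_rfl).1 V
      rw [haN]
      refine h5.trans (mul_le_mul_of_nonneg_right (div_le_div_of_nonneg_right
        (pow_le_pow_right₀ (by norm_num) ?_) (by positivity)) (Pool.D2R.nrm_nonneg _ _ _ _ _ _ _))
      omega)
    q2 q3 q4 q5
  -- the slopes
  obtain ⟨V, Cc, zz, zz', G₁, G₂, cc, hΘ, hCp⟩ := hΞ
  have E0 := W'.win.evs 0 (by norm_num)
  have hball0 := E0.ball
  have hcls0 := E0.cls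
  rw [o0, ← htN] at hball0 hcls0
  have hc2A : Pool.K2S.Sub B₂ A := fun ω hω => hBB ω (c1 ω hω)
  have hPA2 : Pool.K2S.Pe F.p A ≤ K₁ * (4 * 16 ^ (r + 1)) * Pool.K2S.Pe F.p B₂ := by
    calc Pool.K2S.Pe F.p A ≤ K₁ * Pool.K2S.Pe F.p B' := hPB'
      _ ≤ K₁ * (4 * 16 ^ (r + 1) * Pool.K2S.Pe F.p B₂) := mul_le_mul_of_nonneg_left c2 hK₁.le
      _ = _ := by ring
  have hPB2 : 0 < Pool.K2S.Pe F.p B₂ := by
    by_contra hcon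
    push Not at hcon
    have : K₁ * (4 * 16 ^ (r + 1)) * Pool.K2S.Pe F.p B₂ ≤ 0 :=
      mul_nonpos_of_nonneg_of_nonpos (by positivity) hcon
    linarith only [this, hPA2, hPA]
  obtain ⟨V₁, z₁, z₁', L₁, d1, d2⟩ := Pool.W.ALT.lbp_ch (hball0.sub c1) (hcls0.sub c1) (i := r + 1) (by omega)
  obtain ⟨V₂, z₂, z₂', L₂, e1, e2⟩ := Pool.W.ALT.lbp_ch (hball0.sub c1) (hcls0.sub c1) (i := r) (by omega)
  have hbl := w2 B₂ hc2A hPA2 V zz zz' G₂ ⟨Cc, G₁, cc, hΘs J F A B₂ V Cc zz zz' G₁ G₂ cc hc2A hΘ⟩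
    (g₀' 0 (r + 1)) V₁ z₁ z₁' L₁ (by rw [← htN]; exact d1) (by
      have h5 := (N0 (r + 1) le_rfl).2.2.1
      have h6 := mulJ hχ₁a
      linarith only [h5, h6])
    (g₀' 0 r) V₂ z₂ z₂' L₂ (by rw [← htN]; exact e1) (by
      have h5 := (N0 r (by omega)).2.2.1
      have h6 := mulJ hχ₁b
      linarith only [h5, h6])
  simp only [d2] at hbl
  rw [← htN] at hbl
  obtain ⟨bad, hbad⟩ : ∃ bad : F.Ω → Prop, bad = fun ω => (2 : ℝ) ^ (x₁ * J) <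
        |eval (Pool.GEN.bt F ω) (pderiv (some (c r)) (H' 0 (Pool.KSAT.slam F tN ω) (r + 1) -
          G₂ (zz' (Pool.KSAT.slam F ⌊w * J⌋₊ ω))))| := ⟨_, rfl⟩
  rw [← hbad] at hbl
  have hpp := Pool.ALT.pe_part F.isLaw.nonneg hPB2 bad hbl
  obtain ⟨B₃, hB₃⟩ : ∃ B₃ : F.Ω → Prop, B₃ = fun ω => B₂ ω ∧ ¬ bad ω := ⟨_, rfl⟩
  rw [← hB₃] at hpp
  have hB32 : Pool.K2S.Sub B₃ B₂ := fun ω hω => by
    rw [hB₃] at hω
    exact hω.1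
  obtain ⟨f1, f2⟩ := Pool.ALT.floorw hbo (ho01.trans (ho1au.trans hau)) J
  have hn0J : n0 ≤ J := by rw [hn0]; exact f2
  have htn0 : tN ≤ n0 := by rw [htN, hn0]; exact f1
  have k0r := Nat.lt_floor_add_one (lv 0 r * (J : ℝ))
  have kχ := Nat.lt_floor_add_one (χ * (J : ℝ))
  have k0 := Pool.V1E.flo (mul_nonneg hl0 hJ0)
  have kmb := Pool.V1E.flo (mul_nonneg hmb0 hJ0)
  have ho3 : 0 ≤ o 3 := by linarith only [ho00, h12', hη0]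
  have k3 := Pool.V1E.flo (mul_nonneg ho3 hJ0)
  have h03N : ⌊o 0 * (J : ℝ)⌋₊ ≤ ⌊o 3 * (J : ℝ)⌋₊ :=
    Nat.floor_le_floor (mulJ (by linarith only [h12', hη0]))
  obtain ⟨Q, hQ⟩ : ∃ Q : ℕ, Q = ⌊mb * J⌋₊ - (⌊o 3 * J⌋₊ - ⌊o 0 * J⌋₊) := ⟨_, rfl⟩
  have hQb : (Q : ℝ) ≤ (mb - (o 3 - o 0)) * J + 1 := by
    rcases le_total ⌊mb * (J : ℝ)⌋₊ (⌊o 3 * (J : ℝ)⌋₊ - ⌊o 0 * (J : ℝ)⌋₊) with h6 | h6
    · rw [hQ, Nat.sub_eq_zero_of_le h6, Nat.cast_zero]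
      have := mulJ (show 0 ≤ mb - (o 3 - o 0) by linarith only [h12])
      linarith only [this]
    · rw [hQ, Nat.cast_sub h6, Nat.cast_sub h03N, ← hn0]
      linarith only [k3.2, f0.1, kmb.1]
  refine ⟨B₃, Pool.ALT.wz (fun s => Ht' 0 s) tN n0, fun ω hω => hc2A ω (hB32 ω hω), ?_,
    fun L => E0.dH _, fun L => E0.pH _, fun ω hω => ?_, fun ω hω U hU0 hU v hv => ?_⟩
  · calc Pool.K2S.Pe F.p A ≤ K₁ * (4 * 16 ^ (r + 1)) * Pool.K2S.Pe F.p B₂ := hPA2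
      _ ≤ K₁ * (4 * 16 ^ (r + 1)) * (2 * Pool.K2S.Pe F.p B₃) :=
          mul_le_mul_of_nonneg_left (by linarith only [hpp]) (by positivity)
      _ = _ := by ring
  · -- the direction `u`
    rw [← hQ, ← hn0, Pool.ALT.wz_slam (fun s => Ht' 0 s) htn0 hn0J]
    have hω2 := hB32 ω hω
    have hω' := c1 ω hω2
    rw [hCp ω (hBB ω hω')]
    have hg : |eval (Pool.GEN.bt F ω) (pderiv (some (c r)) (H' 0 (Pool.KSAT.slam F tN ω) (r + 1) -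
          G₂ (zz' (Pool.KSAT.slam F ⌊w * J⌋₊ ω))))| ≤ (2 : ℝ) ^ (x₁ * J) := by
      rw [hB₃, hbad] at hω
      exact not_lt.1 hω.2
    rw [map_sub, map_sub] at hg
    have hwin := hrow0.win ω hω' (Pool.PB.Trl.rt F tN ω) (Pool.PB.Trl.rt_mem F tN ω) (Pool.CR99.eu (c r))
    rw [Pool.D2R.ptw_rt F (htn0.trans hn0J), Pool.CR99.nrm_eu hcr (fun l => E0.thin.depH _ l), Pool.CR99.dd_eu, map_sub,
      map_sub, Pool.CR99.pd_Hno] at hwin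
    have e4 : eval (Pool.GEN.bt F ω) (pderiv (some (c r)) (Ht' 0 (Pool.KSAT.slam F tN ω))) -
        eval (Pool.GEN.bt F ω) (pderiv (some (c r)) (G₂ (zz' (Pool.KSAT.slam F ⌊w * J⌋₊ ω)))) =
        (eval (Pool.GEN.bt F ω) (pderiv (some (c r)) (Ht' 0 (Pool.KSAT.slam F tN ω))) -
          eval (Pool.GEN.bt F ω) (pderiv (some (c r)) (H' 0 (Pool.KSAT.slam F tN ω) (r + 1)))) +
        (eval (Pool.GEN.bt F ω) (pderiv (some (c r)) (H' 0 (Pool.KSAT.slam F tN ω) (r + 1))) -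
          eval (Pool.GEN.bt F ω) (pderiv (some (c r)) (G₂ (zz' (Pool.KSAT.slam F ⌊w * J⌋₊ ω))))) := by ring
    rw [e4]
    refine (abs_add_le _ _).trans ((add_le_add hwin hg).trans ?_)
    have hh2 : ∀ t : ℝ, t + 1 + ((⌊lv 0 (r + 1) * J⌋₊ + Q : ℕ) : ℝ) ≤
        ((⌊lv 0 r * J⌋₊ + ⌊χ * J⌋₊ : ℕ) : ℝ) → (2 : ℝ) ^ t ≤
        2 ^ (⌊lv 0 r * J⌋₊ + ⌊χ * J⌋₊) / 2 ^ (⌊lv 0 (r + 1) * J⌋₊ + Q) / 2 := by
      intro t ht
      have h5 := Pool.ALT.rp_le ht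
      rw [Real.rpow_add (by norm_num), Real.rpow_one] at h5
      linarith only [h5]
    have h7 : (2 : ℝ) ^ u' / 2 ^ qn * 2 ^ gT' 0 r = 2 ^ ((u' : ℝ) + gT' 0 r - qn) := by
      rw [Real.rpow_sub (by norm_num), Real.rpow_add (by norm_num), Real.rpow_natCast,
        Real.rpow_natCast, Real.rpow_natCast]
      ring
    have hC1E : C₁ * E = C₂ * (4 * C' + 7 * C + 8) * E + C₃ * (7 * C + 4) * E + 4 * (C' * E) +
        8 * E := by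
      rw [hC₁]
      ring
    have hz1 : 0 ≤ C₂ * (4 * C' + 7 * C + 8) * E := mul_nonneg hC2C hE0
    have hz2 : 0 ≤ C₃ * (7 * C + 4) * E := mul_nonneg hC3C hE0
    have i1 := hh2 ((u' : ℝ) + gT' 0 r - qn) (by
      push_cast
      have g1 := (N3 r (by omega)).2
      have g2 := (N0 (r + 1) le_rfl).2.2.2.2.1
      have m1 := mulJ hA1
      have m2 := mulJ hA2
      have g3 : min P1 P3 ≤ qn + 1 := by linarith only [fq.2]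
      rcases min_choice P1 P3 with h8 | h8
      · rw [h8, hP1, e1P] at g3
        linarith only [g1, g3, m1, fC.1, fu.1, ft.2, k0.1, hQb, k0r, kχ, hχJ, hC1E, hz1, hz2, hE,
          j1, hCE, hC₂R, hC₃R]
      · rw [h8, hP3, ← hE] at g3
        linarith only [g1, g2, g3, m2, fC.1, fu.1, ft.2, k0.1, hQb, k0r, kχ, hχJ, hC1E, hz1, hz2,
          hE, j1, hCE, hC₂R, hC₃R])
    have i2 := hh2 (x₁ * J) (by
      push_cast
      have m1 := mulJ hA3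
      linarith only [m1, k0.1, hQb, k0r, kχ, hE, j1, hC₂R, hC₃R])
    rw [h7]
    linarith only [i1, i2]
  · -- the natural directions
    rw [← hQ, ← hn0, Pool.ALT.wz_slam (fun s => Ht' 0 s) htn0 hn0J, ← haN]
    have hω2 := hB32 ω hω
    have hω' := c1 ω hω2
    have hUr : ∀ j < r, |U (some (c j)) - Pool.D2R.dd (G (Pool.V1E.fr4 0) (Pool.PB.ptr F J ω) j) (Pool.GEN.bt F ω) U| ≤
        1 / 2 ^ Pool.V1E.sN (lv 0) J r j := fun j hj => by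
      rw [hf0, Pool.V1E.sN_lt hj]
      exact hU j hj
    have hnn := hnup hnv' ω (hBB ω hω') U hU0 hUr v (by
      show v = Pool.D2R.dd (TH (Pool.V1E.fr4 3) (Pool.KSAT.slam F ⌊o (Pool.V1E.fr4 3) * J⌋₊ ω) r) (Pool.GEN.bt F ω) U
      rw [hf3]
      exact hv)
    have hnn' : Pool.D2R.nrm c (G 1 (Pool.PB.ptr F J ω)) (g₀ 1) aN (r + 1) (Pool.GEN.bt F ω) (Pool.V1E.up (c r) U v) ≤ 2 ^ d := by
      rw [hd, haN, hn0, hx']
      exact hnn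
    have hfin := c3 ω hω2 (Pool.V1E.up (c r) U v) (by rw [Pool.V1E.up_none]; exact hU0) hnn'
    refine hfin.trans ?_
    have e5 : (2 : ℝ) ^ (C₂ * (h + x + u + 1)) * (2 ^ d / 2 ^ g₀ 1 (r + 1)) =
        2 ^ (C₂ * (h + x + u + 1) + d) / 2 ^ g₀ 1 (r + 1) := by
      rw [pow_add]
      ring
    rw [e5]
    refine Pool.V1E.p2_le' ?_
    refine cst ?_
    push_cast
    rw [hdR]
    have g1 := (N4 (r + 1) le_rfl).2.2.1
    have m1 := mulJ h3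
    have hC1E : C₁ * E = C₂ * (4 * C' + 7 * C + 8) * E + C₃ * (7 * C + 4) * E + 4 * (C' * E) +
        8 * E := by
      rw [hC₁]
      ring
    have m2 : (C₂ : ℝ) * (h + x + u + 1) ≤ C₂ * ((4 * C' + 7 * C + 8) * E + 7) := by
      refine mul_le_mul_of_nonneg_left ?_ (by linarith only [hC₂R])
      rw [huR]
      linarith only [fh.1, fx1, fC.1, hxE]
    have m3 : (C₂ : ℝ) * ((4 * C' + 7 * C + 8) * E + 7) =
        C₂ * (4 * C' + 7 * C + 8) * E + 7 * C₂ := by ring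
    linarith only [g1, m1, m2, m3, hC1E, hC3x, fa.1, f0.2, k0.1, hQb, kχ, hχJ, hE, j1, hCE, hC₂R,
      hC₃R]

end Pool.W.V1E
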