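import Pool.Agent.H42.D2.Nrc
import Pool.Agent.H31.W.H3.D2G.RecN
import Pool.Agent.H31.W.H42.D2.Nrb
import Pool.Agent.H3.W.Bas
import Pool.Agent.H31.W1.H2.GEN.ChT

/-!
# Closed labels of `N` which are closed at an earlier window, at the scale of a record

`hn_rec`: `HnB` from the record, for `u` thin (or of slope one) over coordinates of slope one and `N`
steep, with the pairs `(a, 0)`, `(au, -v₁)` and `(au, y)`, and from `BlB` at the window `t - v₁ q`.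
-/

set_option autoImplicit false

namespace Pool.W.PKG

open Pool.PKG

open Finset Real
open Pool.Agent.H49.Ent Pool.Agent.H32.Dense Pool.STK Pool.KA Pool.KSAT Pool.K2S Pool.PB
open Pool.GEN Pool.S6C Pool.STAT Pool.CHT Pool.GRW Pool.ONE Pool.STA Pool.ALT
open Pool.LBT (LSys ThrOf)
open Pool.LEV (Law)
open Pool.ALL (RateOf)
open Pool.ISO (PtD lvN WinD)
open Pool.V1E (vG vG_ge HnB hn_con)
open Pool.PN18 (Fm2)

/-- **Closed labels of `N`**, at the place `r + 1`, closed at the window `t - v₁ q`, at the scale of a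
record. -/
theorem hn_rec (m r S₂ : ℕ) (hr : 1 ≤ r) (hS₂ : 1 ≤ S₂) : ∃ Du : ℕ, 1 ≤ Du ∧ ∀ D : ℕ, 1 ≤ D →
    ∀ C : ℝ, 1 ≤ C → ∃ C₁ : ℝ, 1 ≤ C₁ ∧ ∀ {S : Pool.PB.PCl m} {al : ℝ} {g₀ : ℝ → ℝ}
    {P : List (Fin m) × Fin m → ℝ → ℝ → ℝ} {θ : ℝ}
    {P₂ : ℕ → List (Fin m) × Fin m → ℝ → ℝ → ℝ} {θ₂ Eb e₂ : ℕ → ℝ}
    {c : ℕ → Fin m} {Pt : ℝ → ℝ → ℝ} {rt : ℝ → ℝ} {h K₀ g : ℝ} {L T : ℕ → ℝ → ℝ → ℝ}
    {Sl : ℕ → ℝ} {κ : ℕ → Pool.PKG.Kg} {G : Set ℝ} {S₀ N : ℕ} {A V : ℕ → ℝ} {N' : ℕ} {V' : ℕ → ℝ}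
    {K ε q t : ℝ},
    Pool.W.PKG.RecG S al g₀ P θ P₂ θ₂ Eb e₂ c Pt rt h K₀ g L T Sl κ G S₀ N A V S₂ N' V' K ε q t →
    r + 1 < m → (∀ l < r, κ l = .one) → κ r = .thin ∨ κ r = .one → κ (r + 1) = .stp →
    ∀ {y a au v₁ k₁ hh X w : ℝ} {vw : ℕ → ℝ} {Θ : Pool.PN18.Fm2 m} {D' : ℕ} (Dr N₁ N₂ : ℕ),
    1 ≤ N₁ → 3 ≤ N₂ → 3 / 2 ≤ y → y + 1 / 2 ≤ a → Sl (r + 1) + 1 ≤ a → a + 1 ≤ k₁ →
    2 * a + k₁ + 4 ≤ K → 0 ≤ v₁ → v₁ + 1 ≤ K → y + 1 ≤ au → au ≤ K →
    (Sl (r + 1) - 1) * y + (Sl (r + 1) - 2) * v₁ ≤ au →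
    Sl (r + 1) - 1 ≤ (Sl r - Sl (r + 1)) * v₁ →
    (∃ j < N, A j = a ∧ V j = 0) → (∃ j < N, A j = au ∧ V j = -v₁) →
    (∃ j < N, A j = au ∧ V j = y) → 0 < hh → 0 ≤ ε →
    C₁ * ε ≤ hh → C₁ * hh ≤ X → C₁ * hh ≤ 1 → Du ≤ D' →
    Pool.ALT.BlB S c r (c (r + 1)) w (t + -v₁ * q) D' D'
      (L (r + 1) (t + -v₁ * q) (t + -v₁ * q) - 2 * (hh * q))
      (L r (t + -v₁ * q) (t + -v₁ * q) - 2 * (hh * q))
      (L r (t + -v₁ * q) (t + -v₁ * q) - L (r + 1) (t + -v₁ * q) (t + -v₁ * q) + X / 4 * q)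
      (Pool.ALT.Fm2.lab Θ) →
    (∀ (J : ℕ) (F : Pool.KA.Fam m J) (A B : F.Ω → Prop) (V C : Type) (z : Pool.GEN.PtT F → V)
      (z' : Pool.GEN.LnT F → V) (G₁ G₂ : V → MvPolynomial (Option (Fin m)) ℝ) (cc : Pool.GEN.LnT F → C), Pool.K2S.Sub B A →
      Θ J F A V C z z' G₁ G₂ cc → Θ J F B V C z z' G₁ G₂ cc) →
    ∃ K₄ : ℝ, 0 < K₄ ∧ ∀ κ₁ : ℝ,
      Pool.W.V1E.HnB S c r D Du Dr N₁ N₂ (fun l => κ l = .one ∨ κ l = .thin) C (t + a * q) (Eb (r + 1))
        (3 * ε * q) (hh * q) (X * q) (Sl (r + 1) * q) (L (r + 1)) (fun k => t + Pool.V1E.vG y k₁ vw k * q)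
        (fun k l => Pool.ISO.lvN P c (r + 1) (L (r + 1)) l (t + Pool.V1E.vG y k₁ vw k * q) (t + Pool.V1E.vG y k₁ vw k * q))
        (fun k l => Pool.CHT.bet P c l (t + a * q) (t + Pool.V1E.vG y k₁ vw k * q)) κ₁ K₄ (Pool.ALT.XiF Θ w) := by
  obtain ⟨Du, hDu, hhn⟩ := Pool.W.V1E.hn_con m r S₂ hr hS₂
  refine ⟨Du, hDu, fun D hD C hC => ?_⟩
  obtain ⟨C₀, hC₀, hhn⟩ := hhn D hD C hC
  obtain ⟨C₁, hC₁⟩ : ∃ C₁ : ℝ, C₁ = 4 * C₀ + 8 * C + 4 := ⟨_, rfl⟩
  refine ⟨C₁, by linarith, ?_⟩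
  intro S al g₀ P θ P₂ θ₂ Eb e₂ c Pt rt h K₀ g L T Sl κ G S₀ N A V N' V' K ε q t R hrm hκ hκu hκt
    y a au v₁ k₁ hh X w vw Θ D' Dr N₁ N₂ hN₁ hN₂ hy hya hsa hkk hkK hv₁ hv₁K hyau hauK hrow hgain
    hp0 hp1 hp2 hhh hε hCε hCh hC1 hD' hBl hΘs
  have hq := R.q0
  have ht0 := R.t0
  have ht1 := R.t1
  have hC₀0 : 0 < C₀ := by linarith
  have hC0 : 0 < C := by linarith
  have W := R.tg (r + 1) (by omega) hrm
  -- products
  have mq : ∀ {x z : ℝ}, x ≤ z → x * q ≤ z * q := fun h => mul_le_mul_of_nonneg_right h hq.le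
  have hεq : 0 ≤ ε * q := mul_nonneg hε hq.le
  have hhq : 0 < hh * q := mul_pos hhh hq
  have eC : ∀ z : ℝ, C₁ * z = 4 * (C₀ * z) + 8 * (C * z) + 4 * z := fun z => by
    rw [hC₁]
    ring
  have pC : ∀ {z : ℝ}, 0 ≤ z → 0 ≤ C₀ * z ∧ 0 ≤ C * z := fun hz =>
    ⟨mul_nonneg hC₀0.le hz, mul_nonneg hC0.le hz⟩
  obtain ⟨k1, k2⟩ := pC hε
  obtain ⟨k3, k4⟩ := pC hhh.le
  rw [eC] at hCε hCh hC1
  obtain ⟨e, he⟩ : ∃ e : ℝ, e = ε * q := ⟨_, rfl⟩
  obtain ⟨H, hH⟩ : ∃ H : ℝ, H = hh * q := ⟨_, rfl⟩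
  obtain ⟨XX, hXX⟩ : ∃ XX : ℝ, XX = X * q := ⟨_, rfl⟩
  have he0 : 0 ≤ e := by rw [he]; exact hεq
  have hH0 : 0 < H := by rw [hH]; exact hhq
  have n1 : 4 * (C₀ * e) + 4 * e ≤ H := by
    have := mq (show 4 * (C₀ * ε) + 4 * ε ≤ hh by linarith)
    rw [he, hH]
    linarith
  have n2 : 4 * (C₀ * H) + 8 * (C * H) + 4 * H ≤ XX := by
    have := mq hCh
    rw [hH, hXX]
    linarith
  have n3 : 4 * (C₀ * H) + 8 * (C * H) + 4 * H ≤ q := by
    have := mq hC1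
    rw [hH]
    linarith
  obtain ⟨p1, p2⟩ := pC he0
  obtain ⟨p3, p4⟩ := pC hH0.le
  have hkd := R.kd (r + 1) hrm
  rw [hκt] at hkd
  obtain ⟨b, hb⟩ : ∃ b : ℝ, b = Sl (r + 1) := ⟨_, rfl⟩
  obtain ⟨s, hs⟩ : ∃ s : ℝ, s = Sl r := ⟨_, rfl⟩
  rw [← hb] at hsa hrow hgain hkd
  rw [← hs] at hgain
  have hb2 : 2 < b := hkd.1
  have hkdT := hkd.2
  have hs1 : 1 ≤ s := by
    have h4 := R.kd r (by omega)
    rw [← hs] at h4
    rcases hκu with hk | hk
    · rw [hk] at h4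
      exact h4.1.le
    · rw [hk] at h4
      have : s = 1 := h4
      linarith
  have hyq : 3 / 2 * q ≤ y * q := mq hy
  have hyaq : y * q + q / 2 ≤ a * q := by
    have := mq hya
    linarith
  have hsaq : b * q + q ≤ a * q := by
    have := mq hsa
    linarith
  have hbq : 2 * q < b * q := mul_lt_mul_of_pos_right hb2 hq
  have hk₁q : a * q + q ≤ k₁ * q := by
    have := mq hkk
    linarith
  have hkKq : 2 * (a * q) + k₁ * q + 4 * q ≤ K * q := by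
    have := mq hkK
    linarith
  have hv₁q : 0 ≤ v₁ * q := mul_nonneg hv₁ hq.le
  have hv₁Kq : v₁ * q + q ≤ K * q := by
    have := mq hv₁K
    linarith
  have hyauq : y * q + q ≤ au * q := by
    have := mq hyau
    linarith
  have hauKq := mq hauK
  have hrowq : b * (y * q) - y * q + (b * (v₁ * q) - 2 * (v₁ * q)) ≤ au * q := by
    have := mq hrow
    linarith
  have hgq : b * q - q ≤ s * (v₁ * q) - b * (v₁ * q) := by
    have := mq hgain
    linarith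
  have hby : b * q + y * q ≤ b * (y * q) + q := by
    have h1 : 0 ≤ (b - 1) * (y - 1) * q :=
      mul_nonneg (mul_nonneg (by linarith) (by linarith)) hq.le
    linarith
  have hsy : s * q + y * q ≤ s * (y * q) + q := by
    have h1 : 0 ≤ (s - 1) * (y - 1) * q :=
      mul_nonneg (mul_nonneg (by linarith) (by linarith)) hq.le
    linarith
  have hsq : q ≤ s * q := le_mul_of_one_le_left hq.le hs1
  -- windows
  obtain ⟨o, ho⟩ : ∃ o : ℕ → ℝ, o = fun k => t + Pool.V1E.vG y k₁ vw k * q := ⟨_, rfl⟩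
  have hoE : ∀ k, o k = t + Pool.V1E.vG y k₁ vw k * q := fun k => by rw [ho]
  have o2 : o 2 = t - k₁ * q := by rw [hoE 2]; simp [Pool.V1E.vG]; ring
  have o0 : o 0 = t := by rw [hoE 0]; simp [Pool.V1E.vG]
  have o3 : o 3 = t + q := by rw [hoE 3]; simp [Pool.V1E.vG]
  have o1 : o 1 = t + y * q := by rw [hoE 1]; simp [Pool.V1E.vG]
  obtain ⟨b₁, hb₁⟩ : ∃ b₁ : ℝ, b₁ = t + -v₁ * q := ⟨_, rfl⟩
  have hb₁' : b₁ = t - v₁ * q := by rw [hb₁]; ring
  have hot : ∀ k, t + Pool.V1E.vG y k₁ vw k * q = o k := fun k => by rw [ho]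
  have hot2 : (fun k => t + Pool.V1E.vG y k₁ vw k * q) = o := ho.symm
  rw [hot2]
  rw [← hb₁] at hBl
  simp only [hot]
  have hlv : ∀ l ≤ r + 1, ∀ a w : ℝ, Pool.ISO.lvN P c (r + 1) (L (r + 1)) l a w = L l a w :=
    fun l hl a w => by rw [← R.lv_at hrm hl]
  have hbe : ∀ l ≤ r, Pool.CHT.bet P c l = L l := fun l hl => (R.lv_lt (l := l) (by omega)).symm
  have hxK : ∀ x : ℝ, t - K * q ≤ x → x ≤ t + K * q → |x - t| ≤ K * q := fun x h1 h2 => by
    rw [abs_le]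
    constructor <;> linarith
  have dL : ∀ l ≤ r + 1, ∀ x : ℝ, t - K * q ≤ x → x ≤ t + K * q →
      L l x x ≤ L l t t + Sl l * (x - t) + e ∧ L l t t + Sl l * (x - t) - e ≤ L l x x := by
    intro l hl x h1 h2
    obtain ⟨h3, h4⟩ := abs_le.1 (R.dL l (by omega) x (hxK x h1 h2))
    rw [← he] at h3 h4
    constructor <;> linarith
  have sl1 : ∀ l < r, Sl l = 1 := fun l hl => by
    have h2 := R.kd l (by omega)
    rw [hκ l hl] at h2
    exact h2
  have hbx : ∀ k ≤ 3, t - K * q ≤ o k ∧ o k ≤ t + K * q := by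
    intro k hk
    interval_cases k
    · rw [o0]; constructor <;> linarith
    · rw [o1]; constructor <;> linarith
    · rw [o2]; constructor <;> linarith
    · rw [o3]; constructor <;> linarith
  have dk : ∀ l ≤ r + 1, ∀ k ≤ 3, L l (o k) (o k) ≤ L l t t + Sl l * (o k - t) + e ∧
      L l t t + Sl l * (o k - t) - e ≤ L l (o k) (o k) := fun l hl k hk =>
    dL l hl _ (hbx k hk).1 (hbx k hk).2
  have e3 : o 3 - t = q := by rw [o3]; ring
  have e1 : o 1 - t = y * q := by rw [o1]; ring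
  have eb : b₁ - t = -(v₁ * q) := by rw [hb₁']; ring
  have hb₁K : t - K * q ≤ b₁ ∧ b₁ ≤ t + K * q := by
    rw [hb₁']
    constructor <;> linarith
  have dbN := dL (r + 1) le_rfl b₁ hb₁K.1 hb₁K.2
  have dbu := dL r (by omega) b₁ hb₁K.1 hb₁K.2
  rw [← hb, eb] at dbN
  rw [← hs, eb] at dbu
  have d3N := dk (r + 1) le_rfl 3 (by norm_num)
  have d1N := dk (r + 1) le_rfl 1 (by norm_num)
  have d3u := dk r (by omega) 3 (by norm_num)
  have d1u := dk r (by omega) 1 (by norm_num)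
  rw [← hb, e3] at d3N
  rw [← hb, e1] at d1N
  rw [← hs, e3] at d3u
  rw [← hs, e1] at d1u
  have lowN : ∀ {x : ℝ}, 0 ≤ x → x ≤ 1 → ∀ l ≤ r + 1, x ≤ L l x x := fun h0 h1 l hl =>
    R.low_at (i := l) (by omega) h0 le_rfl h1
  have lowP : ∀ {x x' : ℝ}, 0 ≤ x → x ≤ x' → x' ≤ 1 → x' ≤ L (r + 1) x' x := fun h0 h1 h2 =>
    R.low_at (i := r + 1) hrm h0 h1 h2
  -- the rows of `N`
  obtain ⟨j0, hj0, hA0, hV0⟩ := hp0
  obtain ⟨j1, hj1, hA1, hV1⟩ := hp1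
  obtain ⟨j2, hj2, hA2, hV2⟩ := hp2
  have rowa : L (r + 1) t t + 2 * (a * q) - 2 * e ≤ L (r + 1) (t + a * q) t := by
    have h5 := hkdT (t + a * q) t (by linarith) (by linarith) (by linarith)
    have h6 := (R.TL _ hj0 (r + 1) hrm).1
    rw [hA0, hV0, zero_mul, add_zero] at h6
    have h7 := abs_le.1 (R.dT (r + 1) hrm t (by rw [sub_self, abs_zero]; linarith))
    rw [sub_self, mul_zero, ← he] at h7
    rw [← he] at h5
    linarith [h7.1]
  have rowu : L (r + 1) t t - b * (v₁ * q) + 2 * (au * q + v₁ * q) - 2 * e ≤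
      L (r + 1) (t + au * q) b₁ := by
    have h5 := hkdT (t + au * q) b₁ (by linarith [hb₁K.1]) (by rw [hb₁']; linarith) (by linarith)
    have h6 := (R.TL _ hj1 (r + 1) hrm).1
    rw [hA1, hV1, ← hb₁] at h6
    have h7 := abs_le.1 (R.dT (r + 1) hrm b₁ (hxK b₁ hb₁K.1 hb₁K.2))
    rw [← hb, eb, ← he] at h7
    rw [← he] at h5
    have e4 : t + au * q - b₁ = au * q + v₁ * q := by rw [hb₁']; ring
    rw [e4] at h5
    linarith [h7.1]
  refine hhn (S := S) (P := P) (θ := θ) (c := c) (Pt := L (r + 1))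
    (R := fun l => κ l = .one ∨ κ l = .thin) (Rw := fun l => κ l = .one ∨ κ l = .thin)
    (a := t + a * q) (au := t + au * q) (Eb := Eb (r + 1)) (Eu := Eb (r + 1))
    (ε₁ := 3 * ε * q) (ε₀ := 3 * ε * q) (η₀ := hh * q) (χ := X * q) (mb := Sl (r + 1) * q)
    (b₁ := b₁) (w := w) (o := o) (Θ := Θ) (p₁ := L (r + 1) b₁ b₁ - 2 * (hh * q))
    (p₂ := L r b₁ b₁ - 2 * (hh * q)) (x₁ := L r b₁ b₁ - L (r + 1) b₁ b₁ + X / 4 * q)
    Dr N₁ N₂ hN₁ hN₂ R.pos R.thr R.th0 R.tmh (R.inj.mono fun x hx => by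
      rw [Set.mem_Iio] at hx ⊢
      omega) (R.lawL (r + 1) hrm) W.Eb0.le (fun v hv => ?_) (fun l hl => ?_) ?_ ?_
    (fun v hv => ?_) (by linarith) (fun l hl => Or.inl (hκ l hl)) ?_ ?_ ?_ (by linarith)
    (fun hR => absurd (by rcases hκu with h | h <;> simp [h]) hR) ?_ ?_ ?_ ?_
    (fun k hk j hj => ?_) ?_ ?_ ?_ ?_ ?_ (fun l hl => rfl) (fun l hl => ?_) ?_ ?_ ?_
    (Pool.ALT.BlB.deg hD' hD' hBl) ?_ ?_ ?_ ?_ ?_ hΘs
  · -- the rows
    rcases hv with rfl | rfl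
    · have h3 := R.winD (i := r + 1) (by omega) hrm hj1 (by rw [hV1]; linarith)
        (by rw [hA1, hV1]; linarith) (by rw [hA1]; exact hauK) (ε' := 3 * ε * q) le_rfl hε
        (Rg := fun l => κ l = .one ∨ κ l = .thin) (fun l _ h => h)
      rw [hA1, hV1, ← hb₁] at h3
      exact h3
    · have h3 := R.winD (i := r + 1) (by omega) hrm hj2 (by rw [hV2]; linarith)
        (by rw [hA2, hV2]; linarith) (by rw [hA2]; exact hauK) (ε' := 3 * ε * q) le_rfl hε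
        (Rg := fun l => κ l = .one ∨ κ l = .thin) (fun l _ h => h)
      rw [hA2, hV2, ← o1] at h3
      exact h3
  · rcases Nat.lt_or_ge l r with h | h
    · exact Or.inl (hκ l h)
    · have : l = r := by omega
      rw [this]
      exact hκu.symm
  · have h1 : C₀ * (3 * ε * q) = 3 * (C₀ * e) := by rw [he]; ring
    rw [h1, ← hH]
    rcases eq_or_lt_of_le he0 with h0 | h0
    · rw [← h0, mul_zero, mul_zero]
      exact hH0
    · have : 0 < C₀ * e := mul_pos hC₀0 h0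
      linarith
  · rw [← hH, ← hXX]
    linarith
  · have hvv : t - v₁ * q ≤ v ∧ v ≤ t + y * q := by
      rcases hv with rfl | rfl
      · rw [hb₁']
        constructor <;> linarith
      · rw [o1]
        constructor <;> linarith
    have hv0 : q ≤ v := by linarith [hvv.1]
    have hvau : v + q ≤ t + au * q := by linarith [hvv.2]
    rw [← hH]
    refine ⟨by linarith, ?_, ?_, by linarith, fun l hl => ?_, fun l hl => ?_⟩
    · have := lowP (x := v) (x' := t + au * q) (by linarith) (by linarith) (by linarith)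
      linarith
    · rw [hlv _ le_rfl]
      have := lowN (x := v) (by linarith) (by linarith) (r + 1) le_rfl
      linarith
    · rw [hlv l hl]
      have := W.room l hl v (hxK v (by linarith [hvv.1]) (by linarith [hvv.2]))
      linarith [hvv.1]
    · rw [hbe l (by omega)]
      have h3 := (R.lawL l (by omega)).mono_w (t + au * q) v (t + au * q) (by linarith)
        (by linarith) le_rfl (by linarith)
      have := W.room l hl.le (t + au * q) (hxK _ (by linarith) (by linarith))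
      linarith
  · rw [o0, ← hH]
    have := lowP (x := t) (x' := t + a * q) (by linarith) (by linarith) (by linarith)
    linarith
  · rw [hlv _ le_rfl, o0]
    have := lowN (x := t) (by linarith) (by linarith) (r + 1) le_rfl
    linarith
  · rw [o1, ← hH]
    linarith
  · rw [o2, o3, o0, ← hb]
    linarith
  · rw [o3, o0, ← hb]
    linarith
  · rw [o3, o0, ← hH]
    linarith
  · rw [o3, o1, ← hH]
    linarith
  · -- the levels of the frame
    rw [hlv j (by omega), hlv j (by omega), ← hH]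
    have h4 := dk j (by omega) k hk
    rw [sl1 j hj] at h4
    rw [o0]
    rw [abs_le]
    constructor <;> linarith [h4.1, h4.2]
  · rw [hlv r (by omega), hlv r (by omega), o0, ← hH]
    rw [o3] at d3u ⊢
    linarith [d3u.2]
  · rw [hlv r (by omega), hlv r (by omega), ← hH]
    have e6 : o 1 - o 3 = y * q - q := by rw [o1, o3]; ring
    rw [e6]
    linarith [d3u.1, d1u.2]
  · rw [hlv _ le_rfl, hlv _ le_rfl, o0, ← hH, ← hb]
    linarith [d3N.2]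
  · rw [hlv _ le_rfl, hlv _ le_rfl, ← hH, ← hb]
    have e6 : o 1 - o 0 = y * q := by rw [o1, o0]; ring
    have e7 : o 3 - o 0 = q := by rw [o3, o0]; ring
    rw [e6, e7, o0]
    linarith [d1N.2]
  · rw [hlv _ le_rfl, ← hH, ← hb]
    have e7 : o 3 - o 0 = q := by rw [o3, o0]; ring
    rw [e7, o0]
    linarith
  · rw [hlv l (by omega), ← hH]
    have e6 : o 1 - o 0 = y * q := by rw [o1, o0]; ring
    rw [e6]
    have := lowN (x := o 1) (by rw [o1]; linarith) (by rw [o1]; linarith) l (by omega)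
    have e8 := o1
    linarith
  · rw [hlv _ le_rfl, ← hH]
    have e8 := o1
    linarith [d1N.1]
  · rw [o0, hb₁']
    linarith
  · rw [hb₁']
    linarith
  · rw [hlv _ le_rfl]
    linarith
  · rw [hlv r (by omega)]
    linarith
  · rw [hlv r (by omega), hlv _ le_rfl, hlv r (by omega), ← hH, ← hb]
    have e7 : o 3 - o 0 = q := by rw [o3, o0]; ring
    rw [e7, o0]
    linarith [dbu.1]
  · rw [hlv r (by omega), hlv _ le_rfl, hlv _ le_rfl, hlv r (by omega), ← hH, ← hb]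
    have e7 : o 3 - o 0 = q := by rw [o3, o0]; ring
    rw [e7, o0]
    linarith [dbu.1, dbN.2]
  · rw [hlv _ le_rfl, hlv r (by omega), ← hH, ← hb, ← hXX]
    have e7 : o 3 - o 0 = q := by rw [o3, o0]; ring
    have e8 : X / 4 * q = XX / 4 := by rw [hXX]; ring
    rw [e7, o0, e8]
    linarith [dbu.1, dbN.2]

end Pool.W.PKG
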