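import Pool.Agent.H42.D2.Ntd
import Pool.Agent.H3.W.Bas

/-!
# The chain with one more place at the windows of a record

`RecG.chv`: the chain of the places `0, …, r` of which the digits of the last one are the natural ones
of the window `t`, at the windows of a record.
-/

set_option autoImplicit false

namespace Pool.W.PKG

open Pool.PKG

open Finset Real
open Pool.Agent.H49.Ent Pool.Agent.H32.Dense Pool.STK Pool.KA Pool.KSAT Pool.K2S Pool.PB
open Pool.GEN Pool.S6C Pool.STAT Pool.CHT Pool.GRW Pool.ONE Pool.STA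
open Pool.LA91 Pool.AJW Pool.NPZ
open Pool.RCD (vg)
open Pool.AJX (LbX FwX)

section

variable {m : ℕ} {S : Pool.PB.PCl m} {al : ℝ} {g₀ : ℝ → ℝ} {P : List (Fin m) × Fin m → ℝ → ℝ → ℝ}
  {θ : ℝ} {P₂ : ℕ → List (Fin m) × Fin m → ℝ → ℝ → ℝ} {θ₂ Eb e₂ : ℕ → ℝ}
  {c : ℕ → Fin m} {Pt : ℝ → ℝ → ℝ} {rt : ℝ → ℝ} {h K₀ g : ℝ} {L T : ℕ → ℝ → ℝ → ℝ}
  {Sl : ℕ → ℝ} {κ : ℕ → Pool.PKG.Kg} {G : Set ℝ} {S₀ N : ℕ} {A V : ℕ → ℝ} {S₂ N' : ℕ} {V' : ℕ → ℝ}
  {K' ε q t : ℝ} {S₁ : Pool.PB.PCl m} {r K : ℕ} {vv X φ lam kf : ℝ}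

/-- **The chain with one more place** at the windows `t + vv q < t` of a record. -/
theorem RecG.chv
    (R : Pool.W.PKG.RecG S al g₀ P θ P₂ θ₂ Eb e₂ c Pt rt h K₀ g L T Sl κ G S₀ N A V S₂ N' V' K' ε q t)
    (hrm : r < m) (hch : Pool.LA91.ChG S₁ c (r + 1) (fun l x => L l x x) G) (hGt : t ∈ G)
    {E rd : ℕ → ℝ} {g₁ qv : ℝ} (hφ : 0 < φ)
    (H : Pool.NPZ.ChJ S₁ c 0 r (t + vv * q) t (lam * q) (qv * q) (φ * q) g₁ E
      (fun i => L i (t + vv * q) (t + vv * q)) (fun i => L i t t)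
      (Pool.AJW.nX r (fun l x => L l x x) (t + vv * q) (X * q))
      (fun l => Pool.AJW.aX r (X * q) l - (t - (t + vv * q)) - 2 * (φ * q)) rd)
    (hε : 2 * ε ≤ φ) (hvv : vv ≤ 0) (hvK : -vv ≤ K') (hX0 : 0 ≤ X) {α : ℝ} (hα : Sl r = α)
    (hα0 : 0 ≤ α) (hX : (α + 1) * -vv + 5 * φ ≤ X) (hlam : (α + 1) * -vv + 3 * φ ≤ lam)
    (hE0 : 0 ≤ E r) (hE : L r (t + vv * q) (t + vv * q) + E r + (α * -vv + φ) * q + g₁ ≤ 1)
    (hL0 : 0 ≤ L r (t + vv * q) (t + vv * q)) (hrd0 : 0 ≤ rd r) (hrd : rd r + g₁ ≤ 1) :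
    Pool.NPZ.ChV S₁ c 0 (r + 1) (t + vv * q) t (lam * q) (φ * q) g₁ E
      (fun i => L i (t + vv * q) (t + vv * q)) (fun i => L i t t)
      (Function.update (Pool.AJW.nX r (fun l x => L l x x) (t + vv * q) (X * q)) r (L r t t - φ * q))
      (Function.update (fun l => Pool.AJW.aX r (X * q) l - (t - (t + vv * q)) - 2 * (φ * q)) r (φ * q))
      rd := by
  have hq := R.q0
  obtain ⟨uw, rw, hrw, hcw⟩ := hch.ch t hGt
  have hd := abs_le.1 (R.dL r hrm (t + vv * q) (by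
    rw [add_sub_cancel_left, abs_mul, abs_of_pos hq, abs_of_nonpos hvv]
    exact mul_le_mul_of_nonneg_right hvK hq.le))
  rw [hα, add_sub_cancel_left] at hd
  obtain ⟨hd1, hd2⟩ := hd
  have x1 := mul_le_mul_of_nonneg_right hX hq.le
  have x2 := mul_le_mul_of_nonneg_right hlam hq.le
  have x3 := mul_le_mul_of_nonneg_right hε hq.le
  have x4 : 0 < φ * q := mul_pos hφ hq
  have x5 : 0 ≤ α * (-vv * q) := mul_nonneg hα0 (mul_nonneg (by linarith) hq.le)
  have x6 : 0 ≤ α * -vv * q := by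
    have : α * -vv * q = α * (-vv * q) := by ring
    rw [this]
    exact x5
  have hg := H.g0
  have hmn : L r t t - α * -vv * q - ε * q ≤
      min (L r (t + vv * q) (t + vv * q)) (L r t t) := by
    refine le_min ?_ ?_
    · have e1 : α * (vv * q) = -(α * -vv * q) := by ring
      rw [e1] at hd1
      linarith only [hd1]
    · have : 0 ≤ ε * q := by
        have h1 := abs_nonneg (L r t t - L r t t - Sl r * (t - t))
        have h2 := R.dL r hrm t (by
          rw [sub_self, abs_zero]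
          exact mul_nonneg (le_trans (by linarith) hvK) hq.le)
        exact h1.trans h2
      linarith only [this, x6]
  have e2 : (α + 1) * -vv * q = α * -vv * q + -vv * q := by ring
  have e3 : t - (t + vv * q) = -vv * q := by ring
  refine Pool.NPZ.chv_of H (nu := L r t t - φ * q) (lu := φ * q) ⟨hE0, ?_⟩ ⟨uw, rw, hcw⟩
    ⟨hrd0, hrd⟩ ?_ x4 le_rfl (fun l hl => ?_) ?_
  · have : 0 ≤ (α * -vv + φ) * q := by
      have e4 : (α * -vv + φ) * q = α * -vv * q + φ * q := by ring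
      rw [e4]
      linarith only [x6, x4]
    linarith only [hE, hL0, hg, this]
  · show L r t t - φ * q + E r + g₁ ≤ 1
    have e1 : α * (vv * q) = -(α * -vv * q) := by ring
    rw [e1] at hd1
    have e4 : (α * -vv + φ) * q = α * -vv * q + φ * q := by ring
    rw [e4] at hE
    linarith only [hE, hd1, x3, x4]
  · show L r t t + φ * q + φ * q ≤ min (L r (t + vv * q) (t + vv * q)) (L r t t) +
      (Pool.AJW.aX r (X * q) l - (t - (t + vv * q)) - 2 * (φ * q))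
    have h1 := Pool.AJW.aX_ge (r := r) (mul_nonneg hX0 hq.le) l
    rw [e3]
    linarith only [h1, x1, x3, x4, hmn, e2]
  · show L r t t + φ * q + φ * q ≤ min (L r (t + vv * q) (t + vv * q)) (L r t t) +
      (t + vv * q + lam * q - t)
    linarith only [x2, x3, x4, hmn, e2]

end

end Pool.W.PKG
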